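import Pool.Agent.Lib.MP_bb9e9d_lc.Hard.CompDefs

/-! # Completeness: reading the labelling -/

namespace Pool.Agent.Lib.MP_bb9e9d_lc

open MP_634427_lc

variable {P0 : Pg} {x u : Word} {e m0 n : ℕ}

private theorem getD_idxOf {t : BT} {l : List BT} (ht : t ∈ l) : l.getD (l.idxOf t) .nil = t := by
  have h := List.idxOf_lt_length_of_mem ht
  rw [List.getD_eq_getElem?_getD, List.getElem?_eq_getElem h, Option.getD_some,
    List.getElem_idxOf]

/-- The cell of a tree.  Proof: `base ≤ hadr t`, `TL.getD (idxOf t) = t`. -/
theorem labl_ha {t : BT} (ht : t ∈ TL P0 x u) :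
    (labl P0 x u m0 n (hadr P0 x u m0 t)).bit 0 = isN t ∧
      (labl P0 x u m0 n (hadr P0 x u m0 t)).fld 0 = hadr P0 x u m0 t.left ∧
      (labl P0 x u m0 n (hadr P0 x u m0 t)).fld 1 = hadr P0 x u m0 t.right := by
  have h1 : ¬ (hadr P0 x u m0 t < base m0) := by unfold hadr; omega
  have h2 : (TL P0 x u).getD (hadr P0 x u m0 t - base m0) .nil = t := by
    have : hadr P0 x u m0 t - base m0 = (TL P0 x u).idxOf t := by unfold hadr; omega
    rw [this]
    exact getD_idxOf ht
  unfold labl
  rw [if_neg h1]
  refine ⟨?_, ?_, ?_⟩
  · simp only [if_true, h2]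
  · simp only [if_true, h2]
  · simp only [if_true, h2, if_neg one_ne_zero]

/-- The record of a fact.  Proof: `radr F < 2 ^ n - 1` by `Room`. -/
theorem labl_ra (h : Room P0 x u e m0 n) {F : Fact} (hF : F ∈ FL P0 x u) :
    (∀ j, 2 ≤ j → (labl P0 x u m0 n (radr P0 x u m0 F)).fld j = (recL P0 x u m0 F).fld j) ∧
      (∀ b, 1 ≤ b → (labl P0 x u m0 n (radr P0 x u m0 F)).bit b = (recL P0 x u m0 F).bit b) := by
  have hi := List.idxOf_lt_length_of_mem hF
  have h1 : ¬ (radr P0 x u m0 F < base m0) := by unfold radr; omega
  have h2 : radr P0 x u m0 F ≠ 2 ^ n - 1 := by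
    have := h.room
    unfold radr; omega
  have h3 : (FL P0 x u)[radr P0 x u m0 F - base m0]? = some F := by
    have : radr P0 x u m0 F - base m0 = (FL P0 x u).idxOf F := by unfold radr; omega
    rw [this, List.getElem?_eq_getElem hi, List.getElem_idxOf]
  unfold labl
  rw [if_neg h1]
  refine ⟨?_, ?_⟩
  · intro j hj
    simp only [if_neg (show j ≠ 0 by omega), if_neg (show j ≠ 1 by omega), if_neg h2, h3]
  · intro b hb
    simp only [if_neg (show b ≠ 0 by omega), if_neg h2, h3]

/-- An address with a kind bit carries a fact.  Proof: below `base` only the bits `0`, `2` are set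
(`kb ≥ 3`). -/
theorem labl_kind {a : ℕ} {k : Kd} (hb : (labl P0 x u m0 n a).bit (kb P0 k) = true)
    (hk : k ∈ kds P0) : base m0 ≤ a ∧ a ≠ 2 ^ n - 1 ∧ ∃ F, (FL P0 x u)[a - base m0]? = some F ∧
      F.1 = k ∧ (∀ j, 2 ≤ j → (labl P0 x u m0 n a).fld j = (recL P0 x u m0 F).fld j) ∧
      (labl P0 x u m0 n a).bit 1 = (recL P0 x u m0 F).bit 1 := by
  have hk3 : 3 ≤ kb P0 k := by unfold kb; omega
  have h1 : ¬ a < base m0 := by
    intro h1
    unfold labl at hb
    rw [if_pos h1] at hb
    simp only [Bool.or_eq_true, Bool.and_eq_true, decide_eq_true_eq] at hb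
    omega
  have hb' := hb
  unfold labl at hb'
  rw [if_neg h1] at hb'
  simp only [if_neg (show kb P0 k ≠ 0 by omega)] at hb'
  have h2 : a ≠ 2 ^ n - 1 := by
    intro h2
    rw [if_pos h2] at hb'
    exact absurd hb' (by simp)
  rw [if_neg h2] at hb'
  refine ⟨by omega, h2, ?_⟩
  cases h3 : (FL P0 x u)[a - base m0]? with
  | none =>
    rw [h3] at hb'
    exact absurd hb' (by simp)
  | some F =>
    rw [h3] at hb'
    refine ⟨F, rfl, ?_, ?_, ?_⟩
    · simp only [recL, Bool.or_eq_true, Bool.and_eq_true, decide_eq_true_eq] at hb'
      rcases hb' with hb' | hb'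
      · have h4 : (kds P0).idxOf k = (kds P0).idxOf F.1 := by unfold kb at hb'; omega
        exact ((List.idxOf_inj hk).1 h4).symm
      · omega
    · intro j hj
      unfold labl
      rw [if_neg h1]
      simp only [if_neg (show j ≠ 0 by omega), if_neg (show j ≠ 1 by omega), if_neg h2, h3]
    · unfold labl
      rw [if_neg h1]
      simp only [if_neg one_ne_zero, if_neg h2, h3]

/-- subtrees of members are members -/
private theorem TL_sub' {t : BT} (ht : t ∈ TL P0 x u) : ∀ s ∈ subt t, s ∈ TL P0 x u := by
  intro s hs
  unfold TL trees at ht ⊢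
  simp only [List.mem_append, List.mem_flatMap] at ht ⊢
  rcases ht with (ht | ht) | ⟨F, hF, ht | ht⟩
  · exact Or.inl (Or.inl (subt_trans ht s hs))
  · exact Or.inl (Or.inr (subt_trans ht s hs))
  · exact Or.inr ⟨F, hF, Or.inl (subt_trans ht s hs)⟩
  · exact Or.inr ⟨F, hF, Or.inr (subt_trans ht s hs)⟩

private theorem nil_subt (t : BT) : BT.nil ∈ subt t := by
  induction t with
  | nil => simp [subt]
  | node a b iha ihb => simp [subt, iha]

private theorem nil_TL : BT.nil ∈ TL P0 x u := by
  unfold TL
  simp only [List.mem_append]
  exact Or.inl (Or.inl (nil_subt _))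

private theorem inp_TL {F : Fact} (hF : F ∈ FL P0 x u) : F.2 ∈ TL P0 x u := by
  unfold TL trees
  simp only [List.mem_append, List.mem_flatMap]
  exact Or.inr ⟨F, hF, Or.inl (mem_subt_self _)⟩

private theorem val_TL {F : Fact} (hF : F ∈ FL P0 x u) : F.val ∈ TL P0 x u := by
  unfold TL trees
  simp only [List.mem_append, List.mem_flatMap]
  exact Or.inr ⟨F, hF, Or.inr (mem_subt_self _)⟩

private theorem dep_FL {F G : Fact} (hF : F ∈ FL P0 x u) (hG : G ∈ deps F) : G ∈ FL P0 x u := by
  obtain ⟨l₁, l₂, he⟩ := List.append_of_mem hF
  have hc : Closed (FL P0 x u) := fl_closed _ _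
  have := hc l₁ F l₂ he G hG
  rw [he]
  exact List.mem_append_left _ this

private theorem left_TL {a b : BT} (h : BT.node a b ∈ TL P0 x u) : a ∈ TL P0 x u :=
  TL_sub' h a (by simp only [subt, List.mem_append]; exact Or.inl (Or.inl (mem_subt_self _)))

private theorem right_TL {a b : BT} (h : BT.node a b ∈ TL P0 x u) : b ∈ TL P0 x u :=
  TL_sub' h b (by simp only [subt, List.mem_append]; exact Or.inl (Or.inr (mem_subt_self _)))

private theorem left_TL' {t : BT} (h : t ∈ TL P0 x u) : t.left ∈ TL P0 x u := by
  cases t with
  | nil => exact nil_TL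
  | node a b => exact left_TL h

private theorem right_TL' {t : BT} (h : t ∈ TL P0 x u) : t.right ∈ TL P0 x u := by
  cases t with
  | nil => exact nil_TL
  | node a b => exact right_TL h

/-- All trees in the fields of the record of a fact are in the list.  Proof: they are subtrees of the
input or of the value of the fact, or of a fact on which it depends (`Closed`), or `nil`. -/
theorem fldT_mem {F : Fact} (hF : F ∈ FL P0 x u) : ∀ t ∈ fldT F, t ∈ TL P0 x u := by
  have h1 := inp_TL hF
  have h2 := val_TL hF
  have h3 := nil_TL (P0 := P0) (x := x) (u := u)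
  obtain ⟨k, T⟩ := F
  cases k with
  | ev q =>
    cases q with
    | id =>
      intro t ht
      simp only [fldT, List.mem_cons, List.not_mem_nil, or_false] at ht
      rcases ht with rfl | rfl
      · exact h1
      · exact h2
    | nil =>
      intro t ht
      simp only [fldT, List.mem_cons, List.not_mem_nil, or_false] at ht
      rcases ht with rfl | rfl
      · exact h1
      · exact h2
    | left =>
      intro t ht
      simp only [fldT, List.mem_cons, List.not_mem_nil, or_false] at ht
      rcases ht with rfl | rfl
      · exact h1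
      · exact h2
    | right =>
      intro t ht
      simp only [fldT, List.mem_cons, List.not_mem_nil, or_false] at ht
      rcases ht with rfl | rfl
      · exact h1
      · exact h2
    | node f g =>
      intro t ht
      simp only [fldT, List.mem_cons, List.not_mem_nil, or_false] at ht
      rcases ht with rfl | rfl | rfl | rfl | rfl
      · exact h1
      · exact h2
      · exact h3
      · exact left_TL h2
      · exact right_TL h2
    | comp f g =>
      intro t ht
      simp only [fldT, List.mem_cons, List.not_mem_nil, or_false] at ht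
      rcases ht with rfl | rfl | rfl | rfl
      · exact h1
      · exact h2
      · exact h3
      · exact val_TL (dep_FL hF (G := (.ev g, T)) (by simp [deps]))
    | recur g h =>
      intro t ht
      simp only [fldT, List.mem_cons, List.not_mem_nil, or_false] at ht
      rcases ht with rfl | rfl | rfl | rfl | rfl
      · exact h1
      · exact h2
      · exact h3
      · exact left_TL' h1
      · exact right_TL' h1
  | rc g h =>
    cases T with
    | nil =>
      intro t ht
      simp [fldT] at ht
    | node s y =>
      cases y with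
      | nil =>
        intro t ht
        simp only [fldT, List.mem_cons, List.not_mem_nil, or_false] at ht
        rcases ht with rfl | rfl | rfl
        · exact h3
        · exact h2
        · exact left_TL h1
      | node a b =>
        intro t ht
        have h4 := inp_TL (dep_FL hF (G := (.ev h, bigT g h s a b)) (by simp [deps]))
        have h5 : BT.node (.node a b) (.node (BT.recur g.eval h.eval s a)
            (BT.recur g.eval h.eval s b)) ∈ TL P0 x u := right_TL h4
        have h6 := right_TL h5
        simp only [fldT, List.mem_cons, List.not_mem_nil, or_false] at ht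
        rcases ht with rfl | rfl | rfl | rfl | rfl | rfl | rfl | rfl | rfl | rfl
        · exact right_TL h1
        · exact h2
        · exact left_TL h1
        · exact left_TL (right_TL h1)
        · exact right_TL (right_TL h1)
        · exact left_TL h6
        · exact right_TL h6
        · exact h6
        · exact h5
        · exact h4

/-- subtrees of members are members -/
theorem TL_sub {t : BT} (ht : t ∈ TL P0 x u) : ∀ s ∈ subt t, s ∈ TL P0 x u :=
  TL_sub' ht

theorem nil_mem_TL : BT.nil ∈ TL P0 x u :=
  nil_TL

private theorem hadr_le (t : BT) : hadr P0 x u m0 t ≤ base m0 + (TL P0 x u).length := by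
  unfold hadr
  have := List.idxOf_le_length (a := t) (l := TL P0 x u)
  omega

private theorem radr_le (F : Fact) : radr P0 x u m0 F ≤ base m0 + (FL P0 x u).length := by
  unfold radr
  have := List.idxOf_le_length (a := F) (l := FL P0 x u)
  omega

/-- All fields are below `2 ^ n`. -/
theorem labl_lt (h : Room P0 x u e m0 n) {a : ℕ} (ha : a < 2 ^ n) (j : ℕ) :
    (labl P0 x u m0 n a).fld j < 2 ^ n := by
  have hr := h.room
  have hx := h.xl
  have he := h.el
  have hu := h.ul
  have hem : 2 ^ e ≤ 2 ^ m0 := Nat.pow_le_pow_right (by norm_num) he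
  have hp : 2 ^ (m0 + 1) = 2 ^ m0 * 2 := pow_succ _ _
  have hxp : 2 ^ x.length ≤ 2 ^ m0 := Nat.pow_le_pow_right (by norm_num) hx.le
  have hb : base m0 = 2 ^ m0 * 2 + 1 := by unfold base; rw [hp]
  have hH : ∀ t, hadr P0 x u m0 t < 2 ^ n := fun t => by
    have := hadr_le (P0 := P0) (x := x) (u := u) (m0 := m0) t
    omega
  have hR : ∀ F, radr P0 x u m0 F < 2 ^ n := fun F => by
    have := radr_le (P0 := P0) (x := x) (u := u) (m0 := m0) F
    omega
  have h0 : 0 < 2 ^ n := by positivity
  unfold labl
  by_cases h1 : a < base m0
  · rw [if_pos h1]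
    dsimp only
    split
    · unfold inL
      split_ifs <;> omega
    · unfold inR
      split_ifs with c1 c2 c3 c4 c5 c6 c7
      · exact h0
      · exact h0
      · omega
      · exact h0
      · omega
      · exact h0
      · have : 2 ^ (Nat.log2 a - 1) ≤ 2 ^ x.length :=
          Nat.pow_le_pow_right (by norm_num) (by omega)
        omega
      · exact h0
    · exact hH _
    · exact hH _
    · exact hH _
    · exact h0
  · rw [if_neg h1]
    dsimp only
    by_cases h2 : j = 0
    · rw [if_pos h2]
      exact hH _
    rw [if_neg h2]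
    by_cases h3 : j = 1
    · rw [if_pos h3]
      exact hH _
    rw [if_neg h3]
    by_cases h4 : a = 2 ^ n - 1
    · rw [if_pos h4]
      split
      · exact hH _
      · exact hH _
      · exact hR _
      · exact h0
    · rw [if_neg h4]
      split
      · exact h0
      · rename_i F hF
        unfold recL
        dsimp only
        split_ifs with h5
        · exact hH _
        · rw [List.getD_eq_getElem?_getD, List.getElem?_map]
          cases (deps F)[j - 12]? with
          | none => exact h0
          | some G => exact hR _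

end Pool.Agent.Lib.MP_bb9e9d_lc
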