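import Pool.Agent.Lib.MP_bb9e9d_lc.Hard.CompA
import Pool.Agent.Lib.MP_bb9e9d_lc.Hard.CompB

/-! # Completeness: the rules for the kinds -/

namespace Pool.Agent.Lib.MP_bb9e9d_lc

open MP_634427_lc

variable {P0 : Pg} {x u : Word} {e m0 n : ℕ}

private theorem recL_kb (F : Fact) : (recL P0 x u m0 F).bit (kb P0 F.1) = true := by
  simp [recL]

private theorem recL_bit1 (F : Fact) : (recL P0 x u m0 F).bit 1 = isN F.2.right := by
  have : ¬ (1 = kb P0 F.1) := by unfold kb; omega
  simp [recL, this]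

/-- A call: the `d`-th dependency of a fact at the address `a`.  Proof: `Closed.idx_lt` (so the
pointer is below `a`), `labl_ra`. -/
theorem comp_call (h : Room P0 x u e m0 n) {a a' : ℕ} (hb : base m0 ≤ a) {F G : Fact}
    (hF : (FL P0 x u)[a - base m0]? = some F) {d : ℕ} (hG : (deps F)[d]? = some G) :
    (recL P0 x u m0 F).fld (12 + d) < a ∧ ((recL P0 x u m0 F).fld (12 + d) = a' →
      (labl P0 x u m0 n a').bit (kb P0 G.1) = true ∧
      ∀ j, 2 ≤ j → (labl P0 x u m0 n a').fld j = (recL P0 x u m0 G).fld j) := by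
  have h1 : (recL P0 x u m0 F).fld (12 + d) = radr P0 x u m0 G := by
    unfold recL
    dsimp only
    rw [if_neg (by omega), List.getD_eq_getElem?_getD, List.getElem?_map,
      show 12 + d - 12 = d by omega, hG]
    rfl
  have hc : Closed (FL P0 x u) := fl_closed _ _
  have hm : G ∈ deps F := List.mem_of_getElem? hG
  have hlt := hc.idx_lt hF hm
  have hGm : G ∈ FL P0 x u := by
    refine List.idxOf_lt_length_iff.1 (hlt.trans ?_)
    exact (List.getElem?_eq_some_iff.1 hF).1
  rw [h1]
  refine ⟨by unfold radr; omega, ?_⟩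
  rintro rfl
  obtain ⟨h2, h3⟩ := labl_ra h hGm
  refine ⟨?_, h2⟩
  rw [h3 _ (by unfold kb; omega)]
  exact recL_kb G

/-- A cell: if `node s t` is in the list then its cell has the right children. -/
theorem comp_cell {a' : ℕ} {s t : BT} (ht : BT.node s t ∈ TL P0 x u)
    (ha : hadr P0 x u m0 (.node s t) = a') :
    (labl P0 x u m0 n a').bit 0 = true ∧ (labl P0 x u m0 n a').fld 0 = hadr P0 x u m0 s ∧
      (labl P0 x u m0 n a').fld 1 = hadr P0 x u m0 t := by
  subst ha
  exact labl_ha ht

private theorem recL_fld (F : Fact) (i : ℕ) (hi : i < 10) :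
    (recL P0 x u m0 F).fld (i + 2) = hadr P0 x u m0 ((fldT F).getD i .nil) := by
  unfold recL
  dsimp only
  rw [if_pos (by omega), Nat.add_sub_cancel]

private theorem fldT_ev0 (q : Pg) (T : BT) : (fldT (.ev q, T)).getD 0 .nil = T := by
  cases q <;> rfl

private theorem fldT_ev1 (q : Pg) (T : BT) : (fldT (.ev q, T)).getD 1 .nil = q.eval T := by
  cases q <;> rfl

private theorem fldT_rc0 (g f : Pg) (s y : BT) : (fldT (.rc g f, .node s y)).getD 0 .nil = y := by
  cases y <;> rfl

private theorem fldT_rc1 (g f : Pg) (s y : BT) :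
    (fldT (.rc g f, .node s y)).getD 1 .nil = BT.recur g.eval f.eval s y := by
  cases y <;> rfl

private theorem fldT_rc2 (g f : Pg) (s y : BT) : (fldT (.rc g f, .node s y)).getD 2 .nil = s := by
  cases y <;> rfl

/-- a call of a kind `ev` -/
private theorem call_ev (h : Room P0 x u e m0 n) {a a' : ℕ} (hb : base m0 ≤ a) {F : Fact}
    (hF : (FL P0 x u)[a - base m0]? = some F)
    (hfld : ∀ j, 2 ≤ j → (labl P0 x u m0 n a).fld j = (recL P0 x u m0 F).fld j)
    {d : ℕ} {q : Pg} {T : BT} (hG : (deps F)[d]? = some (.ev q, T)) {i o : ℕ}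
    (hi : i < 10) (ho : o < 10) (hi' : (fldT F).getD i .nil = T)
    (ho' : (fldT F).getD o .nil = q.eval T) :
    Cl P0 a (labl P0 x u m0 n a) a' (labl P0 x u m0 n a') (12 + d) (.ev q) (i + 2) (o + 2) := by
  obtain ⟨h1, h2⟩ := comp_call (a' := a') h hb hF hG
  unfold Cl
  rw [hfld _ (by omega), hfld _ (by omega), hfld _ (by omega)]
  refine ⟨h1, fun he => ?_⟩
  obtain ⟨h3, h4⟩ := h2 he
  refine ⟨h3, ?_, ?_⟩
  · rw [h4 _ (le_refl _), recL_fld _ 0 (by norm_num), recL_fld _ i hi, fldT_ev0, hi']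
  · rw [h4 _ (by norm_num), recL_fld _ 1 (by norm_num), recL_fld _ o ho, fldT_ev1, ho']

/-- a call of a kind `rc` -/
private theorem call_rc (h : Room P0 x u e m0 n) {a a' : ℕ} (hb : base m0 ≤ a) {F : Fact}
    (hF : (FL P0 x u)[a - base m0]? = some F)
    (hfld : ∀ j, 2 ≤ j → (labl P0 x u m0 n a).fld j = (recL P0 x u m0 F).fld j)
    {d : ℕ} {g f : Pg} {s y : BT} (hG : (deps F)[d]? = some (.rc g f, .node s y)) {w i o : ℕ}
    (hw : w < 10) (hi : i < 10) (ho : o < 10) (hw' : (fldT F).getD w .nil = s)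
    (hi' : (fldT F).getD i .nil = y)
    (ho' : (fldT F).getD o .nil = BT.recur g.eval f.eval s y) :
    ClR P0 a (labl P0 x u m0 n a) a' (labl P0 x u m0 n a') (12 + d) (.rc g f) (w + 2) (i + 2)
      (o + 2) := by
  obtain ⟨h1, h2⟩ := comp_call (a' := a') h hb hF hG
  unfold ClR
  rw [hfld _ (by omega), hfld _ (by omega), hfld _ (by omega), hfld _ (by omega)]
  refine ⟨h1, fun he => ?_⟩
  obtain ⟨h3, h4⟩ := h2 he
  refine ⟨h3, ?_, ?_, ?_⟩
  · rw [h4 _ (by norm_num), recL_fld _ 2 (by norm_num), recL_fld _ w hw, fldT_rc2, hw']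
  · rw [h4 _ (le_refl _), recL_fld _ 0 (by norm_num), recL_fld _ i hi, fldT_rc0, hi']
  · rw [h4 _ (by norm_num), recL_fld _ 1 (by norm_num), recL_fld _ o ho, fldT_rc1, ho']

/-- a node -/
private theorem cell_R {a a' : ℕ} {F : Fact} (hFm : F ∈ FL P0 x u)
    (hfld : ∀ j, 2 ≤ j → (labl P0 x u m0 n a).fld j = (recL P0 x u m0 F).fld j)
    {z l r : ℕ} {s t : BT} (hz : z < 10) (hl : l < 10) (hr : r < 10)
    (hz' : (fldT F)[z]? = some (.node s t)) (hl' : (fldT F).getD l .nil = s)
    (hr' : (fldT F).getD r .nil = t) :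
    CellR (labl P0 x u m0 n a) a' (labl P0 x u m0 n a') (z + 2) (l + 2) (r + 2) := by
  unfold CellR
  rw [hfld _ (by omega), hfld _ (by omega), hfld _ (by omega), recL_fld _ z hz, recL_fld _ l hl,
    recL_fld _ r hr, hl', hr', List.getD_eq_getElem?_getD, hz']
  intro he
  exact comp_cell (fldT_mem hFm _ (List.mem_of_getElem? hz')) he

/-- The rules for the kinds `ev q`.  Proof: `labl_kind`; cases for `q`; `comp_call`, `labl_ha`,
`comp_cell`, `fldT_mem`. -/
theorem comp_ev (h : Room P0 x u e m0 n) (a a' : ℕ) {q : Pg} (hk : Kd.ev q ∈ kds P0)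
    (hb : (labl P0 x u m0 n a).bit (kb P0 (.ev q)) = true) :
    KRule P0 a (labl P0 x u m0 n a) a' (labl P0 x u m0 n a') (.ev q) := by
  obtain ⟨hba, hne, F, hF, hFk, hfld, hbit⟩ := labl_kind hb hk
  obtain ⟨k, T⟩ := F
  simp only at hFk
  subst hFk
  have hFm : (.ev q, T) ∈ FL P0 x u := List.mem_of_getElem? hF
  have hT : T ∈ TL P0 x u := by
    have h1 : T ∈ fldT (.ev q, T) := by cases q <;> simp [fldT]
    exact fldT_mem hFm T h1
  have h2 : (labl P0 x u m0 n a).fld 2 = hadr P0 x u m0 T := by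
    rw [hfld 2 (le_refl _), recL_fld _ 0 (by norm_num), fldT_ev0]
  have h3 : (labl P0 x u m0 n a).fld 3 = hadr P0 x u m0 (q.eval T) := by
    rw [hfld 3 (by norm_num), recL_fld _ 1 (by norm_num), fldT_ev1]
  cases q with
  | id =>
    simp only [KRule]
    rw [h2, h3]
    rfl
  | nil =>
    simp only [KRule]
    intro he
    rw [h3] at he
    subst he
    exact (labl_ha nil_mem_TL).1
  | left =>
    simp only [KRule]
    intro he
    rw [h2] at he
    subst he
    obtain ⟨l1, l2, l3⟩ := labl_ha (n := n) (m0 := m0) hT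
    rw [l1, l2, h3, h2]
    cases T with
    | nil => exact Or.inr ⟨rfl, rfl⟩
    | node s t => exact Or.inl ⟨rfl, rfl⟩
  | right =>
    simp only [KRule]
    intro he
    rw [h2] at he
    subst he
    obtain ⟨l1, l2, l3⟩ := labl_ha (n := n) (m0 := m0) hT
    rw [l1, l3, h3, h2]
    cases T with
    | nil => exact Or.inr ⟨rfl, rfl⟩
    | node s t => exact Or.inl ⟨rfl, rfl⟩
  | node f g =>
    simp only [KRule]
    refine ⟨?_, ?_, ?_⟩
    · exact cell_R (z := 1) (l := 3) (r := 4) (s := f.eval T) (t := g.eval T) hFm hfld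
        (by norm_num) (by norm_num) (by norm_num) rfl rfl rfl
    · exact call_ev (d := 0) (i := 0) (o := 3) (T := T) h hba hF hfld rfl (by norm_num)
        (by norm_num) rfl rfl
    · exact call_ev (d := 1) (i := 0) (o := 4) (T := T) h hba hF hfld rfl (by norm_num)
        (by norm_num) rfl rfl
  | comp f g =>
    simp only [KRule]
    refine ⟨?_, ?_⟩
    · exact call_ev (d := 0) (i := 0) (o := 3) (T := T) h hba hF hfld rfl (by norm_num)
        (by norm_num) rfl rfl
    · exact call_ev (d := 1) (i := 3) (o := 1) (T := g.eval T) h hba hF hfld rfl (by norm_num)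
        (by norm_num) rfl rfl
  | recur g f =>
    simp only [KRule]
    refine ⟨?_, ?_⟩
    · intro he
      rw [h2] at he
      subst he
      obtain ⟨l1, l2, l3⟩ := labl_ha (n := n) (m0 := m0) hT
      have h5 : (labl P0 x u m0 n a).fld 5 = hadr P0 x u m0 T.left := by
        rw [hfld 5 (by norm_num), recL_fld _ 3 (by norm_num)]
        rfl
      have h6 : (labl P0 x u m0 n a).fld 6 = hadr P0 x u m0 T.right := by
        rw [hfld 6 (by norm_num), recL_fld _ 4 (by norm_num)]
        rfl
      rw [l1, l2, l3, h2, h5, h6]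
      cases T with
      | nil => exact Or.inr ⟨rfl, rfl, rfl⟩
      | node s t => exact Or.inl ⟨rfl, rfl, rfl⟩
    · exact call_rc (d := 0) (w := 3) (i := 4) (o := 1) (s := T.left) (y := T.right) h hba hF hfld
        rfl (by norm_num) (by norm_num) (by norm_num) rfl rfl rfl

/-- The rules for the kinds `rc g f`.  Proof: `labl_kind`; the input of the fact is a node `node s y`
(`kind_fl`); cases for `y`. -/
theorem comp_rc (h : Room P0 x u e m0 n) (a a' : ℕ) {g f : Pg} (hk : Kd.rc g f ∈ kds P0)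
    (hb : (labl P0 x u m0 n a).bit (kb P0 (.rc g f)) = true) :
    KRule P0 a (labl P0 x u m0 n a) a' (labl P0 x u m0 n a') (.rc g f) := by
  obtain ⟨hba, hne, F, hF, hFk, hfld, hbit⟩ := labl_kind hb hk
  obtain ⟨k, T⟩ := F
  simp only at hFk
  subst hFk
  have hFm : (.rc g f, T) ∈ FL P0 x u := List.mem_of_getElem? hF
  obtain ⟨s, y, hsy⟩ := (kind_fl P0 (enc (x, u)) _ hFm).2 g f rfl
  simp only at hsy
  subst hsy
  have hy : y ∈ TL P0 x u := by
    have h1 : y ∈ fldT (.rc g f, .node s y) := by cases y <;> simp [fldT]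
    exact fldT_mem hFm y h1
  have h2 : (labl P0 x u m0 n a).fld 2 = hadr P0 x u m0 y := by
    rw [hfld 2 (le_refl _), recL_fld _ 0 (by norm_num), fldT_rc0]
  have h1 : (labl P0 x u m0 n a).bit 1 = isN y := by
    rw [hbit, recL_bit1]
    rfl
  simp only [KRule]
  cases y with
  | nil =>
    refine ⟨?_, ?_, ?_⟩
    · intro he
      rw [h2] at he
      subst he
      obtain ⟨l1, l2, l3⟩ := labl_ha (n := n) (m0 := m0) hy
      rw [l1, h1]
      refine ⟨rfl, fun hc => ?_⟩
      simp [isN] at hc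
    · intro _
      exact call_ev (d := 0) (i := 2) (o := 1) (T := s) h hba hF hfld rfl (by norm_num)
        (by norm_num) rfl rfl
    · intro hc
      rw [h1] at hc
      simp [isN] at hc
  | node b c =>
    refine ⟨?_, ?_, ?_⟩
    · intro he
      rw [h2] at he
      subst he
      obtain ⟨l1, l2, l3⟩ := labl_ha (n := n) (m0 := m0) hy
      have h5 : (labl P0 x u m0 n a).fld 5 = hadr P0 x u m0 b := by
        rw [hfld 5 (by norm_num), recL_fld _ 3 (by norm_num)]
        rfl
      have h6 : (labl P0 x u m0 n a).fld 6 = hadr P0 x u m0 c := by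
        rw [hfld 6 (by norm_num), recL_fld _ 4 (by norm_num)]
        rfl
      rw [l1, l2, l3, h1, h5, h6]
      exact ⟨rfl, fun _ => ⟨rfl, rfl⟩⟩
    · intro hc
      rw [h1] at hc
      simp [isN] at hc
    · intro _
      refine ⟨?_, ?_, ?_, ?_, ?_, ?_⟩
      · exact call_rc (d := 0) (w := 2) (i := 3) (o := 5) (s := s) (y := b) h hba hF hfld
          rfl (by norm_num) (by norm_num) (by norm_num) rfl rfl rfl
      · exact call_rc (d := 1) (w := 2) (i := 4) (o := 6) (s := s) (y := c) h hba hF hfld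
          rfl (by norm_num) (by norm_num) (by norm_num) rfl rfl rfl
      · exact cell_R (z := 7) (l := 5) (r := 6) (s := BT.recur g.eval f.eval s b)
          (t := BT.recur g.eval f.eval s c) hFm hfld (by norm_num) (by norm_num) (by norm_num)
          rfl rfl rfl
      · exact cell_R (z := 8) (l := 0) (r := 7) (s := .node b c)
          (t := .node (BT.recur g.eval f.eval s b) (BT.recur g.eval f.eval s c)) hFm hfld
          (by norm_num) (by norm_num) (by norm_num) rfl rfl rfl
      · exact cell_R (z := 9) (l := 2) (r := 8) (s := s)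
          (t := .node (.node b c) (.node (BT.recur g.eval f.eval s b)
            (BT.recur g.eval f.eval s c))) hFm hfld
          (by norm_num) (by norm_num) (by norm_num) rfl rfl rfl
      · exact call_ev (d := 2) (i := 9) (o := 1) (T := bigT g f s b c) h hba hF hfld rfl
          (by norm_num) (by norm_num) rfl rfl

end Pool.Agent.Lib.MP_bb9e9d_lc
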