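import Pool.Agent.Lib.MP_bb9e9d_lc.Hard.Prog

/-! # Lists of trees -/

namespace Pool.Agent.Lib.MP_bb9e9d_lc

open MP_634427_lc

theorem TClosed.append {L L' : List BT} (h : TClosed L) (h' : TClosed L') : TClosed (L ++ L') := by
  intro l₁ a b l₂ he
  rcases List.append_eq_append_iff.1 he with ⟨c, ha, hb⟩ | ⟨c, ha, hb⟩
  · rw [ha]
    obtain ⟨h1, h2⟩ := h' c a b l₂ hb
    exact ⟨List.mem_append_right _ h1, List.mem_append_right _ h2⟩
  · cases c with
    | nil =>
      rw [List.nil_append] at hb
      exact absurd (h' [] a b l₂ hb.symm).1 List.not_mem_nil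
    | cons d c =>
      rw [List.cons_append] at hb
      obtain ⟨rfl, hb⟩ := List.cons.inj hb
      exact h l₁ a b c ha

private theorem tclosed_nil : TClosed [] := by
  intro l₁ a b l₂ he
  simp at he

private theorem tclosed_snoc {L : List BT} (h : TClosed L) {T : BT}
    (hT : ∀ a b, T = .node a b → a ∈ L ∧ b ∈ L) : TClosed (L ++ [T]) := by
  intro l₁ a b l₂ he
  rcases List.append_eq_append_iff.1 he with ⟨c, ha, hb⟩ | ⟨c, ha, hb⟩
  · rw [List.singleton_eq_append_iff] at hb
    rcases hb with ⟨rfl, hb⟩ | ⟨rfl, hb⟩
    · obtain ⟨h1, _⟩ := List.cons.inj hb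
      rw [ha, List.append_nil]
      exact hT a b h1.symm
    · simp at hb
  · cases c with
    | nil =>
      rw [List.append_nil] at ha
      rw [List.nil_append] at hb
      obtain ⟨h1, _⟩ := List.cons.inj hb
      rw [← ha]
      exact hT a b h1.symm
    | cons d c =>
      rw [List.cons_append] at hb
      obtain ⟨rfl, hb⟩ := List.cons.inj hb
      exact h l₁ a b c ha

private theorem mem_self (T : BT) : T ∈ subt T := by
  cases T <;> simp [subt]

theorem subt_closed (T : BT) : TClosed (subt T) := by
  induction T with
  | nil =>
    simp only [subt]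
    exact tclosed_snoc tclosed_nil (fun a b h => by simp at h)
  | node x y ihx ihy =>
    simp only [subt]
    refine tclosed_snoc (ihx.append ihy) ?_
    intro a b h
    obtain ⟨rfl, rfl⟩ := BT.node.inj h
    exact ⟨List.mem_append_left _ (mem_self _), List.mem_append_right _ (mem_self _)⟩

theorem mem_subt_self (T : BT) : T ∈ subt T :=
  mem_self T

/-- subtrees are transitive -/
theorem subt_trans {T U : BT} (h : U ∈ subt T) : ∀ W ∈ subt U, W ∈ subt T := by
  induction T with
  | nil =>
    simp only [subt, List.mem_singleton] at h
    subst h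
    exact fun W hW => hW
  | node x y ihx ihy =>
    intro W hW
    simp only [subt, List.mem_append, List.mem_singleton] at h
    rcases h with (h | h) | rfl
    · simp only [subt, List.mem_append]
      exact Or.inl (Or.inl (ihx h W hW))
    · simp only [subt, List.mem_append]
      exact Or.inl (Or.inr (ihy h W hW))
    · exact hW

theorem length_subt (T : BT) : (subt T).length = 2 * T.size + 1 := by
  induction T with
  | nil => simp [subt, BT.size]
  | node x y ihx ihy =>
    simp only [subt, List.length_append, ihx, ihy, BT.size, List.length_singleton]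
    ring

theorem trees_closed (L : List Fact) : TClosed (trees L) := by
  induction L with
  | nil => exact tclosed_nil
  | cons F L ih =>
    unfold trees
    rw [List.flatMap_cons]
    exact ((subt_closed _).append (subt_closed _)).append ih

/-- Proof: the first occurrence of the node. -/
theorem TClosed.idx_lt {L : List BT} (h : TClosed L) {a b : BT} {k : ℕ}
    (hk : L[k]? = some (BT.node a b)) : L.idxOf a < k ∧ L.idxOf b < k := by
  obtain ⟨hk', hk2⟩ := List.getElem?_eq_some_iff.1 hk
  have he : L = L.take k ++ BT.node a b :: L.drop (k + 1) := by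
    rw [← hk2, List.cons_getElem_drop_succ, List.take_append_drop]
  have key : ∀ G, G ∈ L.take k → L.idxOf G < k := by
    intro G hm
    have h1 : (L.take k).idxOf G < (L.take k).length := List.idxOf_lt_length_of_mem hm
    have h2 : L.idxOf G = (L.take k).idxOf G := by
      conv_lhs => rw [he]
      exact List.idxOf_append_of_mem hm
    rw [h2]
    refine h1.trans_le ?_
    rw [List.length_take]
    exact min_le_left _ _
  obtain ⟨h1, h2⟩ := h _ _ _ _ he
  exact ⟨key _ h1, key _ h2⟩

end Pool.Agent.Lib.MP_bb9e9d_lc
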