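import Pool.Agent.Lib.MP_bb9e9d_lc.Hard.ProgA
import Pool.Agent.Lib.MP_bb9e9d_lc.Hard.ProgB

/-! # The number of facts and trees is polynomial -/

namespace Pool.Agent.Lib.MP_bb9e9d_lc

open MP_634427_lc

/-- all facts of a list have small inputs and values -/
private def Sm (K : ℕ) (L : List Fact) : Prop := ∀ F ∈ L, F.2.size ≤ K ∧ F.val.size ≤ K

private lemma Sm.mono {K K' : ℕ} {L : List Fact} (h : Sm K L) (hK : K ≤ K') : Sm K' L :=
  fun F hF => ⟨(h F hF).1.trans hK, (h F hF).2.trans hK⟩

private lemma Sm.append {K : ℕ} {L L' : List Fact} (h : Sm K L) (h' : Sm K L') :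
    Sm K (L ++ L') := by
  intro F hF
  rcases List.mem_append.1 hF with h1 | h1
  · exact h F h1
  · exact h' F h1

private lemma Sm.single {K : ℕ} {F : Fact} (h1 : F.2.size ≤ K) (h2 : F.val.size ≤ K) :
    Sm K [F] := by
  intro G hG
  rw [List.mem_singleton] at hG
  subst hG
  exact ⟨h1, h2⟩

private lemma pow_mono' {a b c : ℕ} (h : a ≤ b) : (a + 2) ^ c ≤ (b + 2) ^ c :=
  Nat.pow_le_pow_left (by omega) c

private lemma pbp (c : ℕ) : PB fun n => (n + 2) ^ c := ⟨c, fun _ => le_rfl⟩

/-- from polynomial bounds for length and sizes to a common exponent -/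
private lemma wrap {f : BT → List Fact} {A B : ℕ → ℕ} (hA : PB A) (hB : PB B)
    (h1 : ∀ T, (f T).length ≤ A T.size) (h2 : ∀ T, Sm (B T.size) (f T)) :
    ∃ c, ∀ T, (f T).length ≤ (T.size + 2) ^ c ∧
      ∀ F ∈ f T, F.2.size ≤ (T.size + 2) ^ c ∧ F.val.size ≤ (T.size + 2) ^ c := by
  obtain ⟨c, hc⟩ := hA.add hB
  refine ⟨c, fun T => ?_⟩
  have h := hc T.size
  simp only at h
  exact ⟨(h1 T).trans (by omega), (h2 T).mono (by omega)⟩

private lemma flr_bound (g h : Pg) (cg ch e N : ℕ)
    (hg : ∀ T, (fl g T).length ≤ (T.size + 2) ^ cg ∧ Sm ((T.size + 2) ^ cg) (fl g T))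
    (hh : ∀ T, (fl h T).length ≤ (T.size + 2) ^ ch ∧ Sm ((T.size + 2) ^ ch) (fl h T))
    (he : ∀ x y, (BT.recur g.eval h.eval x y).size ≤ (x.size + y.size + 2) ^ e) (x : BT) :
    ∀ y : BT, x.size + y.size ≤ N →
      (flr g h (fl g) (fl h) x y).length ≤ (2 * y.size + 1) *
        ((N + 2) ^ cg + (N + 2 * (N + 2) ^ e + 3 + 2) ^ ch + 1) ∧
      Sm ((N + 2) ^ cg + (N + 2 * (N + 2) ^ e + 3 + 2) ^ ch + (N + 1) + (N + 2) ^ e)
        (flr g h (fl g) (fl h) x y) := by
  intro y
  induction y with
  | nil =>
    intro hN
    have hx : x.size ≤ N := by omega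
    have h1 : (x.size + 2) ^ cg ≤ (N + 2) ^ cg := pow_mono' hx
    constructor
    · simp only [flr, List.length_append, List.length_singleton, BT.size_nil]
      have := (hg x).1
      have h2 : 1 ≤ (N + 2 * (N + 2) ^ e + 3 + 2) ^ ch := Nat.one_le_pow _ _ (by omega)
      omega
    · refine Sm.append ((hg x).2.mono (by omega)) (Sm.single ?_ ?_)
      · simp only [BT.size_node, BT.size_nil]
        omega
      · have h3 := he x .nil
        have h4 : (x.size + BT.nil.size + 2) ^ e ≤ (N + 2) ^ e :=
          Nat.pow_le_pow_left (by simp only [BT.size_nil]; omega) e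
        have h5 : Fact.val (Kd.rc g h, BT.node x BT.nil) = BT.recur g.eval h.eval x .nil := rfl
        rw [h5]
        omega
  | node a b iha ihb =>
    intro hN
    simp only [BT.size_node] at hN
    obtain ⟨la, sa⟩ := iha (by omega)
    obtain ⟨lb, sb⟩ := ihb (by omega)
    have hra : (BT.recur g.eval h.eval x a).size ≤ (N + 2) ^ e :=
      (he x a).trans (Nat.pow_le_pow_left (by omega) e)
    have hrb : (BT.recur g.eval h.eval x b).size ≤ (N + 2) ^ e :=
      (he x b).trans (Nat.pow_le_pow_left (by omega) e)
    have hbig : (bigT g h x a b).size ≤ N + 2 * (N + 2) ^ e + 3 := by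
      simp only [bigT, BT.size_node]
      omega
    have hH : ((bigT g h x a b).size + 2) ^ ch ≤ (N + 2 * (N + 2) ^ e + 3 + 2) ^ ch :=
      pow_mono' hbig
    obtain ⟨lh, sh⟩ := hh (bigT g h x a b)
    constructor
    · simp only [flr, List.length_append, List.length_singleton, BT.size_node]
      set B := (N + 2) ^ cg + (N + 2 * (N + 2) ^ e + 3 + 2) ^ ch + 1 with hB
      have hB' : (fl h (bigT g h x a b)).length + 1 ≤ B := by omega
      calc (flr g h (fl g) (fl h) x a).length + (flr g h (fl g) (fl h) x b).length +
            (fl h (bigT g h x a b)).length + 1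
          ≤ (2 * a.size + 1) * B + (2 * b.size + 1) * B + B := by omega
        _ = (2 * (a.size + b.size + 1) + 1) * B := by ring
    · refine Sm.append (Sm.append (Sm.append sa sb) (sh.mono (by omega))) (Sm.single ?_ ?_)
      · simp only [BT.size_node]
        omega
      · have h5 : Fact.val (Kd.rc g h, BT.node x (BT.node a b)) =
          BT.recur g.eval h.eval x (.node a b) := rfl
        rw [h5]
        have h3 := he x (.node a b)
        have h4 : (x.size + (BT.node a b).size + 2) ^ e ≤ (N + 2) ^ e :=
          Nat.pow_le_pow_left (by simp only [BT.size_node]; omega) e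
        omega

/-- The number of facts, and the sizes of their inputs and values.
Proof: induction on `p`.  For `recur g h`: an inner induction on `y` shows that `flr .. x y` has at
most `(2 * y.size + 1) * B` members, where `B` bounds the number of the facts of `g` at `x` plus one
and of `h` at all arguments of size at most `M`, where `M` bounds the size of `bigT`
(`Pg.Bdd`: the values are at most `(x.size + y.size + 2) ^ c`); all subtrees of `y` have size at
most `y.size`.  Use the closure properties of `PB`. -/
theorem fl_bound {p : Pg} (h : p.Bdd) : ∃ c, ∀ T, (fl p T).length ≤ (T.size + 2) ^ c ∧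
    ∀ F ∈ fl p T, F.2.size ≤ (T.size + 2) ^ c ∧ F.val.size ≤ (T.size + 2) ^ c := by
  have key : ∀ q : Pg, q.Bdd → ∃ c, ∀ T, (fl q T).length ≤ (T.size + 2) ^ c ∧
      Sm ((T.size + 2) ^ c) (fl q T) := by
    intro q
    induction q with
    | id =>
      intro _
      refine wrap (A := fun _ => 1) (B := fun n => n) (PB.const 1) PB.id (fun T => le_rfl)
        (fun T => Sm.single le_rfl le_rfl)
    | nil =>
      intro _
      refine wrap (A := fun _ => 1) (B := fun n => n) (PB.const 1) PB.id (fun T => le_rfl)
        (fun T => Sm.single le_rfl (Nat.zero_le _))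
    | left =>
      intro _
      refine wrap (A := fun _ => 1) (B := fun n => n) (PB.const 1) PB.id (fun T => le_rfl)
        (fun T => Sm.single le_rfl T.size_left_le)
    | right =>
      intro _
      refine wrap (A := fun _ => 1) (B := fun n => n) (PB.const 1) PB.id (fun T => le_rfl)
        (fun T => Sm.single le_rfl T.size_right_le)
    | node f g ihf ihg =>
      intro hb
      obtain ⟨a, ha⟩ := ihf hb.1
      obtain ⟨b, hb'⟩ := ihg hb.2
      obtain ⟨e, he⟩ := Pg.size_le (p := .node f g) hb
      refine wrap (A := fun n => (n + 2) ^ a + (n + 2) ^ b + 1)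
        (B := fun n => (n + 2) ^ a + (n + 2) ^ b + n + (n + 2) ^ e)
        ((PB.add (pbp a) (pbp b)).add (PB.const 1))
        ((((pbp a).add (pbp b)).add PB.id).add (pbp e)) (fun T => ?_) (fun T => ?_)
      · simp only [fl, List.length_append, List.length_singleton]
        have h1 := (ha T).1
        have h2 := (hb' T).1
        omega
      · refine Sm.append (Sm.append ((ha T).2.mono ?_) ((hb' T).2.mono ?_)) (Sm.single ?_ ?_)
        · omega
        · omega
        · show T.size ≤ _
          omega
        · have h5 : Fact.val (Kd.ev (.node f g), T) = (Pg.node f g).eval T := rfl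
          rw [h5]
          have := he T
          omega
    | comp f g ihf ihg =>
      intro hb
      obtain ⟨a, ha⟩ := ihf hb.1
      obtain ⟨b, hb'⟩ := ihg hb.2
      obtain ⟨e, he⟩ := Pg.size_le (p := .comp f g) hb
      obtain ⟨d, hd⟩ := Pg.size_le (p := g) hb.2
      have hPa : PB fun n => ((n + 2) ^ d + 2) ^ a :=
        ((pbp d).add (PB.const 2)).pow a
      refine wrap (A := fun n => (n + 2) ^ b + ((n + 2) ^ d + 2) ^ a + 1)
        (B := fun n => (n + 2) ^ b + ((n + 2) ^ d + 2) ^ a + n + (n + 2) ^ e)
        (((pbp b).add hPa).add (PB.const 1))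
        ((((pbp b).add hPa).add PB.id).add (pbp e)) (fun T => ?_) (fun T => ?_)
      · simp only [fl, List.length_append, List.length_singleton]
        have h1 := (ha (g.eval T)).1
        have h2 := (hb' T).1
        have h3 : ((g.eval T).size + 2) ^ a ≤ ((T.size + 2) ^ d + 2) ^ a := pow_mono' (hd T)
        omega
      · have h3 : ((g.eval T).size + 2) ^ a ≤ ((T.size + 2) ^ d + 2) ^ a := pow_mono' (hd T)
        refine Sm.append (Sm.append ((hb' T).2.mono ?_) ((ha (g.eval T)).2.mono ?_))
          (Sm.single ?_ ?_)
        · omega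
        · omega
        · show T.size ≤ _
          omega
        · have h5 : Fact.val (Kd.ev (.comp f g), T) = (Pg.comp f g).eval T := rfl
          rw [h5]
          have := he T
          omega
    | recur g h ihg ihh =>
      intro hb
      obtain ⟨a, ha⟩ := ihg hb.1
      obtain ⟨b, hb'⟩ := ihh hb.2.1
      obtain ⟨e, he⟩ := hb.2.2
      have hPe : PB fun n => (n + 2) ^ e := pbp e
      have hPb : PB fun n => (n + 2 * (n + 2) ^ e + 3 + 2) ^ b :=
        (((PB.id.add ((PB.const 2).mul hPe)).add (PB.const 3)).add (PB.const 2)).pow b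
      have hPa : PB fun n => (n + 2) ^ a := pbp a
      refine wrap (A := fun n => (2 * n + 1) * ((n + 2) ^ a +
          (n + 2 * (n + 2) ^ e + 3 + 2) ^ b + 1) + 1)
        (B := fun n => (n + 2) ^ a + (n + 2 * (n + 2) ^ e + 3 + 2) ^ b + (n + 1) + (n + 2) ^ e)
        (((((PB.const 2).mul PB.id).add (PB.const 1)).mul ((hPa.add hPb).add (PB.const 1))).add
          (PB.const 1))
        (((hPa.add hPb).add (PB.id.add (PB.const 1))).add hPe) (fun T => ?_) (fun T => ?_)
      · have hT := T.size_left_add_right_le
        have h1 := (flr_bound g h a b e T.size ha hb' he T.left T.right hT).1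
        simp only [fl, List.length_append, List.length_singleton]
        refine Nat.add_le_add_right (h1.trans (Nat.mul_le_mul_right _ ?_)) 1
        omega
      · have hT := T.size_left_add_right_le
        have h1 := (flr_bound g h a b e T.size ha hb' he T.left T.right hT).2
        refine Sm.append h1 (Sm.single ?_ ?_)
        · show T.size ≤ _
          omega
        · have h5 : Fact.val (Kd.ev (.recur g h), T) = BT.recur g.eval h.eval T.left T.right := rfl
          rw [h5]
          have h3 := he T.left T.right
          have h4 : (T.left.size + T.right.size + 2) ^ e ≤ (T.size + 2) ^ e := pow_mono' hT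
          omega
  exact key p h

/-- Proof: `fl_bound`, `length_subt`. -/
theorem trees_bound {p : Pg} (h : p.Bdd) : ∃ c, ∀ T, (fl p T).length ≤ (T.size + 2) ^ c ∧
    (trees (fl p T)).length ≤ (T.size + 2) ^ c := by
  obtain ⟨c, hc⟩ := fl_bound h
  have hPc : PB fun n => (n + 2) ^ c := pbp c
  obtain ⟨d, hd⟩ := hPc.add (hPc.mul (((PB.const 4).mul hPc).add (PB.const 2)))
  have hd' : ∀ n, (n + 2) ^ c + (n + 2) ^ c * (4 * (n + 2) ^ c + 2) ≤ (n + 2) ^ d := hd
  have htr : ∀ (K : ℕ) (L : List Fact), (∀ F ∈ L, F.2.size ≤ K ∧ F.val.size ≤ K) →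
      (trees L).length ≤ L.length * (4 * K + 2) := by
    intro K L
    induction L with
    | nil => intro _; simp [trees]
    | cons F L ih =>
      intro hL
      have h1 := ih fun G hG => hL G (List.mem_cons_of_mem _ hG)
      have h2 := hL F List.mem_cons_self
      have h3 : (trees (F :: L)).length = (subt F.2).length + (subt F.val).length +
          (trees L).length := by
        simp [trees, Nat.add_assoc]
      rw [h3, length_subt, length_subt, List.length_cons]
      calc 2 * F.2.size + 1 + (2 * F.val.size + 1) + (trees L).length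
          ≤ (4 * K + 2) + L.length * (4 * K + 2) := by omega
        _ = (L.length + 1) * (4 * K + 2) := by ring
  refine ⟨d, fun T => ?_⟩
  obtain ⟨h1, h2⟩ := hc T
  have h3 := hd' T.size
  have h4 := htr _ _ h2
  have h5 : (fl p T).length * (4 * (T.size + 2) ^ c + 2) ≤
      (T.size + 2) ^ c * (4 * (T.size + 2) ^ c + 2) := Nat.mul_le_mul_right _ h1
  constructor
  · omega
  · omega

end Pool.Agent.Lib.MP_bb9e9d_lc
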