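import Pool.Agent.Lib.MP_bb9e9d_lc.Hard.CompC
import Pool.Agent.Lib.MP_bb9e9d_lc.Hard.CompD
import Pool.Agent.Lib.MP_bb9e9d_lc.Hard.ProgC

/-! # Completeness of the rules -/

namespace Pool.Agent.Lib.MP_bb9e9d_lc

open MP_634427_lc

variable {P0 : Pg} {x u : Word} {e m0 n : ℕ}

/-- Proof: `comp_in`, `comp_heap`, `comp_cp`, `comp_fin`, `comp_ev`, `comp_rc`, `labl_lt`. -/
theorem complete (h : Room P0 x u e m0 n) (hv : P0.eval (enc (x, u)) ≠ .nil) :
    LabOk P0 x e m0 n (labl P0 x u m0 n) := by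
  refine ⟨fun a ha j _ => labl_lt h ha j, fun a _ a' _ => ?_⟩
  refine ⟨comp_in h a, comp_heap h a, comp_cp h a a', comp_fin h hv a a', ?_⟩
  intro k hk hb
  cases k with
  | ev q => exact comp_ev h a a' hk hb
  | rc g f => exact comp_rc h a a' hk hb

/-- The number of address bits.  Proof: `trees_bound`, `length_subt`, `sz_word_le`: the size of
`enc (x, u)` is at most `2 |x| + 2 * 2 ^ e + 1 ≤ 2 ^ (m0 + 3)`. -/
theorem exists_room {P0 : Pg} (h : P0.Bdd) : ∃ c, ∀ (x u : Word) (e m0 : ℕ), x.length < m0 →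
    e ≤ m0 → u.length ≤ 2 ^ e → Room P0 x u e m0 (c * (m0 + 3) + m0 + 10) := by
  obtain ⟨c, hc⟩ := trees_bound h
  refine ⟨c, fun x u e m0 hx he hu => ⟨hx, he, hu, ?_⟩⟩
  obtain ⟨h1, h2⟩ := hc (enc (x, u))
  have hsz : (enc (x, u)).size = sz x + sz u + 1 := rfl
  have hx2 := sz_word_le x
  have hu2 := sz_word_le u
  have hee : 2 ^ e ≤ 2 ^ m0 := Nat.pow_le_pow_right (by norm_num) he
  have hm : m0 < 2 ^ m0 := Nat.lt_two_pow_self
  have h3 : 2 ^ (m0 + 3) = 8 * 2 ^ m0 := by rw [pow_add]; ring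
  have hS : (enc (x, u)).size + 2 ≤ 2 ^ (m0 + 3) := by
    rw [h3, hsz]
    omega
  have hpow : ((enc (x, u)).size + 2) ^ c ≤ 2 ^ (c * (m0 + 3)) := by
    calc ((enc (x, u)).size + 2) ^ c ≤ (2 ^ (m0 + 3)) ^ c := Nat.pow_le_pow_left hS c
      _ = 2 ^ (c * (m0 + 3)) := by rw [← pow_mul, mul_comm]
  have hTL : (TL P0 x u).length = 3 + (2 * (enc (x, u)).size + 1) +
      (trees (fl P0 (enc (x, u)))).length := by
    unfold TL FL
    rw [List.length_append, List.length_append, length_subt, length_subt]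
    rfl
  have hFL : (FL P0 x u).length = (fl P0 (enc (x, u))).length := rfl
  have hb : base m0 = 2 * 2 ^ m0 + 1 := by
    unfold base
    rw [pow_succ]
    ring
  have hn : 2 ^ (c * (m0 + 3) + m0 + 10) = 2 ^ (c * (m0 + 3)) * 2 ^ m0 * 1024 := by
    rw [pow_add, pow_add]
    norm_num
  rw [hTL, hFL, hb, hn]
  have hA : 1 ≤ 2 ^ (c * (m0 + 3)) := Nat.one_le_two_pow
  have hB : 1 ≤ 2 ^ m0 := Nat.one_le_two_pow
  generalize 2 ^ (c * (m0 + 3)) = A at *
  generalize 2 ^ m0 = B at *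
  have hAB1 : A ≤ A * B := Nat.le_mul_of_pos_right A hB
  have hAB2 : B ≤ A * B := Nat.le_mul_of_pos_left B hA
  omega

end Pool.Agent.Lib.MP_bb9e9d_lc
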