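import Pool.Agent.Lib.MP_bb9e9d_lc.Hard.CompDefs

/-! # Completeness: the input cells -/

namespace Pool.Agent.Lib.MP_bb9e9d_lc

open MP_634427_lc

variable {P0 : Pg} {x u : Word} {e m0 n : ℕ}

private theorem two_le (hx : x.length < m0) : 2 ≤ 2 ^ m0 := by
  have : 1 ≤ m0 := by omega
  calc 2 = 2 ^ 1 := rfl
    _ ≤ 2 ^ m0 := Nat.pow_le_pow_right (by norm_num) this

private theorem lg_lt {a : ℕ} (hx : x.length < m0)
    (h : a = 2 ^ Nat.log2 a ∧ 1 ≤ Nat.log2 a ∧ Nat.log2 a ≤ x.length) : 2 ≤ a ∧ a < 2 ^ m0 := by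
  obtain ⟨h1, h2, h3⟩ := h
  constructor
  · calc 2 = 2 ^ 1 := rfl
      _ ≤ 2 ^ Nat.log2 a := Nat.pow_le_pow_right (by norm_num) h2
      _ = a := h1.symm
  · calc a = 2 ^ Nat.log2 a := h1
      _ < 2 ^ m0 := Nat.pow_lt_pow_right (by norm_num) (by omega)

/-- the five kinds of addresses -/
private theorem input_cases (x u : Word) (m0 a : ℕ) (hx : x.length < m0) :
    (a = 1 ∧ inT x u m0 a = enc true ∧ inL x u m0 a = 0 ∧ inR x u m0 a = 0) ∨
    (a = 2 ^ (m0 + 1) ∧ inT x u m0 a = enc (x, u) ∧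
      inL x u m0 a = (if x.length = 0 then 0 else 2 ^ x.length) ∧
      inR x u m0 a = (if u.length = 0 then 0 else 2 ^ m0 + u.length - 1)) ∨
    (∃ k, k < u.length ∧ a = 2 ^ m0 + k ∧ (a ≠ 2 ^ (m0 + 1)) ∧
      inT x u m0 a = enc (u.drop (u.length - (k + 1))) ∧
      inL x u m0 a = (if u.reverse.getD k false then 1 else 0) ∧
      inR x u m0 a = (if k = 0 then 0 else a - 1)) ∨
    (∃ j, j < x.length ∧ a = 2 ^ (j + 1) ∧ a < 2 ^ m0 ∧ 2 ≤ a ∧
      inT x u m0 a = enc (x.drop (x.length - (j + 1))) ∧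
      inL x u m0 a = (if x.reverse.getD j false then 1 else 0) ∧
      inR x u m0 a = (if j = 0 then 0 else 2 ^ j)) ∨
    (a ≠ 1 ∧ a ≠ 2 ^ (m0 + 1) ∧ ¬ (2 ^ m0 ≤ a ∧ a < 2 ^ m0 + u.length) ∧
      (∀ j < x.length, a ≠ 2 ^ (j + 1)) ∧
      inT x u m0 a = .nil ∧ inL x u m0 a = 0 ∧ inR x u m0 a = 0) := by
  have h2 := two_le hx
  by_cases c1 : a = 1
  · left
    simp [c1, inT, inL, inR]
  right
  by_cases c2 : a = 2 ^ (m0 + 1)
  · left
    refine ⟨c2, ?_, ?_, ?_⟩
    · simp only [inT, if_neg c1, if_pos c2]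
    · simp only [inL, if_neg c1, if_pos c2]
    · simp only [inR, if_neg c1, if_pos c2]
  right
  by_cases c3 : 2 ^ m0 ≤ a ∧ a < 2 ^ m0 + u.length
  · left
    refine ⟨a - 2 ^ m0, by omega, by omega, c2, ?_, ?_, ?_⟩
    · simp only [inT, if_neg c1, if_neg c2, if_pos c3]
    · simp only [inL, if_neg c1, if_neg c2, if_pos c3]
    · simp only [inR, if_neg c1, if_neg c2, if_pos c3]
      have : (a = 2 ^ m0) ↔ (a - 2 ^ m0 = 0) := by omega
      simp only [this]
  right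
  by_cases c4 : a = 2 ^ Nat.log2 a ∧ 1 ≤ Nat.log2 a ∧ Nat.log2 a ≤ x.length
  · left
    have h3 := lg_lt hx c4
    obtain ⟨j, hj⟩ : ∃ j, Nat.log2 a = j + 1 := ⟨Nat.log2 a - 1, by omega⟩
    rw [hj] at c4
    refine ⟨j, by omega, c4.1, h3.2, h3.1, ?_, ?_, ?_⟩
    · simp only [inT, if_neg c1, if_neg c2, if_neg c3, hj, if_pos c4]
    · simp only [inL, if_neg c1, if_neg c2, if_neg c3, hj, if_pos c4, Nat.add_sub_cancel]
    · simp only [inR, if_neg c1, if_neg c2, if_neg c3, hj, if_pos c4, Nat.add_sub_cancel]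
      have : (j + 1 = 1) ↔ (j = 0) := by omega
      simp only [this]
  right
  refine ⟨c1, c2, c3, ?_, ?_, ?_, ?_⟩
  · intro j hj hja
    apply c4
    have : Nat.log2 a = j + 1 := by rw [hja, Nat.log2_two_pow]
    rw [this]
    exact ⟨hja, by omega, by omega⟩
  · simp only [inT, if_neg c1, if_neg c2, if_neg c3, if_neg c4]
  · simp only [inL, if_neg c1, if_neg c2, if_neg c3, if_neg c4]
  · simp only [inR, if_neg c1, if_neg c2, if_neg c3, if_neg c4]

theorem inL_lt (hx : x.length < m0) {a : ℕ} (ha : isN (inT x u m0 a) = true) :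
    inL x u m0 a < a := by
  have h2 := two_le hx
  rcases input_cases x u m0 a hx with ⟨h1, h3, h4, h5⟩ | ⟨h1, h3, h4, h5⟩ |
    ⟨k, hk, h1, h6, h3, h4, h5⟩ | ⟨j, hj, h1, h7, h8, h3, h4, h5⟩ | ⟨h1, h6, h7, h8, h3, h4, h5⟩
  · rw [h4, h1]; norm_num
  · rw [h4, h1]
    split_ifs
    · positivity
    · exact Nat.pow_lt_pow_right (by norm_num) (by omega)
  · rw [h4]
    split_ifs <;> omega
  · rw [h4]
    split_ifs <;> omega
  · rw [h3] at ha
    simp [isN] at ha

theorem inR_lt (hx : x.length < m0) (hu : u.length ≤ 2 ^ m0) {a : ℕ}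
    (ha : isN (inT x u m0 a) = true) : inR x u m0 a < a := by
  have h2 := two_le hx
  rcases input_cases x u m0 a hx with ⟨h1, h3, h4, h5⟩ | ⟨h1, h3, h4, h5⟩ |
    ⟨k, hk, h1, h6, h3, h4, h5⟩ | ⟨j, hj, h1, h7, h8, h3, h4, h5⟩ | ⟨h1, h6, h7, h8, h3, h4, h5⟩
  · rw [h5, h1]; norm_num
  · rw [h5, h1, pow_succ]
    split_ifs <;> omega
  · rw [h5]
    split_ifs <;> omega
  · rw [h5]
    split_ifs
    · omega
    · rw [h1]
      exact Nat.pow_lt_pow_right (by norm_num) (by omega)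
  · rw [h3] at ha
    simp [isN] at ha

private theorem inT_zero : inT x u m0 0 = .nil := by
  have h1 : ¬ ((0 : ℕ) = 2 ^ (m0 + 1)) := (by positivity : (0 : ℕ) < 2 ^ (m0 + 1)).ne
  have h2 : ¬ (2 ^ m0 ≤ 0 ∧ 0 < 2 ^ m0 + u.length) := by
    have : (0 : ℕ) < 2 ^ m0 := by positivity
    omega
  have h3 : ¬ ((0 : ℕ) = 2 ^ Nat.log2 0 ∧ 1 ≤ Nat.log2 0 ∧ Nat.log2 0 ≤ x.length) := by
    intro h
    have : (0 : ℕ) < 2 ^ Nat.log2 0 := by positivity
    omega
  simp only [inT, if_neg h1, if_neg h2, if_neg h3, if_neg (show ¬ ((0 : ℕ) = 1) by norm_num)]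

private theorem inT_one : inT x u m0 1 = enc true := by
  simp [inT]

private theorem inT_bool (b : Bool) : inT x u m0 (if b then 1 else 0) = enc b := by
  cases b
  · simp [inT_zero]
  · simp [inT_one]

private theorem inT_reg (hx : x.length < m0) (hu : u.length ≤ 2 ^ m0) {k : ℕ} (hk : k < u.length) :
    inT x u m0 (2 ^ m0 + k) = enc (u.drop (u.length - (k + 1))) := by
  have h2 := two_le hx
  rcases input_cases x u m0 (2 ^ m0 + k) hx with ⟨h1, h3, h4, h5⟩ | ⟨h1, h3, h4, h5⟩ |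
    ⟨k', hk', h1, h6, h3, h4, h5⟩ | ⟨j, hj, h1, h7, h8, h3, h4, h5⟩ | ⟨h1, h6, h7, h8, h3, h4, h5⟩
  · omega
  · rw [pow_succ] at h1; omega
  · rw [h3]
    have : k' = k := by omega
    rw [this]
  · omega
  · omega

private theorem inT_xs (hx : x.length < m0) {j : ℕ} (hj : j < x.length) :
    inT x u m0 (2 ^ (j + 1)) = enc (x.drop (x.length - (j + 1))) := by
  have h2 := two_le hx
  have hlt : 2 ^ (j + 1) < 2 ^ m0 := Nat.pow_lt_pow_right (by norm_num) (by omega)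
  rcases input_cases x u m0 (2 ^ (j + 1)) hx with ⟨h1, h3, h4, h5⟩ | ⟨h1, h3, h4, h5⟩ |
    ⟨k', hk', h1, h6, h3, h4, h5⟩ | ⟨j', hj', h1, h7, h8, h3, h4, h5⟩ |
    ⟨h1, h6, h7, h8, h3, h4, h5⟩
  · have : (1 : ℕ) < 2 ^ (j + 1) := Nat.one_lt_two_pow (by omega)
    omega
  · have := Nat.pow_right_injective (le_refl 2) h1
    omega
  · omega
  · have := Nat.pow_right_injective (le_refl 2) h1
    have h9 : j' = j := by omega
    rw [h3, h9]
  · exact absurd rfl (h8 j hj)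

private theorem drop_eq (l : Word) {k : ℕ} (hk : k < l.length) :
    l.drop (l.length - (k + 1)) = l.reverse.getD k false :: l.drop (l.length - k) := by
  have h1 : l.length - (k + 1) < l.length := by omega
  rw [List.drop_eq_getElem_cons h1]
  congr 1
  · rw [List.getD_eq_getElem?_getD, List.getElem?_eq_getElem (by simpa using hk),
      Option.getD_some, List.getElem_reverse]
    congr 1
    omega
  · congr 1
    omega

/-- Proof: cases; `u.drop (|u| - (k + 1)) = u.reverse[k] :: u.drop (|u| - k)`. -/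
theorem inT_left (hx : x.length < m0) (hu : u.length ≤ 2 ^ m0) (a : ℕ) :
    inT x u m0 (inL x u m0 a) = (inT x u m0 a).left := by
  have h2 := two_le hx
  rcases input_cases x u m0 a hx with ⟨h1, h3, h4, h5⟩ | ⟨h1, h3, h4, h5⟩ |
    ⟨k, hk, h1, h6, h3, h4, h5⟩ | ⟨j, hj, h1, h7, h8, h3, h4, h5⟩ | ⟨h1, h6, h7, h8, h3, h4, h5⟩
  · rw [h4, h3, inT_zero]; rfl
  · rw [h4, h3]
    split_ifs with h
    · rw [inT_zero, List.length_eq_zero_iff.1 h]; rfl
    · obtain ⟨j, hj⟩ : ∃ j, x.length = j + 1 := ⟨x.length - 1, by omega⟩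
      have := inT_xs (u := u) hx (j := j) (by omega)
      rw [hj]
      rw [this, hj, Nat.sub_self, List.drop_zero]
      rfl
  · rw [h4, h3, drop_eq u hk, inT_bool]
    rfl
  · rw [h4, h3, drop_eq x hj, inT_bool]
    rfl
  · rw [h4, h3, inT_zero]; rfl

theorem inT_right (hx : x.length < m0) (hu : u.length ≤ 2 ^ m0) (a : ℕ) :
    inT x u m0 (inR x u m0 a) = (inT x u m0 a).right := by
  have h2 := two_le hx
  rcases input_cases x u m0 a hx with ⟨h1, h3, h4, h5⟩ | ⟨h1, h3, h4, h5⟩ |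
    ⟨k, hk, h1, h6, h3, h4, h5⟩ | ⟨j, hj, h1, h7, h8, h3, h4, h5⟩ | ⟨h1, h6, h7, h8, h3, h4, h5⟩
  · rw [h5, h3, inT_zero]; rfl
  · rw [h5, h3]
    split_ifs with h
    · rw [inT_zero, List.length_eq_zero_iff.1 h]; rfl
    · obtain ⟨k, hk⟩ : ∃ k, u.length = k + 1 := ⟨u.length - 1, by omega⟩
      have := inT_reg (x := x) hx hu (k := k) (by omega)
      rw [show 2 ^ m0 + u.length - 1 = 2 ^ m0 + k by omega, this, hk, Nat.sub_self, List.drop_zero]
      rfl
  · rw [h5, h3, drop_eq u hk]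
    split_ifs with h
    · subst h
      rw [inT_zero, Nat.sub_zero, List.drop_length]
      rfl
    · obtain ⟨i, hi⟩ : ∃ i, k = i + 1 := ⟨k - 1, by omega⟩
      have := inT_reg (x := x) hx hu (k := i) (by omega)
      rw [show a - 1 = 2 ^ m0 + i by omega, this, hi]
      rfl
  · rw [h5, h3, drop_eq x hj]
    split_ifs with h
    · subst h
      rw [inT_zero, Nat.sub_zero, List.drop_length]
      rfl
    · obtain ⟨i, hi⟩ : ∃ i, j = i + 1 := ⟨j - 1, by omega⟩
      have := inT_xs (u := u) hx (j := i) (by omega)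
      rw [hi, this]
      rfl
  · rw [h5, h3, inT_zero]; rfl

private theorem nil_subt (t : BT) : BT.nil ∈ subt t := by
  induction t with
  | nil => simp [subt]
  | node a b iha ihb => simp [subt, iha]

private theorem drop_subt (l : Word) (k : ℕ) : enc (l.drop k) ∈ subt (enc l) := by
  induction l generalizing k with
  | nil => rw [List.drop_nil]; exact mem_subt_self _
  | cons b l ih =>
    cases k with
    | zero => exact mem_subt_self _
    | succ k =>
      rw [List.drop_succ_cons, enc_cons]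
      simp only [subt, List.mem_append]
      exact Or.inl (Or.inr (ih k))

/-- Proof: cases; suffixes of `x` and `u` are subtrees of `enc (x, u)`, `nil` is a subtree of every
tree. -/
theorem inT_mem (a : ℕ) : inT x u m0 a ∈ TL P0 x u := by
  unfold TL
  simp only [List.mem_append]
  unfold inT
  split_ifs with h1 h2 h3 h4
  · exact Or.inl (Or.inl (mem_subt_self _))
  · exact Or.inl (Or.inr (mem_subt_self _))
  · refine Or.inl (Or.inr ?_)
    rw [enc_pair]
    simp only [subt, List.mem_append]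
    exact Or.inl (Or.inr (drop_subt _ _))
  · refine Or.inl (Or.inr ?_)
    rw [enc_pair]
    simp only [subt, List.mem_append]
    exact Or.inl (Or.inl (drop_subt _ _))
  · exact Or.inl (Or.inl (nil_subt _))

theorem inT_ge {a : ℕ} (ha : base m0 ≤ a) (hx : x.length < m0) (hu : u.length ≤ 2 ^ m0) :
    inT x u m0 a = .nil := by
  have h2 := two_le hx
  unfold base at ha
  have hp : 2 ^ (m0 + 1) = 2 ^ m0 * 2 := pow_succ _ _
  rcases input_cases x u m0 a hx with ⟨h1, h3, h4, h5⟩ | ⟨h1, h3, h4, h5⟩ |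
    ⟨k, hk, h1, h6, h3, h4, h5⟩ | ⟨j, hj, h1, h7, h8, h3, h4, h5⟩ | ⟨h1, h6, h7, h8, h3, h4, h5⟩
  · omega
  · omega
  · omega
  · omega
  · exact h3

/-- Proof: cases (`2 ^ (j + 1) < 2 ^ m0` for `j < x.length`, so this address is neither in the region
nor the root; `Nat.log2 (2 ^ (j + 1)) = j + 1`). -/
theorem inRule_input (hx : x.length < m0) (he : e ≤ m0) (hu : u.length ≤ 2 ^ e) {a : ℕ}
    (ha : a < base m0) : InRule x e m0 a (labl P0 x u m0 n a) := by
  have h2 := two_le hx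
  have hp : 2 ^ (m0 + 1) = 2 ^ m0 * 2 := pow_succ _ _
  have hem : 2 ^ e ≤ 2 ^ m0 := Nat.pow_le_pow_right (by norm_num) he
  have hum : u.length ≤ 2 ^ m0 := hu.trans hem
  have hf0 : (labl P0 x u m0 n a).fld 0 = inL x u m0 a := by simp [labl, ha]
  have hf1 : (labl P0 x u m0 n a).fld 1 = inR x u m0 a := by simp [labl, ha]
  have hb0 : (labl P0 x u m0 n a).bit 0 = isN (inT x u m0 a) := by simp [labl, ha]
  refine ⟨?_, ?_, ?_, ?_, ?_⟩
  · rintro rfl
    rw [hb0, inT_zero]; rfl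
  · rintro rfl
    rw [hb0, hf0, hf1, inT_one]
    refine ⟨rfl, ?_, ?_⟩ <;> simp [inL, inR]
  · intro j hj hja
    have hlt : 2 ^ (j + 1) < 2 ^ m0 := Nat.pow_lt_pow_right (by norm_num) (by omega)
    have h1lt : (1 : ℕ) < 2 ^ (j + 1) := Nat.one_lt_two_pow (by omega)
    rcases input_cases x u m0 a hx with ⟨h1, h3, h4, h5⟩ | ⟨h1, h3, h4, h5⟩ |
      ⟨k, hk, h1, h6, h3, h4, h5⟩ | ⟨j', hj', h1, h7, h8, h3, h4, h5⟩ |
      ⟨h1, h6, h7, h8, h3, h4, h5⟩
    · omega
    · omega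
    · omega
    · have h9 := Nat.pow_right_injective (le_refl 2) (hja.symm.trans h1)
      have h10 : j' = j := by omega
      subst h10
      rw [hb0, hf0, hf1, h3, h4, h5, drop_eq x hj]
      exact ⟨rfl, rfl, rfl⟩
    · exact absurd hja (h8 j hj)
  · rintro ⟨hr1, hr2⟩ _
    rw [hf0, hf1]
    rcases input_cases x u m0 a hx with ⟨h1, h3, h4, h5⟩ | ⟨h1, h3, h4, h5⟩ |
      ⟨k, hk, h1, h6, h3, h4, h5⟩ | ⟨j', hj', h1, h7, h8, h3, h4, h5⟩ |
      ⟨h1, h6, h7, h8, h3, h4, h5⟩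
    · omega
    · omega
    · rw [h4, h5]
      refine ⟨?_, ?_⟩
      · split_ifs
        · exact Or.inr rfl
        · exact Or.inl rfl
      · split_ifs
        · exact Or.inl rfl
        · refine Or.inr ⟨?_, ?_⟩ <;> omega
    · omega
    · exact ⟨Or.inl h4, Or.inl h5⟩
  · intro har
    rcases input_cases x u m0 a hx with ⟨h1, h3, h4, h5⟩ | ⟨h1, h3, h4, h5⟩ |
      ⟨k, hk, h1, h6, h3, h4, h5⟩ | ⟨j', hj', h1, h7, h8, h3, h4, h5⟩ |
      ⟨h1, h6, h7, h8, h3, h4, h5⟩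
    · omega
    · rw [hb0, hf0, hf1, h3, h4, h5]
      refine ⟨rfl, rfl, ?_⟩
      split_ifs with hul
      · exact Or.inl rfl
      · refine Or.inr ⟨?_, ?_⟩ <;> omega
    · exact absurd har h6
    · omega
    · exact absurd har h6

end Pool.Agent.Lib.MP_bb9e9d_lc
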