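import Pool.Agent.Lib.MP_bb9e9d_lc.Hard.CompA
import Pool.Agent.Lib.MP_bb9e9d_lc.Hard.CompB

/-! # Completeness: the rules -/

namespace Pool.Agent.Lib.MP_bb9e9d_lc

open MP_634427_lc

variable {P0 : Pg} {x u : Word} {e m0 n : ℕ}

private lemma compC_kb (P0 : Pg) (k : Kd) : 3 ≤ kb P0 k := by
  unfold kb; omega

private lemma compC_ul (h : Room P0 x u e m0 n) : u.length ≤ 2 ^ m0 :=
  h.ul.trans (Nat.pow_le_pow_right (by norm_num) h.el)

private lemma compC_low {a : ℕ} (ha : a < base m0) :
    (labl P0 x u m0 n a).fld 0 = inL x u m0 a ∧ (labl P0 x u m0 n a).fld 1 = inR x u m0 a ∧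
    (labl P0 x u m0 n a).fld 3 = hadr P0 x u m0 (inT x u m0 a) ∧
    (labl P0 x u m0 n a).fld 5 = hadr P0 x u m0 (inT x u m0 a).left ∧
    (labl P0 x u m0 n a).fld 6 = hadr P0 x u m0 (inT x u m0 a).right ∧
    (labl P0 x u m0 n a).bit 0 = isN (inT x u m0 a) ∧ (labl P0 x u m0 n a).bit 2 = true := by
  unfold labl
  rw [if_pos ha]
  refine ⟨rfl, rfl, rfl, rfl, rfl, ?_, ?_⟩
  · simp
  · simp

private lemma compC_high {a : ℕ} (ha : ¬ a < base m0) :
    (labl P0 x u m0 n a).fld 0 = hadr P0 x u m0 ((TL P0 x u).getD (a - base m0) .nil).left ∧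
    (labl P0 x u m0 n a).fld 1 = hadr P0 x u m0 ((TL P0 x u).getD (a - base m0) .nil).right ∧
    (labl P0 x u m0 n a).bit 0 = isN ((TL P0 x u).getD (a - base m0) .nil) ∧
    (labl P0 x u m0 n a).bit 2 = false := by
  unfold labl
  rw [if_neg ha]
  refine ⟨rfl, rfl, rfl, ?_⟩
  change (if (2 : ℕ) = 0 then isN ((TL P0 x u).getD (a - base m0) BT.nil)
    else if a = 2 ^ n - 1 then false else
    match (FL P0 x u)[a - base m0]? with
      | none => false
      | some F => (recL P0 x u m0 F).bit 2) = false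
  rw [if_neg (by norm_num)]
  split_ifs with h1
  · rfl
  · cases hF : (FL P0 x u)[a - base m0]? with
    | none => rfl
    | some F =>
      have h3 := compC_kb P0 F.1
      have : ¬ (2 = kb P0 F.1) := by omega
      simp [recL, this]

private lemma compC_TL_closed : TClosed (TL P0 x u) := by
  unfold TL
  exact TClosed.append (TClosed.append (subt_closed _) (subt_closed _)) (trees_closed _)

/-- Proof: `inRule_input` for `a < base m0`; otherwise no premise holds. -/
theorem comp_in (h : Room P0 x u e m0 n) (a : ℕ) : InRule x e m0 a (labl P0 x u m0 n a) := by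
  by_cases ha : a < base m0
  · exact inRule_input h.xl h.el h.ul ha
  · have hb : base m0 = 2 ^ (m0 + 1) + 1 := rfl
    have h1 : 1 ≤ 2 ^ (m0 + 1) := Nat.one_le_two_pow
    have h2 : 2 ^ e ≤ 2 ^ m0 := Nat.pow_le_pow_right (by norm_num) h.el
    have h3 : 2 ^ (m0 + 1) = 2 * 2 ^ m0 := by rw [pow_succ]; ring
    refine ⟨fun h0 => by omega, fun h0 => by omega, fun j hj h0 => ?_, fun h0 => ?_, fun h0 => by omega⟩
    · exfalso
      have hxl := h.xl
      have h4 : 2 ^ (j + 1) ≤ 2 ^ m0 := Nat.pow_le_pow_right (by norm_num) (by omega)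
      omega
    · exfalso
      have := h0.2
      omega

/-- Proof: `inL_lt`, `inR_lt`, `TClosed.idx_lt` (`TL` is closed: `subt_closed`, `trees_closed`). -/
theorem comp_heap (h : Room P0 x u e m0 n) (a : ℕ) : HRule a (labl P0 x u m0 n a) := by
  intro hb
  by_cases ha : a < base m0
  · obtain ⟨f0, f1, -, -, -, b0, -⟩ := compC_low (P0 := P0) (x := x) (u := u) (n := n) ha
    rw [b0] at hb
    rw [f0, f1]
    exact ⟨inL_lt h.xl hb, inR_lt h.xl (compC_ul h) hb⟩
  · obtain ⟨f0, f1, b0, -⟩ := compC_high (P0 := P0) (x := x) (u := u) (n := n) ha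
    rw [b0] at hb
    rw [f0, f1]
    cases hT : (TL P0 x u).getD (a - base m0) .nil with
    | nil => rw [hT] at hb; simp [isN] at hb
    | node s t =>
      have hk : (TL P0 x u)[a - base m0]? = some (BT.node s t) := by
        rw [List.getD_eq_getElem?_getD] at hT
        cases hq : (TL P0 x u)[a - base m0]? with
        | none => rw [hq] at hT; simp at hT
        | some w => rw [hq] at hT; simpa using hT
      obtain ⟨i1, i2⟩ := TClosed.idx_lt compC_TL_closed hk
      have e1 : (BT.node s t).left = s := rfl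
      have e2 : (BT.node s t).right = t := rfl
      rw [e1, e2]
      unfold hadr
      omega

/-- Proof: the copy bit is set only below `base`; `labl_ha`, `inT_mem`, `inT_left`, `inT_right`. -/
theorem comp_cp (h : Room P0 x u e m0 n) (a a' : ℕ) :
    CpRule (labl P0 x u m0 n a) a' (labl P0 x u m0 n a') := by
  intro hb
  by_cases ha : a < base m0
  · obtain ⟨f0, f1, f3, f5, f6, b0, b2⟩ := compC_low (P0 := P0) (x := x) (u := u) (n := n) ha
    rw [f0, f1, f3, f5, f6, b0]
    refine ⟨?_, ?_, ?_⟩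
    · rintro rfl
      obtain ⟨c0, c1, c2⟩ := labl_ha (P0 := P0) (x := x) (u := u) (m0 := m0) (n := n)
        (inT_mem (P0 := P0) (x := x) (u := u) (m0 := m0) a)
      exact ⟨c0, fun _ => ⟨c1.symm, c2.symm⟩⟩
    · rintro hN rfl
      have hlt := inL_lt h.xl hN
      obtain ⟨-, -, g3, -, -, -, g2⟩ :=
        compC_low (P0 := P0) (x := x) (u := u) (n := n) (hlt.trans ha)
      rw [g3, inT_left h.xl (compC_ul h)]
      exact ⟨g2, rfl⟩
    · rintro hN rfl
      have hlt := inR_lt h.xl (compC_ul h) hN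
      obtain ⟨-, -, g3, -, -, -, g2⟩ :=
        compC_low (P0 := P0) (x := x) (u := u) (n := n) (hlt.trans ha)
      rw [g3, inT_right h.xl (compC_ul h)]
      exact ⟨g2, rfl⟩
  · obtain ⟨-, -, -, b2⟩ := compC_high (P0 := P0) (x := x) (u := u) (n := n) ha
    rw [b2] at hb
    simp at hb

/-- Proof: `labl_ra` for the fact `(ev P0, enc (x, u))`, `labl_ha` for its value. -/
theorem comp_fin (h : Room P0 x u e m0 n) (hv : P0.eval (enc (x, u)) ≠ .nil) (a a' : ℕ) :
    FinRule P0 m0 n a (labl P0 x u m0 n a) a' (labl P0 x u m0 n a') := by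
  rintro rfl
  have hb : base m0 = 2 ^ (m0 + 1) + 1 := rfl
  have hroom := h.room
  have ha : ¬ (2 ^ n - 1 < base m0) := by omega
  have f5 : (labl P0 x u m0 n (2 ^ n - 1)).fld 5 = hadr P0 x u m0 (P0.eval (enc (x, u))) := by
    unfold labl
    rw [if_neg ha]
    simp
  have f6 : (labl P0 x u m0 n (2 ^ n - 1)).fld 6 = hadr P0 x u m0 (enc (x, u)) := by
    unfold labl
    rw [if_neg ha]
    simp
  have f12 : (labl P0 x u m0 n (2 ^ n - 1)).fld 12 = radr P0 x u m0 (.ev P0, enc (x, u)) := by
    unfold labl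
    rw [if_neg ha]
    simp
  have hF : ((Kd.ev P0, enc (x, u)) : Fact) ∈ FL P0 x u := mem_fl P0 _
  refine ⟨⟨?_, ?_⟩, ?_, ?_⟩
  · rw [f12]
    have := List.idxOf_lt_length_of_mem hF
    unfold radr
    omega
  · rw [f12, f5, f6]
    rintro rfl
    obtain ⟨g1, g2⟩ := labl_ra h hF
    refine ⟨?_, ?_, ?_⟩
    · rw [g2 _ (by have := compC_kb P0 (.ev P0); omega)]
      simp [recL]
    · rw [g1 2 (by norm_num)]
      simp only [recL]
      rw [if_pos (by norm_num)]
      congr 1
      cases P0 <;> rfl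
    · rw [g1 3 (by norm_num)]
      simp only [recL]
      rw [if_pos (by norm_num)]
      congr 1
      cases P0 <;> rfl
  · rw [f5]
    rintro rfl
    have hmem : P0.eval (enc (x, u)) ∈ TL P0 x u := by
      unfold TL
      refine List.mem_append_right _ ?_
      unfold trees
      refine List.mem_flatMap.2 ⟨_, hF, ?_⟩
      refine List.mem_append_right _ ?_
      exact mem_subt_self _
    rw [(labl_ha hmem).1]
    cases hq : P0.eval (enc (x, u)) with
    | nil => exact absurd hq hv
    | node s t => rfl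
  · rintro rfl
    have hlt : 2 ^ (m0 + 1) < base m0 := by omega
    obtain ⟨-, -, g3, -, -, -, g2⟩ := compC_low (P0 := P0) (x := x) (u := u) (n := n) hlt
    rw [g3, f6]
    refine ⟨g2, ?_⟩
    congr 1
    unfold inT
    have h1 : 2 ^ (m0 + 1) ≠ 1 := by
      have : 1 ≤ 2 ^ m0 := Nat.one_le_two_pow
      rw [pow_succ]
      omega
    rw [if_neg h1, if_pos rfl]

end Pool.Agent.Lib.MP_bb9e9d_lc
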