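import Pool.Agent.Lib.MP_bb9e9d_lc.Hard.Prog

/-! # Programs and facts: basic lemmas -/

namespace Pool.Agent.Lib.MP_bb9e9d_lc

open MP_634427_lc

/-- Proof: induction on `PolyTime`. -/
theorem exists_pg {F : BT → BT} (h : PolyTime F) : ∃ p : Pg, p.Bdd ∧ p.eval = F := by
  induction h with
  | id => exact ⟨.id, trivial, rfl⟩
  | nil => exact ⟨.nil, trivial, rfl⟩
  | left => exact ⟨.left, trivial, rfl⟩
  | right => exact ⟨.right, trivial, rfl⟩
  | node _ _ ihf ihg =>
    obtain ⟨p, hp, rfl⟩ := ihf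
    obtain ⟨q, hq, rfl⟩ := ihg
    exact ⟨.node p q, ⟨hp, hq⟩, rfl⟩
  | comp _ _ ihf ihg =>
    obtain ⟨p, hp, rfl⟩ := ihf
    obtain ⟨q, hq, rfl⟩ := ihg
    exact ⟨.comp p q, ⟨hp, hq⟩, rfl⟩
  | recur c _ _ hb ihg ihh =>
    obtain ⟨p, hp, rfl⟩ := ihg
    obtain ⟨q, hq, rfl⟩ := ihh
    exact ⟨.recur p q, ⟨hp, hq, c, hb⟩, rfl⟩

private theorem pg_polyTime {p : Pg} (h : p.Bdd) : PolyTime p.eval := by
  induction p with
  | id => exact PolyTime.id
  | nil => exact PolyTime.nil
  | left => exact PolyTime.left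
  | right => exact PolyTime.right
  | node f g ihf ihg => exact PolyTime.node (ihf h.1) (ihg h.2)
  | comp f g ihf ihg => exact PolyTime.comp (f := f.eval) (g := g.eval) (ihf h.1) (ihg h.2)
  | recur g k ihg ihh =>
    obtain ⟨h1, h2, c, hc⟩ := h
    exact PolyTime.recur c (ihg h1) (ihh h2) hc

/-- Proof: induction on `p`, as in `PolyTime.size_le`. -/
theorem Pg.size_le {p : Pg} (h : p.Bdd) : ∃ c, ∀ x, (p.eval x).size ≤ (x.size + 2) ^ c :=
  (pg_polyTime h).size_le

theorem Closed.append {L L' : List Fact} (h : Closed L) (h' : Closed L') : Closed (L ++ L') := by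
  intro l₁ F l₂ he G hG
  rcases List.append_eq_append_iff.1 he with ⟨a, ha, hb⟩ | ⟨a, ha, hb⟩
  · rw [ha]
    exact List.mem_append_right _ (h' a F l₂ hb G hG)
  · cases a with
    | nil =>
      rw [List.append_nil] at ha
      rw [List.nil_append] at hb
      have := h' [] F l₂ hb.symm G hG
      exact absurd this List.not_mem_nil
    | cons b a =>
      rw [List.cons_append] at hb
      obtain ⟨rfl, hb⟩ := List.cons.inj hb
      exact h l₁ F a ha G hG

private theorem closed_nil : Closed [] := by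
  intro l₁ F l₂ he
  simp at he

theorem Closed.snoc {L : List Fact} (h : Closed L) {F : Fact} (hF : ∀ G ∈ deps F, G ∈ L) :
    Closed (L ++ [F]) := by
  intro l₁ F' l₂ he G hG
  rcases List.append_eq_append_iff.1 he with ⟨a, ha, hb⟩ | ⟨a, ha, hb⟩
  · rw [List.singleton_eq_append_iff] at hb
    rcases hb with ⟨rfl, hb⟩ | ⟨rfl, hb⟩
    · obtain ⟨rfl, _⟩ := List.cons.inj hb
      rw [ha, List.append_nil]
      exact hF G hG
    · simp at hb
  · cases a with
    | nil =>
      rw [List.append_nil] at ha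
      rw [List.nil_append] at hb
      obtain ⟨rfl, _⟩ := List.cons.inj hb
      rw [← ha]
      exact hF G hG
    | cons b a =>
      rw [List.cons_append] at hb
      obtain ⟨rfl, hb⟩ := List.cons.inj hb
      exact h l₁ F' a ha G hG

private theorem mem_fl' (p : Pg) (T : BT) : ((Kd.ev p, T) : Fact) ∈ fl p T := by
  cases p <;> simp [fl]

private theorem mem_flr (g h : Pg) (G H : BT → List Fact) (x y : BT) :
    ((Kd.rc g h, .node x y) : Fact) ∈ flr g h G H x y := by
  cases y <;> simp [flr]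

private theorem flr_closed (g h : Pg) (G H : BT → List Fact) (hG : ∀ T, Closed (G T))
    (hH : ∀ T, Closed (H T)) (hg : ∀ T, ((Kd.ev g, T) : Fact) ∈ G T)
    (hh : ∀ T, ((Kd.ev h, T) : Fact) ∈ H T) (x y : BT) : Closed (flr g h G H x y) := by
  induction y with
  | nil =>
    refine (hG x).snoc ?_
    intro F hF
    simp only [deps, List.mem_singleton] at hF
    rw [hF]
    exact hg x
  | node a b iha ihb =>
    refine ((iha.append ihb).append (hH _)).snoc ?_
    intro F hF
    simp only [deps, List.mem_cons, List.not_mem_nil, or_false] at hF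
    rcases hF with rfl | rfl | rfl
    · exact List.mem_append_left _ (List.mem_append_left _ (mem_flr _ _ _ _ _ _))
    · exact List.mem_append_left _ (List.mem_append_right _ (mem_flr _ _ _ _ _ _))
    · exact List.mem_append_right _ (hh _)

/-- Proof: induction on `p`, inner induction for `flr`. -/
theorem fl_closed (p : Pg) (T : BT) : Closed (fl p T) := by
  induction p generalizing T with
  | id =>
    simp only [fl]
    exact closed_nil.snoc (by simp [deps])
  | nil =>
    simp only [fl]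
    exact closed_nil.snoc (by simp [deps])
  | left =>
    simp only [fl]
    exact closed_nil.snoc (by simp [deps])
  | right =>
    simp only [fl]
    exact closed_nil.snoc (by simp [deps])
  | node f g ihf ihg =>
    simp only [fl]
    refine ((ihf T).append (ihg T)).snoc ?_
    intro F hF
    simp only [deps, List.mem_cons, List.not_mem_nil, or_false] at hF
    rcases hF with rfl | rfl
    · exact List.mem_append_left _ (mem_fl' _ _)
    · exact List.mem_append_right _ (mem_fl' _ _)
  | comp f g ihf ihg =>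
    simp only [fl]
    refine ((ihg T).append (ihf _)).snoc ?_
    intro F hF
    simp only [deps, List.mem_cons, List.not_mem_nil, or_false] at hF
    rcases hF with rfl | rfl
    · exact List.mem_append_left _ (mem_fl' _ _)
    · exact List.mem_append_right _ (mem_fl' _ _)
  | recur g h ihg ihh =>
    simp only [fl]
    refine (flr_closed g h _ _ ihg ihh (mem_fl' g) (mem_fl' h) _ _).snoc ?_
    intro F hF
    simp only [deps, List.mem_singleton] at hF
    rw [hF]
    exact mem_flr _ _ _ _ _ _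

theorem mem_fl (p : Pg) (T : BT) : ((Kd.ev p, T) : Fact) ∈ fl p T :=
  mem_fl' p T

/-- All facts have kinds of the program, and the inputs of the facts `rc` are nodes. -/
theorem kind_fl (p : Pg) (T : BT) : ∀ F ∈ fl p T, F.1 ∈ kds p ∧
    ∀ g h, F.1 = Kd.rc g h → ∃ x y, F.2 = BT.node x y := by
  induction p generalizing T with
  | id =>
    intro F hF
    simp only [fl, List.mem_singleton] at hF
    subst hF
    exact ⟨by simp [kds], fun g h he => by simp at he⟩
  | nil =>
    intro F hF
    simp only [fl, List.mem_singleton] at hF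
    subst hF
    exact ⟨by simp [kds], fun g h he => by simp at he⟩
  | left =>
    intro F hF
    simp only [fl, List.mem_singleton] at hF
    subst hF
    exact ⟨by simp [kds], fun g h he => by simp at he⟩
  | right =>
    intro F hF
    simp only [fl, List.mem_singleton] at hF
    subst hF
    exact ⟨by simp [kds], fun g h he => by simp at he⟩
  | node f g ihf ihg =>
    intro F hF
    simp only [fl, List.mem_append, List.mem_singleton] at hF
    rcases hF with (hF | hF) | rfl
    · exact ⟨by simp [kds, (ihf T F hF).1], (ihf T F hF).2⟩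
    · exact ⟨by simp [kds, (ihg T F hF).1], (ihg T F hF).2⟩
    · exact ⟨by simp [kds], fun g h he => by simp at he⟩
  | comp f g ihf ihg =>
    intro F hF
    simp only [fl, List.mem_append, List.mem_singleton] at hF
    rcases hF with (hF | hF) | rfl
    · exact ⟨by simp [kds, (ihg T F hF).1], (ihg T F hF).2⟩
    · exact ⟨by simp [kds, (ihf _ F hF).1], (ihf _ F hF).2⟩
    · exact ⟨by simp [kds], fun g h he => by simp at he⟩
  | recur g h ihg ihh =>
    have key : ∀ x y, ∀ F ∈ flr g h (fl g) (fl h) x y, F.1 ∈ kds (.recur g h) ∧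
        ∀ g' h', F.1 = Kd.rc g' h' → ∃ x y, F.2 = BT.node x y := by
      intro x y
      induction y with
      | nil =>
        intro F hF
        simp only [flr, List.mem_append, List.mem_singleton] at hF
        rcases hF with hF | rfl
        · exact ⟨by simp [kds, (ihg x F hF).1], (ihg x F hF).2⟩
        · exact ⟨by simp [kds], fun g' h' _ => ⟨x, .nil, rfl⟩⟩
      | node a b iha ihb =>
        intro F hF
        simp only [flr, List.mem_append, List.mem_singleton] at hF
        rcases hF with ((hF | hF) | hF) | rfl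
        · exact iha F hF
        · exact ihb F hF
        · exact ⟨by simp [kds, (ihh _ F hF).1], (ihh _ F hF).2⟩
        · exact ⟨by simp [kds], fun g' h' _ => ⟨x, .node a b, rfl⟩⟩
    intro F hF
    simp only [fl, List.mem_append, List.mem_singleton] at hF
    rcases hF with hF | rfl
    · exact key _ _ F hF
    · exact ⟨by simp [kds], fun g h he => by simp at he⟩

/-- Proof: the first occurrence of `F`. -/
theorem Closed.idx_lt {L : List Fact} (h : Closed L) {F G : Fact} {k : ℕ} (hk : L[k]? = some F)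
    (hG : G ∈ deps F) : L.idxOf G < k := by
  obtain ⟨hk', hk2⟩ := List.getElem?_eq_some_iff.1 hk
  have he : L = L.take k ++ F :: L.drop (k + 1) := by
    rw [← hk2, List.cons_getElem_drop_succ, List.take_append_drop]
  have hm := h _ _ _ he G hG
  have h1 : (L.take k).idxOf G < (L.take k).length := List.idxOf_lt_length_of_mem hm
  have h2 : L.idxOf G = (L.take k).idxOf G := by
    conv_lhs => rw [he]
    exact List.idxOf_append_of_mem hm
  rw [h2]
  refine h1.trans_le ?_
  rw [List.length_take]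
  exact min_le_left _ _

/-- The kinds on which a kind depends are kinds of the program. -/
theorem kds_closed (p : Pg) : (∀ f g, Kd.ev (.node f g) ∈ kds p → Kd.ev f ∈ kds p ∧ Kd.ev g ∈ kds p) ∧
    (∀ f g, Kd.ev (.comp f g) ∈ kds p → Kd.ev f ∈ kds p ∧ Kd.ev g ∈ kds p) ∧
    (∀ g h, Kd.ev (.recur g h) ∈ kds p → Kd.rc g h ∈ kds p) ∧
    (∀ g h, Kd.rc g h ∈ kds p → Kd.ev g ∈ kds p ∧ Kd.ev h ∈ kds p) ∧ Kd.ev p ∈ kds p := by
  have self : ∀ q : Pg, Kd.ev q ∈ kds q := by
    intro q
    cases q <;> simp [kds]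
  induction p with
  | id => simp [kds]
  | nil => simp [kds]
  | left => simp [kds]
  | right => simp [kds]
  | node f g ihf ihg =>
    obtain ⟨a1, a2, a3, a4, a5⟩ := ihf
    obtain ⟨b1, b2, b3, b4, b5⟩ := ihg
    refine ⟨?_, ?_, ?_, ?_, self _⟩
    · intro f' g' hm
      simp only [kds, List.mem_cons, List.mem_append, Kd.ev.injEq, Pg.node.injEq] at hm ⊢
      rcases hm with ⟨rfl, rfl⟩ | hm | hm
      · exact ⟨Or.inr (Or.inl a5), Or.inr (Or.inr b5)⟩
      · exact ⟨Or.inr (Or.inl (a1 _ _ hm).1), Or.inr (Or.inl (a1 _ _ hm).2)⟩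
      · exact ⟨Or.inr (Or.inr (b1 _ _ hm).1), Or.inr (Or.inr (b1 _ _ hm).2)⟩
    · intro f' g' hm
      simp only [kds, List.mem_cons, List.mem_append, Kd.ev.injEq, reduceCtorEq, false_or] at hm ⊢
      rcases hm with hm | hm
      · exact ⟨Or.inr (Or.inl (a2 _ _ hm).1), Or.inr (Or.inl (a2 _ _ hm).2)⟩
      · exact ⟨Or.inr (Or.inr (b2 _ _ hm).1), Or.inr (Or.inr (b2 _ _ hm).2)⟩
    · intro f' g' hm
      simp only [kds, List.mem_cons, List.mem_append, Kd.ev.injEq, reduceCtorEq, false_or] at hm ⊢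
      rcases hm with hm | hm
      · exact Or.inl (a3 _ _ hm)
      · exact Or.inr (b3 _ _ hm)
    · intro f' g' hm
      simp only [kds, List.mem_cons, List.mem_append, reduceCtorEq, false_or] at hm ⊢
      rcases hm with hm | hm
      · exact ⟨Or.inr (Or.inl (a4 _ _ hm).1), Or.inr (Or.inl (a4 _ _ hm).2)⟩
      · exact ⟨Or.inr (Or.inr (b4 _ _ hm).1), Or.inr (Or.inr (b4 _ _ hm).2)⟩
  | comp f g ihf ihg =>
    obtain ⟨a1, a2, a3, a4, a5⟩ := ihf
    obtain ⟨b1, b2, b3, b4, b5⟩ := ihg
    refine ⟨?_, ?_, ?_, ?_, self _⟩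
    · intro f' g' hm
      simp only [kds, List.mem_cons, List.mem_append, Kd.ev.injEq, reduceCtorEq, false_or] at hm ⊢
      rcases hm with hm | hm
      · exact ⟨Or.inr (Or.inl (a1 _ _ hm).1), Or.inr (Or.inl (a1 _ _ hm).2)⟩
      · exact ⟨Or.inr (Or.inr (b1 _ _ hm).1), Or.inr (Or.inr (b1 _ _ hm).2)⟩
    · intro f' g' hm
      simp only [kds, List.mem_cons, List.mem_append, Kd.ev.injEq, Pg.comp.injEq] at hm ⊢
      rcases hm with ⟨rfl, rfl⟩ | hm | hm
      · exact ⟨Or.inr (Or.inl a5), Or.inr (Or.inr b5)⟩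
      · exact ⟨Or.inr (Or.inl (a2 _ _ hm).1), Or.inr (Or.inl (a2 _ _ hm).2)⟩
      · exact ⟨Or.inr (Or.inr (b2 _ _ hm).1), Or.inr (Or.inr (b2 _ _ hm).2)⟩
    · intro f' g' hm
      simp only [kds, List.mem_cons, List.mem_append, Kd.ev.injEq, reduceCtorEq, false_or] at hm ⊢
      rcases hm with hm | hm
      · exact Or.inl (a3 _ _ hm)
      · exact Or.inr (b3 _ _ hm)
    · intro f' g' hm
      simp only [kds, List.mem_cons, List.mem_append, reduceCtorEq, false_or] at hm ⊢
      rcases hm with hm | hm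
      · exact ⟨Or.inr (Or.inl (a4 _ _ hm).1), Or.inr (Or.inl (a4 _ _ hm).2)⟩
      · exact ⟨Or.inr (Or.inr (b4 _ _ hm).1), Or.inr (Or.inr (b4 _ _ hm).2)⟩
  | recur g h ihg ihh =>
    obtain ⟨a1, a2, a3, a4, a5⟩ := ihg
    obtain ⟨b1, b2, b3, b4, b5⟩ := ihh
    refine ⟨?_, ?_, ?_, ?_, self _⟩
    · intro f' g' hm
      simp only [kds, List.mem_cons, List.mem_append, Kd.ev.injEq, reduceCtorEq, false_or] at hm ⊢
      rcases hm with hm | hm
      · exact ⟨Or.inr (Or.inl (a1 _ _ hm).1), Or.inr (Or.inl (a1 _ _ hm).2)⟩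
      · exact ⟨Or.inr (Or.inr (b1 _ _ hm).1), Or.inr (Or.inr (b1 _ _ hm).2)⟩
    · intro f' g' hm
      simp only [kds, List.mem_cons, List.mem_append, Kd.ev.injEq, reduceCtorEq, false_or] at hm ⊢
      rcases hm with hm | hm
      · exact ⟨Or.inr (Or.inl (a2 _ _ hm).1), Or.inr (Or.inl (a2 _ _ hm).2)⟩
      · exact ⟨Or.inr (Or.inr (b2 _ _ hm).1), Or.inr (Or.inr (b2 _ _ hm).2)⟩
    · intro f' g' hm
      simp only [kds, List.mem_cons, List.mem_append, Kd.ev.injEq, Pg.recur.injEq, reduceCtorEq,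
        false_or, Kd.rc.injEq] at hm ⊢
      rcases hm with ⟨rfl, rfl⟩ | hm | hm
      · exact Or.inl ⟨rfl, rfl⟩
      · exact Or.inr (Or.inl (a3 _ _ hm))
      · exact Or.inr (Or.inr (b3 _ _ hm))
    · intro f' g' hm
      simp only [kds, List.mem_cons, List.mem_append, reduceCtorEq, false_or, Kd.rc.injEq] at hm ⊢
      rcases hm with ⟨rfl, rfl⟩ | hm | hm
      · exact ⟨Or.inr (Or.inl a5), Or.inr (Or.inr b5)⟩
      · exact ⟨Or.inr (Or.inl (a4 _ _ hm).1), Or.inr (Or.inl (a4 _ _ hm).2)⟩
      · exact ⟨Or.inr (Or.inr (b4 _ _ hm).1), Or.inr (Or.inr (b4 _ _ hm).2)⟩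

end Pool.Agent.Lib.MP_bb9e9d_lc
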