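import Pool.Agent.Lib.MP_bb9e9d_lc.Hard.Rules
import Pool.Agent.Lib.MP_bb9e9d_lc.Hard.ProgA
import Pool.Agent.Lib.MP_bb9e9d_lc.Hard.ProgB

/-!
# Completeness of the rules: the labelling

Addresses below `base m0 = 2 ^ (m0 + 1) + 1` are the input; the cell `base + k` is the `k`-th tree of
`TL`, the record at `base + k` is the `k`-th fact of `FL`.
-/

namespace Pool.Agent.Lib.MP_bb9e9d_lc

open MP_634427_lc

/-- the tree of an input cell -/
def inT (x u : Word) (m0 a : ℕ) : BT :=
  if a = 1 then enc true
  else if a = 2 ^ (m0 + 1) then enc (x, u)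
  else if 2 ^ m0 ≤ a ∧ a < 2 ^ m0 + u.length then enc (u.drop (u.length - (a - 2 ^ m0 + 1)))
  else if a = 2 ^ Nat.log2 a ∧ 1 ≤ Nat.log2 a ∧ Nat.log2 a ≤ x.length then
    enc (x.drop (x.length - Nat.log2 a))
  else .nil

/-- the left child of an input cell -/
def inL (x u : Word) (m0 a : ℕ) : ℕ :=
  if a = 1 then 0
  else if a = 2 ^ (m0 + 1) then (if x.length = 0 then 0 else 2 ^ x.length)
  else if 2 ^ m0 ≤ a ∧ a < 2 ^ m0 + u.length then
    (if u.reverse.getD (a - 2 ^ m0) false then 1 else 0)
  else if a = 2 ^ Nat.log2 a ∧ 1 ≤ Nat.log2 a ∧ Nat.log2 a ≤ x.length then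
    (if x.reverse.getD (Nat.log2 a - 1) false then 1 else 0)
  else 0

/-- the right child of an input cell -/
def inR (x u : Word) (m0 a : ℕ) : ℕ :=
  if a = 1 then 0
  else if a = 2 ^ (m0 + 1) then (if u.length = 0 then 0 else 2 ^ m0 + u.length - 1)
  else if 2 ^ m0 ≤ a ∧ a < 2 ^ m0 + u.length then (if a = 2 ^ m0 then 0 else a - 1)
  else if a = 2 ^ Nat.log2 a ∧ 1 ≤ Nat.log2 a ∧ Nat.log2 a ≤ x.length then
    (if Nat.log2 a = 1 then 0 else 2 ^ (Nat.log2 a - 1))
  else 0

/-- is the tree a node? -/
def isN : BT → Bool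
  | .nil => false
  | .node _ _ => true

/-- the first address after the input -/
def base (m0 : ℕ) : ℕ := 2 ^ (m0 + 1) + 1

/-- all facts -/
def FL (P0 : Pg) (x u : Word) : List Fact := fl P0 (enc (x, u))

/-- all trees -/
def TL (P0 : Pg) (x u : Word) : List BT := subt (enc true) ++ subt (enc (x, u)) ++ trees (FL P0 x u)

/-- the address of a tree -/
def hadr (P0 : Pg) (x u : Word) (m0 : ℕ) (t : BT) : ℕ := base m0 + (TL P0 x u).idxOf t

/-- the address of a fact -/
def radr (P0 : Pg) (x u : Word) (m0 : ℕ) (F : Fact) : ℕ := base m0 + (FL P0 x u).idxOf F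

/-- the list of the trees in the fields `2, …, 11` of the record of a fact -/
def fldT : Fact → List BT
  | (.ev (.node f g), T) => [T, .node (f.eval T) (g.eval T), .nil, f.eval T, g.eval T]
  | (.ev (.comp f g), T) => [T, f.eval (g.eval T), .nil, g.eval T]
  | (.ev (.recur g h), T) => [T, BT.recur g.eval h.eval T.left T.right, .nil, T.left, T.right]
  | (.ev q, T) => [T, q.eval T]
  | (.rc g h, .node s (.node a b)) =>
      [.node a b, BT.recur g.eval h.eval s (.node a b), s, a, b, BT.recur g.eval h.eval s a,
        BT.recur g.eval h.eval s b,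
        .node (BT.recur g.eval h.eval s a) (BT.recur g.eval h.eval s b),
        .node (.node a b) (.node (BT.recur g.eval h.eval s a) (BT.recur g.eval h.eval s b)),
        bigT g h s a b]
  | (.rc g _, .node s .nil) => [.nil, g.eval s, s]
  | _ => []

/-- the record of a fact -/
def recL (P0 : Pg) (x u : Word) (m0 : ℕ) (F : Fact) : Lb where
  fld j := if j < 12 then hadr P0 x u m0 ((fldT F).getD (j - 2) .nil)
    else (((deps F).map (radr P0 x u m0)).getD (j - 12) 0)
  bit b := decide (b = kb P0 F.1) || (decide (b = 1) && isN F.2.right)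

/-- the labelling -/
def labl (P0 : Pg) (x u : Word) (m0 n a : ℕ) : Lb :=
  if a < base m0 then
    { fld := fun j => match j with
        | 0 => inL x u m0 a
        | 1 => inR x u m0 a
        | 3 => hadr P0 x u m0 (inT x u m0 a)
        | 5 => hadr P0 x u m0 (inT x u m0 a).left
        | 6 => hadr P0 x u m0 (inT x u m0 a).right
        | _ => 0
      bit := fun b => (decide (b = 0) && isN (inT x u m0 a)) || decide (b = 2) }
  else
    { fld := fun j =>
        if j = 0 then hadr P0 x u m0 ((TL P0 x u).getD (a - base m0) .nil).left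
        else if j = 1 then hadr P0 x u m0 ((TL P0 x u).getD (a - base m0) .nil).right
        else if a = 2 ^ n - 1 then (match j with
          | 5 => hadr P0 x u m0 (P0.eval (enc (x, u)))
          | 6 => hadr P0 x u m0 (enc (x, u))
          | 12 => radr P0 x u m0 (.ev P0, enc (x, u))
          | _ => 0)
        else match (FL P0 x u)[a - base m0]? with
          | none => 0
          | some F => (recL P0 x u m0 F).fld j
      bit := fun b =>
        if b = 0 then isN ((TL P0 x u).getD (a - base m0) .nil)
        else if a = 2 ^ n - 1 then false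
        else match (FL P0 x u)[a - base m0]? with
          | none => false
          | some F => (recL P0 x u m0 F).bit b }

/-- there is enough room -/
structure Room (P0 : Pg) (x u : Word) (e m0 n : ℕ) : Prop where
  xl : x.length < m0
  el : e ≤ m0
  ul : u.length ≤ 2 ^ e
  room : base m0 + (TL P0 x u).length + (FL P0 x u).length < 2 ^ n - 1

end Pool.Agent.Lib.MP_bb9e9d_lc
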