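import Pool.Agent.Lib.MP_bb9e9d_lc.Defs

/-! # The encodings are injective -/

namespace Pool.Agent.Lib.MP_bb9e9d_lc

open MP_634427_lc

private lemma Enc_un : Function.Injective (enc : ℕ → BT) := by
  intro a
  induction a with
  | zero =>
    intro b h
    cases b with
    | zero => rfl
    | succ b => cases h
  | succ a ih =>
    intro b h
    cases b with
    | zero => cases h
    | succ b => exact congrArg Nat.succ (ih (BT.node.inj h).2)

private lemma Enc_pair {α β : Type} [Enc α] [Enc β] (h1 : Function.Injective (enc : α → BT))
    (h2 : Function.Injective (enc : β → BT)) : Function.Injective (enc : α × β → BT) := by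
  rintro ⟨a, b⟩ ⟨a', b'⟩ h
  have h' := BT.node.inj h
  exact Prod.ext (h1 h'.1) (h2 h'.2)

/-- Proof: induction; the tags `un 0, …, un 5` are different. -/
theorem enc_con_injective : Function.Injective (enc : Con → BT) := by
  have tag : ∀ {i j : ℕ} {s t : BT}, BT.node (enc i) s = BT.node (enc j) t → i = j ∧ s = t :=
    fun h => ⟨Enc_un (BT.node.inj h).1, (BT.node.inj h).2⟩
  intro C
  induction C with
  | top =>
    intro D h
    cases D with
    | top => rfl
    | bot => exact absurd (tag h).1 (by decide)
    | name A => exact absurd (tag h).1 (by decide)
    | ex R => exact absurd (tag h).1 (by decide)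
    | neg D => exact absurd (tag h).1 (by decide)
    | inter D E => exact absurd (tag h).1 (by decide)
  | bot =>
    intro D h
    cases D with
    | top => exact absurd (tag h).1 (by decide)
    | bot => rfl
    | name A => exact absurd (tag h).1 (by decide)
    | ex R => exact absurd (tag h).1 (by decide)
    | neg D => exact absurd (tag h).1 (by decide)
    | inter D E => exact absurd (tag h).1 (by decide)
  | name A =>
    intro D h
    cases D with
    | top => exact absurd (tag h).1 (by decide)
    | bot => exact absurd (tag h).1 (by decide)
    | name A' => rw [Enc_un (tag h).2]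
    | ex R => exact absurd (tag h).1 (by decide)
    | neg D => exact absurd (tag h).1 (by decide)
    | inter D E => exact absurd (tag h).1 (by decide)
  | ex R =>
    intro D h
    cases D with
    | top => exact absurd (tag h).1 (by decide)
    | bot => exact absurd (tag h).1 (by decide)
    | name A' => exact absurd (tag h).1 (by decide)
    | ex R' => rw [Enc_pair enc_bool_injective Enc_un (tag h).2]
    | neg D => exact absurd (tag h).1 (by decide)
    | inter D E => exact absurd (tag h).1 (by decide)
  | neg C ih =>
    intro D h
    cases D with
    | top => exact absurd (tag h).1 (by decide)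
    | bot => exact absurd (tag h).1 (by decide)
    | name A' => exact absurd (tag h).1 (by decide)
    | ex R' => exact absurd (tag h).1 (by decide)
    | neg D => rw [ih (tag h).2]
    | inter D E => exact absurd (tag h).1 (by decide)
  | inter C C' ih ih' =>
    intro D h
    cases D with
    | top => exact absurd (tag h).1 (by decide)
    | bot => exact absurd (tag h).1 (by decide)
    | name A' => exact absurd (tag h).1 (by decide)
    | ex R' => exact absurd (tag h).1 (by decide)
    | neg D => exact absurd (tag h).1 (by decide)
    | inter D E =>
      have h1 := BT.node.inj (tag h).2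
      rw [ih h1.1, ih' h1.2]

/-- Proof: `enc K = enc K.tup`, and `tup` is injective. -/
theorem enc_inst_injective : Function.Injective (enc : Inst → BT) := by
  have hn := Enc_un
  have hl {α : Type} [Enc α] (h : Function.Injective (enc : α → BT)) :
      Function.Injective (enc : List α → BT) := enc_list_injective h
  have ht : Function.Injective
      (enc : Con × List (Con × Con) × List Rl × List (ℕ × ℕ) × List (ℕ × ℕ × ℕ) ×
        List ℕ × List (ℕ × ℕ) × List ℕ × List ℕ → BT) :=
    Enc_pair enc_con_injective <| Enc_pair (hl (Enc_pair enc_con_injective enc_con_injective)) <|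
    Enc_pair (hl (Enc_pair enc_bool_injective hn)) <| Enc_pair (hl (Enc_pair hn hn)) <|
    Enc_pair (hl (Enc_pair hn (Enc_pair hn hn))) <| Enc_pair (hl hn) <|
    Enc_pair (hl (Enc_pair hn hn)) <| Enc_pair (hl hn) (hl hn)
  intro K K' h
  have h1 : K.tup = K'.tup := ht h
  cases K
  cases K'
  simp only [Inst.tup, Prod.mk.injEq] at h1
  simp only [Inst.mk.injEq]
  exact h1

end Pool.Agent.Lib.MP_bb9e9d_lc
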