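import Pool.Agent.Lib.MP_bb9e9d_lc.Hard.Rules

/-!
# The rules as a concept

Bits are concepts `V v = ∃P_{2v+1}`.  The bits `0, 1` are control bits; then come the `n` address bits
and the label of the first address, then those of the second address.  The label consists of `15`
fields of `n` bits (least significant bit first) and further bits.
-/

namespace Pool.Agent.Lib.MP_bb9e9d_lc

open MP_634427_lc

/-- the bit `v` -/
def V (v : ℕ) : Con := .ex (false, 2 * v + 1)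

/-- disjunction -/
def cOr (a b : Con) : Con := .neg (.inter (.neg a) (.neg b))

/-- implication -/
def cImp (a b : Con) : Con := .neg (.inter a (.neg b))

/-- equivalence -/
def cIff (a b : Con) : Con := .inter (cImp a b) (cImp b a)

/-- conjunction of a list -/
def cAll (l : List Con) : Con := l.foldr .inter .top

/-- truth value of a concept built from bits -/
def evb (β : ℕ → Bool) : Con → Bool
  | .top => true
  | .bot => false
  | .name _ => false
  | .ex R => !R.1 && decide (R.2 % 2 = 1) && β (R.2 / 2)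
  | .neg C => !evb β C
  | .inter C D => evb β C && evb β D

/-- concepts built from the bits `V v`, `v < m` -/
def IsBit (m : ℕ) : Con → Prop
  | .top => True
  | .bot => True
  | .name _ => False
  | .ex R => R.1 = false ∧ R.2 % 2 = 1 ∧ R.2 / 2 < m
  | .neg C => IsBit m C
  | .inter C D => IsBit m C ∧ IsBit m D

/-- the numbers at `A` and `B` are equal -/
def cEq (n A B : ℕ) : Con := cAll ((List.range n).map fun t => cIff (V (A + t)) (V (B + t)))

/-- the number at `A` is smaller than the number at `B` -/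
def cLt (n A B : ℕ) : Con :=
  (List.range n).foldl (fun r t => cOr (.inter (.neg (V (A + t))) (V (B + t)))
    (.inter (cIff (V (A + t)) (V (B + t))) r)) .bot

/-- the number at `A` has the binary digits `c` -/
def cCst (n A : ℕ) (c : Word) : Con :=
  cAll ((List.range n).map fun t => bif c.getD t false then V (A + t) else .neg (V (A + t)))

/-- the number at `A` is in the region -/
def cReg (e m0 n A : ℕ) : Con :=
  cAll ((List.range n).map fun t => bif decide (t < e) then .top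
    else bif decide (t = m0) then V (A + t) else .neg (V (A + t)))

/-- the number at `A` -/
def num (β : ℕ → Bool) (A n : ℕ) : ℕ := ∑ t ∈ Finset.range n, if β (A + t) then 2 ^ t else 0

/-- the digits of `2 ^ j` -/
def hot (j : ℕ) : Word := List.replicate j false ++ [true]

/-- number of data bits of one address -/
def qq (P0 : Pg) (n : ℕ) : ℕ := 16 * n + (3 + (kds P0).length)

/-- the position of the address of the side `s` (`s = 0, 1`) -/
def pA (P0 : Pg) (n s : ℕ) : ℕ := 2 + s * qq P0 n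

/-- the position of the field `j` of the side `s` -/
def pF (P0 : Pg) (n s j : ℕ) : ℕ := 2 + s * qq P0 n + n + j * n

/-- the bit `b` of the side `s` -/
def pB (P0 : Pg) (n s b : ℕ) : ℕ := 2 + s * qq P0 n + 16 * n + b

/-- `Cl` as a concept -/
def cCl (P0 : Pg) (n p : ℕ) (k : Kd) (i o : ℕ) : Con :=
  .inter (cLt n (pF P0 n 0 p) (pA P0 n 0)) (cImp (cEq n (pF P0 n 0 p) (pA P0 n 1))
    (cAll [V (pB P0 n 1 (kb P0 k)), cEq n (pF P0 n 1 2) (pF P0 n 0 i),
      cEq n (pF P0 n 1 3) (pF P0 n 0 o)]))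

/-- `ClR` as a concept -/
def cClR (P0 : Pg) (n p : ℕ) (k : Kd) (w i o : ℕ) : Con :=
  .inter (cLt n (pF P0 n 0 p) (pA P0 n 0)) (cImp (cEq n (pF P0 n 0 p) (pA P0 n 1))
    (cAll [V (pB P0 n 1 (kb P0 k)), cEq n (pF P0 n 1 4) (pF P0 n 0 w),
      cEq n (pF P0 n 1 2) (pF P0 n 0 i), cEq n (pF P0 n 1 3) (pF P0 n 0 o)]))

/-- `CellR` as a concept -/
def cCell (P0 : Pg) (n z l r : ℕ) : Con :=
  cImp (cEq n (pF P0 n 0 z) (pA P0 n 1))
    (cAll [V (pB P0 n 1 0), cEq n (pF P0 n 1 0) (pF P0 n 0 l), cEq n (pF P0 n 1 1) (pF P0 n 0 r)])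

/-- `KRule` as a concept -/
def cRule (P0 : Pg) (n : ℕ) : Kd → Con
  | .ev .id => cEq n (pF P0 n 0 3) (pF P0 n 0 2)
  | .ev .nil => cImp (cEq n (pF P0 n 0 3) (pA P0 n 1)) (.neg (V (pB P0 n 1 0)))
  | .ev .left => cImp (cEq n (pF P0 n 0 2) (pA P0 n 1))
      (cOr (.inter (V (pB P0 n 1 0)) (cEq n (pF P0 n 0 3) (pF P0 n 1 0)))
        (.inter (.neg (V (pB P0 n 1 0))) (cEq n (pF P0 n 0 3) (pF P0 n 0 2))))
  | .ev .right => cImp (cEq n (pF P0 n 0 2) (pA P0 n 1))
      (cOr (.inter (V (pB P0 n 1 0)) (cEq n (pF P0 n 0 3) (pF P0 n 1 1)))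
        (.inter (.neg (V (pB P0 n 1 0))) (cEq n (pF P0 n 0 3) (pF P0 n 0 2))))
  | .ev (.node f g) => cAll [cCell P0 n 3 5 6, cCl P0 n 12 (.ev f) 2 5, cCl P0 n 13 (.ev g) 2 6]
  | .ev (.comp f g) => cAll [cCl P0 n 12 (.ev g) 2 5, cCl P0 n 13 (.ev f) 5 3]
  | .ev (.recur g h) =>
      .inter (cImp (cEq n (pF P0 n 0 2) (pA P0 n 1))
        (cOr (cAll [V (pB P0 n 1 0), cEq n (pF P0 n 0 5) (pF P0 n 1 0),
            cEq n (pF P0 n 0 6) (pF P0 n 1 1)])
          (cAll [.neg (V (pB P0 n 1 0)), cEq n (pF P0 n 0 5) (pF P0 n 0 2),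
            cEq n (pF P0 n 0 6) (pF P0 n 0 2)])))
        (cClR P0 n 12 (.rc g h) 5 6 3)
  | .rc g h => cAll [
      cImp (cEq n (pF P0 n 0 2) (pA P0 n 1)) (.inter (cIff (V (pB P0 n 0 1)) (V (pB P0 n 1 0)))
        (cImp (V (pB P0 n 0 1)) (.inter (cEq n (pF P0 n 0 5) (pF P0 n 1 0))
          (cEq n (pF P0 n 0 6) (pF P0 n 1 1))))),
      cImp (.neg (V (pB P0 n 0 1))) (cCl P0 n 12 (.ev g) 4 3),
      cImp (V (pB P0 n 0 1)) (cAll [cClR P0 n 12 (.rc g h) 4 5 7, cClR P0 n 13 (.rc g h) 4 6 8,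
        cCell P0 n 9 7 8, cCell P0 n 10 2 9, cCell P0 n 11 4 10, cCl P0 n 14 (.ev h) 11 3])]

/-- `InRule` as a concept -/
def cIn (P0 : Pg) (x : Word) (e m0 n : ℕ) : Con := cAll [
  cImp (cCst n (pA P0 n 0) []) (.neg (V (pB P0 n 0 0))),
  cImp (cCst n (pA P0 n 0) [true]) (cAll [V (pB P0 n 0 0), cCst n (pF P0 n 0 0) [],
    cCst n (pF P0 n 0 1) []]),
  cAll ((List.range x.length).map fun j => cImp (cCst n (pA P0 n 0) (hot (j + 1)))
    (cAll [V (pB P0 n 0 0),
      cCst n (pF P0 n 0 0) (bif x.reverse.getD j false then [true] else []),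
      cCst n (pF P0 n 0 1) (bif decide (j = 0) then [] else hot j)])),
  cImp (.inter (cReg e m0 n (pA P0 n 0)) (V (pB P0 n 0 0)))
    (.inter (cOr (cCst n (pF P0 n 0 0) []) (cCst n (pF P0 n 0 0) [true]))
      (cOr (cCst n (pF P0 n 0 1) []) (cReg e m0 n (pF P0 n 0 1)))),
  cImp (cCst n (pA P0 n 0) (hot (m0 + 1))) (cAll [V (pB P0 n 0 0),
    cCst n (pF P0 n 0 0) (bif decide (x.length = 0) then [] else hot x.length),
    cOr (cCst n (pF P0 n 0 1) []) (cReg e m0 n (pF P0 n 0 1))])]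

/-- `CpRule` as a concept -/
def cCp (P0 : Pg) (n : ℕ) : Con := cImp (V (pB P0 n 0 2)) (cAll [
  cImp (cEq n (pF P0 n 0 3) (pA P0 n 1)) (.inter (cIff (V (pB P0 n 1 0)) (V (pB P0 n 0 0)))
    (cImp (V (pB P0 n 0 0)) (.inter (cEq n (pF P0 n 0 5) (pF P0 n 1 0))
      (cEq n (pF P0 n 0 6) (pF P0 n 1 1))))),
  cImp (V (pB P0 n 0 0)) (cImp (cEq n (pF P0 n 0 0) (pA P0 n 1))
    (.inter (V (pB P0 n 1 2)) (cEq n (pF P0 n 1 3) (pF P0 n 0 5)))),
  cImp (V (pB P0 n 0 0)) (cImp (cEq n (pF P0 n 0 1) (pA P0 n 1))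
    (.inter (V (pB P0 n 1 2)) (cEq n (pF P0 n 1 3) (pF P0 n 0 6))))])

/-- `FinRule` as a concept -/
def cFin (P0 : Pg) (m0 n : ℕ) : Con :=
  cImp (cCst n (pA P0 n 0) (List.replicate n true)) (cAll [cCl P0 n 12 (.ev P0) 6 5,
    cImp (cEq n (pF P0 n 0 5) (pA P0 n 1)) (V (pB P0 n 1 0)),
    cImp (cCst n (pA P0 n 1) (hot (m0 + 1)))
      (.inter (V (pB P0 n 1 2)) (cEq n (pF P0 n 1 3) (pF P0 n 0 6)))])

/-- all rules as a concept -/
def cPhi (P0 : Pg) (x : Word) (e m0 n : ℕ) : Con := cAll [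
  cIn P0 x e m0 n,
  cImp (V (pB P0 n 0 0)) (.inter (cLt n (pF P0 n 0 0) (pA P0 n 0))
    (cLt n (pF P0 n 0 1) (pA P0 n 0))),
  cCp P0 n, cFin P0 m0 n,
  cAll ((kds P0).map fun k => cImp (V (pB P0 n 0 (kb P0 k))) (cRule P0 n k))]

/-- the address of the side `s` -/
def dA (P0 : Pg) (n : ℕ) (β : ℕ → Bool) (s : ℕ) : ℕ := num β (pA P0 n s) n

/-- the label of the side `s` -/
def dL (P0 : Pg) (n : ℕ) (β : ℕ → Bool) (s : ℕ) : Lb where
  fld j := num β (pF P0 n s j) n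
  bit b := β (pB P0 n s b)

end Pool.Agent.Lib.MP_bb9e9d_lc
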