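import Pool.Agent.Lib.MP_bb9e9d_lc.Hard.Form

/-! # Semantics of the concepts, 1: numbers -/

namespace Pool.Agent.Lib.MP_bb9e9d_lc

open MP_634427_lc

variable {β : ℕ → Bool}

@[simp] theorem evb_V (v : ℕ) : evb β (V v) = β v := by
  have h1 : (2 * v + 1) % 2 = 1 := by omega
  have h2 : (2 * v + 1) / 2 = v := by omega
  show (!false && decide ((2 * v + 1) % 2 = 1) && β ((2 * v + 1) / 2)) = β v
  rw [h1, h2]
  simp

@[simp] theorem evb_cOr (a b : Con) : evb β (cOr a b) = (evb β a || evb β b) := by
  show (!(!evb β a && !evb β b)) = (evb β a || evb β b)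
  cases evb β a <;> cases evb β b <;> rfl

theorem evb_cImp (a b : Con) : evb β (cImp a b) = true ↔ (evb β a = true → evb β b = true) := by
  show (!(evb β a && !evb β b)) = true ↔ (evb β a = true → evb β b = true)
  cases evb β a <;> cases evb β b <;> simp

theorem evb_cIff (a b : Con) : evb β (cIff a b) = true ↔ evb β a = evb β b := by
  show (evb β (cImp a b) && evb β (cImp b a)) = true ↔ _
  rw [Bool.and_eq_true, evb_cImp, evb_cImp]
  cases evb β a <;> cases evb β b <;> simp

theorem evb_cAll (l : List Con) : evb β (cAll l) = true ↔ ∀ a ∈ l, evb β a = true := by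
  induction l with
  | nil =>
    constructor
    · intro _ a ha
      cases ha
    · intro _
      rfl
  | cons a l ih =>
    show (evb β a && evb β (cAll l)) = true ↔ _
    rw [Bool.and_eq_true, ih, List.forall_mem_cons]

private lemma FormA_succ (A n : ℕ) :
    num β A (n + 1) = num β A n + if β (A + n) then 2 ^ n else 0 := by
  unfold num
  rw [Finset.sum_range_succ]

theorem num_lt (A n : ℕ) : num β A n < 2 ^ n := by
  induction n with
  | zero => simp [num]
  | succ n ih =>
    rw [FormA_succ, pow_succ]
    split_ifs <;> omega

/-- Proof: `Nat.testBit` of the sum. -/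
theorem testBit_num (A n t : ℕ) : (num β A n).testBit t = (decide (t < n) && β (A + t)) := by
  induction n with
  | zero => simp [num]
  | succ n ih =>
    have h1 : num β A (n + 1) = 2 ^ n * (if β (A + n) then 1 else 0) ||| num β A n := by
      rw [← Nat.two_pow_add_eq_or_of_lt (num_lt A n), FormA_succ, add_comm]
      split_ifs <;> simp
    rw [h1, Nat.testBit_or, ih]
    split_ifs with h
    · rw [mul_one, Nat.testBit_two_pow]
      rcases lt_trichotomy t n with ht | ht | ht
      · have e1 : t < n + 1 := by omega
        simp [ht, ht.ne', e1]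
      · subst ht
        simp [h]
      · have e1 : ¬ t < n + 1 := by omega
        have e2 : ¬ t < n := by omega
        simp [ht.ne, e1, e2]
    · rw [mul_zero, Nat.zero_testBit, Bool.false_or]
      rcases lt_trichotomy t n with ht | ht | ht
      · have e1 : t < n + 1 := by omega
        simp [ht, e1]
      · subst ht
        simp [h]
      · have e1 : ¬ t < n + 1 := by omega
        have e2 : ¬ t < n := by omega
        simp [e1, e2]

private lemma FormA_eq {β' : ℕ → Bool} (n A B : ℕ) :
    num β A n = num β' B n ↔ ∀ t < n, β (A + t) = β' (B + t) := by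
  constructor
  · intro h t ht
    have h1 := congrArg (fun x => x.testBit t) h
    simp only [testBit_num, ht, decide_true, Bool.true_and] at h1
    exact h1
  · intro h
    unfold num
    refine Finset.sum_congr rfl fun t ht => ?_
    rw [h t (Finset.mem_range.1 ht)]

theorem evb_cEq (n A B : ℕ) : evb β (cEq n A B) = true ↔ num β A n = num β B n := by
  unfold cEq
  rw [evb_cAll, FormA_eq]
  simp only [List.mem_map, List.mem_range, forall_exists_index, and_imp, forall_apply_eq_imp_iff₂,
    evb_cIff, evb_V]

/-- Proof: induction on `n` (`List.range_succ`). -/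
theorem evb_cLt (n A B : ℕ) : evb β (cLt n A B) = true ↔ num β A n < num β B n := by
  induction n with
  | zero =>
    show false = true ↔ num β A 0 < num β B 0
    simp [num]
  | succ n ih =>
    have h1 : cLt (n + 1) A B = cOr (.inter (.neg (V (A + n))) (V (B + n)))
        (.inter (cIff (V (A + n)) (V (B + n))) (cLt n A B)) := by
      unfold cLt
      rw [List.range_succ, List.foldl_append]
      rfl
    rw [h1, evb_cOr, Bool.or_eq_true]
    have h2 : evb β (.inter (.neg (V (A + n))) (V (B + n))) = true ↔
        β (A + n) = false ∧ β (B + n) = true := by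
      show (!evb β (V (A + n)) && evb β (V (B + n))) = true ↔ _
      rw [evb_V, evb_V]
      cases β (A + n) <;> cases β (B + n) <;> simp
    have h3 : evb β (.inter (cIff (V (A + n)) (V (B + n))) (cLt n A B)) = true ↔
        β (A + n) = β (B + n) ∧ num β A n < num β B n := by
      show (evb β (cIff (V (A + n)) (V (B + n))) && evb β (cLt n A B)) = true ↔ _
      rw [Bool.and_eq_true, evb_cIff, ih, evb_V, evb_V]
    rw [h2, h3, FormA_succ, FormA_succ]
    have hA := num_lt (β := β) A n
    have hB := num_lt (β := β) B n
    cases β (A + n) <;> cases β (B + n) <;> simp <;> omega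

private lemma FormA_bval (c : Word) : ∀ n, c.length ≤ n →
    bval c = num (fun t => c.getD t false) 0 n := by
  induction c with
  | nil =>
    intro n _
    simp [bval, num]
  | cons b l ih =>
    intro n hn
    rw [List.length_cons] at hn
    obtain ⟨n', rfl⟩ : ∃ n', n = n' + 1 := ⟨n - 1, by omega⟩
    have h1 := ih n' (by omega)
    unfold num at h1 ⊢
    rw [Finset.sum_range_succ', bval, h1, Finset.mul_sum, add_comm]
    congr 1
    refine Finset.sum_congr rfl fun t _ => ?_
    simp only [zero_add, List.getD_cons_succ]
    split_ifs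
    · rw [pow_succ, mul_comm]
    · rfl

theorem evb_cCst (n A : ℕ) (c : Word) (hc : c.length ≤ n) :
    evb β (cCst n A c) = true ↔ num β A n = bval c := by
  rw [FormA_bval c n hc, FormA_eq]
  unfold cCst
  rw [evb_cAll]
  simp only [List.mem_map, List.mem_range, forall_exists_index, and_imp, forall_apply_eq_imp_iff₂,
    zero_add]
  refine forall₂_congr fun t _ => ?_
  cases c.getD t false
  · show (!evb β (V (A + t))) = true ↔ _
    rw [evb_V]
    simp
  · show evb β (V (A + t)) = true ↔ _
    rw [evb_V]

theorem bval_hot (j : ℕ) : bval (hot j) = 2 ^ j := by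
  induction j with
  | zero => rfl
  | succ j ih =>
    have h1 : hot (j + 1) = false :: hot j := rfl
    rw [h1, bval, ih, pow_succ]
    simp [mul_comm]

theorem bval_ones (n : ℕ) : bval (List.replicate n true) = 2 ^ n - 1 := by
  induction n with
  | zero => rfl
  | succ n ih =>
    rw [List.replicate_succ, bval, ih, pow_succ]
    have := Nat.one_le_two_pow (n := n)
    simp only [if_true]
    omega

theorem evb_cReg {e m0 n : ℕ} (he : e ≤ m0) (hn : m0 < n) (A : ℕ) :
    evb β (cReg e m0 n A) = true ↔ InReg e m0 (num β A n) := by
  have h1 : evb β (cReg e m0 n A) = true ↔ ∀ t < n, e ≤ t → β (A + t) = decide (t = m0) := by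
    unfold cReg
    rw [evb_cAll]
    simp only [List.mem_map, List.mem_range, forall_exists_index, and_imp, forall_apply_eq_imp_iff₂]
    refine forall₂_congr fun t _ => ?_
    by_cases h2 : t < e
    · have h3 : ¬ e ≤ t := by omega
      simp only [h2, decide_true, cond_true, h3, false_imp_iff, iff_true]
      rfl
    · have h3 : e ≤ t := by omega
      simp only [h2, decide_false, cond_false, h3, true_imp_iff]
      by_cases h4 : t = m0
      · simp [h4]
      · simp only [h4, decide_false, cond_false]
        show (!evb β (V (A + t))) = true ↔ _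
        rw [evb_V]
        simp
  rw [h1]
  have hpow : 2 ^ e ≤ 2 ^ m0 := Nat.pow_le_pow_right (by norm_num) he
  unfold InReg
  constructor
  · intro h
    have h2 : num β A n = 2 ^ m0 * 1 ||| num β A e := by
      apply Nat.eq_of_testBit_eq
      intro t
      rw [Nat.testBit_or, testBit_num, testBit_num, mul_one, Nat.testBit_two_pow]
      by_cases ht : t < n
      · by_cases hte : t < e
        · have h3 : m0 ≠ t := by omega
          simp [ht, hte, h3]
        · rw [h t ht (by omega)]
          simp [ht, hte, eq_comm]
      · have h3 : m0 ≠ t := by omega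
        have h4 : ¬ t < e := by omega
        simp [ht, h3, h4]
    have hlt := num_lt (β := β) A e
    rw [← Nat.two_pow_add_eq_or_of_lt (hlt.trans_le hpow), mul_one] at h2
    omega
  · rintro ⟨h2, h3⟩ t ht hte
    obtain ⟨y, hy⟩ := Nat.exists_eq_add_of_le h2
    have hy2 : y < 2 ^ e := by omega
    have h4 : num β A n = 2 ^ m0 * 1 ||| y := by
      rw [← Nat.two_pow_add_eq_or_of_lt (hy2.trans_le hpow), mul_one]
      exact hy
    have h5 := congrArg (fun x => x.testBit t) h4
    simp only [testBit_num, ht, decide_true, Bool.true_and, Nat.testBit_or, mul_one,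
      Nat.testBit_two_pow] at h5
    rw [h5, Nat.testBit_lt_two_pow (hy2.trans_le (Nat.pow_le_pow_right (by norm_num) hte))]
    simp [eq_comm]

end Pool.Agent.Lib.MP_bb9e9d_lc
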