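import Pool.Agent.Lib.MP_bb9e9d_lc.Hard.FormA

/-! # Semantics of the concepts, 2: rules -/

namespace Pool.Agent.Lib.MP_bb9e9d_lc

open MP_634427_lc

variable {β : ℕ → Bool} {P0 : Pg} {n : ℕ}

private theorem FormB_inter (a b : Con) :
    evb β (.inter a b) = true ↔ evb β a = true ∧ evb β b = true := by
  simp [evb]

private theorem FormB_neg (a : Con) : evb β (.neg a) = true ↔ evb β a = false := by
  simp [evb]

private theorem FormB_or (a b : Con) :
    evb β (cOr a b) = true ↔ evb β a = true ∨ evb β b = true := by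
  simp

theorem evb_cCl (p : ℕ) (k : Kd) (i o : ℕ) : evb β (cCl P0 n p k i o) = true ↔
    Cl P0 (dA P0 n β 0) (dL P0 n β 0) (dA P0 n β 1) (dL P0 n β 1) p k i o := by
  simp [cCl, FormB_inter, evb_cImp, evb_cAll, evb_cLt, evb_cEq, Cl, dA, dL]

theorem evb_cClR (p : ℕ) (k : Kd) (w i o : ℕ) : evb β (cClR P0 n p k w i o) = true ↔
    ClR P0 (dA P0 n β 0) (dL P0 n β 0) (dA P0 n β 1) (dL P0 n β 1) p k w i o := by
  simp [cClR, FormB_inter, evb_cImp, evb_cAll, evb_cLt, evb_cEq, ClR, dA, dL]

theorem evb_cCell (z l r : ℕ) : evb β (cCell P0 n z l r) = true ↔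
    CellR (dL P0 n β 0) (dA P0 n β 1) (dL P0 n β 1) z l r := by
  simp [cCell, evb_cImp, evb_cAll, evb_cEq, CellR, dA, dL]

/-- Proof: cases for `k`. -/
theorem evb_cRule (k : Kd) : evb β (cRule P0 n k) = true ↔
    KRule P0 (dA P0 n β 0) (dL P0 n β 0) (dA P0 n β 1) (dL P0 n β 1) k := by
  rcases k with q | ⟨g, h⟩
  · cases q with
    | id => simp [cRule, KRule, evb_cEq, dL]
    | nil => simp [cRule, KRule, evb_cImp, evb_cEq, FormB_neg, dA, dL]
    | left =>
      simp only [cRule, KRule, evb_cImp, evb_cEq, FormB_neg, FormB_or, FormB_inter, evb_V, dA, dL]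
    | right =>
      simp only [cRule, KRule, evb_cImp, evb_cEq, FormB_neg, FormB_or, FormB_inter, evb_V, dA, dL]
    | node f g =>
      simp [cRule, KRule, evb_cAll, evb_cCell, evb_cCl]
    | comp f g =>
      simp [cRule, KRule, evb_cAll, evb_cCl]
    | recur g h =>
      simp only [cRule, KRule, FormB_inter, evb_cImp, evb_cEq, FormB_or, evb_cAll, evb_cClR,
        List.mem_cons, List.not_mem_nil, or_false, forall_eq_or_imp, forall_eq, FormB_neg, evb_V]
      simp only [dA, dL]
  · simp only [cRule, KRule, FormB_inter, evb_cImp, evb_cEq, evb_cIff, evb_cAll, evb_cClR, evb_cCl,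
      evb_cCell, List.mem_cons, List.not_mem_nil, or_false, forall_eq_or_imp, forall_eq, FormB_neg,
      evb_V]
    simp only [dA, dL]

theorem evb_cCp : evb β (cCp P0 n) = true ↔
    CpRule (dL P0 n β 0) (dA P0 n β 1) (dL P0 n β 1) := by
  simp only [cCp, CpRule, FormB_inter, evb_cImp, evb_cEq, evb_cIff, evb_cAll, List.mem_cons,
    List.not_mem_nil, or_false, forall_eq_or_imp, forall_eq, evb_V]
  simp only [dA, dL]

theorem evb_cFin {m0 : ℕ} (hm : m0 + 1 < n) : evb β (cFin P0 m0 n) = true ↔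
    FinRule P0 m0 n (dA P0 n β 0) (dL P0 n β 0) (dA P0 n β 1) (dL P0 n β 1) := by
  have h1 : (List.replicate n true).length ≤ n := by simp
  have h2 : (hot (m0 + 1)).length ≤ n := by
    simp only [hot, List.length_append, List.length_replicate, List.length_cons, List.length_nil]
    omega
  simp only [cFin, FinRule, FormB_inter, evb_cImp, evb_cEq, evb_cAll, evb_cCst _ _ _ h1,
    evb_cCst _ _ _ h2, bval_ones, bval_hot, evb_cCl, List.mem_cons,
    List.not_mem_nil, or_false, forall_eq_or_imp, forall_eq, evb_V]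
  simp only [dA, dL]

end Pool.Agent.Lib.MP_bb9e9d_lc
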