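import Pool.Agent.Lib.MP_bb9e9d_lc.Hard.FormB
import Pool.Agent.Lib.MP_bb9e9d_lc.Hard.ProgA

/-! # Semantics of the concepts, 3 -/

namespace Pool.Agent.Lib.MP_bb9e9d_lc

open MP_634427_lc

variable {β : ℕ → Bool} {P0 : Pg} {n : ℕ}

private theorem fc_inter (a b : Con) :
    evb β (.inter a b) = true ↔ evb β a = true ∧ evb β b = true := by
  simp only [evb, Bool.and_eq_true]

private theorem fc_neg (a : Con) : evb β (.neg a) = true ↔ evb β a = false := by
  simp only [evb, Bool.not_eq_true']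

private theorem fc_or (a b : Con) :
    evb β (cOr a b) = true ↔ evb β a = true ∨ evb β b = true := by
  rw [evb_cOr, Bool.or_eq_true]

private theorem fc_cons (a : Con) (l : List Con) :
    evb β (cAll (a :: l)) = true ↔ evb β a = true ∧ evb β (cAll l) = true := by
  rw [evb_cAll, evb_cAll]
  simp only [List.mem_cons, forall_eq_or_imp]

private theorem fc_nil : evb β (cAll []) = true ↔ True := by
  rw [evb_cAll]
  simp

private theorem fc_map {α : Type} (l : List α) (f : α → Con) :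
    evb β (cAll (l.map f)) = true ↔ ∀ a ∈ l, evb β (f a) = true := by
  rw [evb_cAll]
  simp only [List.mem_map, forall_exists_index, and_imp, forall_apply_eq_imp_iff₂]

private theorem fc_hot_length (j : ℕ) : (hot j).length = j + 1 := by
  simp [hot]

private theorem fc_zero (n A : ℕ) : evb β (cCst n A []) = true ↔ num β A n = 0 :=
  evb_cCst n A [] (Nat.zero_le _)

private theorem fc_one {n : ℕ} (hn : 1 ≤ n) (A : ℕ) :
    evb β (cCst n A [true]) = true ↔ num β A n = 1 :=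
  evb_cCst n A [true] hn

private theorem fc_hot {n j : ℕ} (hj : j + 1 ≤ n) (A : ℕ) :
    evb β (cCst n A (hot j)) = true ↔ num β A n = 2 ^ j := by
  rw [evb_cCst n A (hot j) (by rw [fc_hot_length]; exact hj), bval_hot]

private theorem fc_bit {n : ℕ} (hn : 1 ≤ n) (A : ℕ) (c : Bool) :
    evb β (cCst n A (bif c then [true] else [])) = true ↔ num β A n = (if c then 1 else 0) := by
  cases c
  · exact fc_zero n A
  · exact fc_one hn A

private theorem fc_dhot {n j : ℕ} (hj : j + 1 ≤ n) (A : ℕ) :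
    evb β (cCst n A (bif decide (j = 0) then [] else hot j)) = true ↔
      num β A n = (if j = 0 then 0 else 2 ^ j) := by
  by_cases h : j = 0
  · rw [if_pos h, decide_eq_true h]
    exact fc_zero n A
  · rw [if_neg h, decide_eq_false h]
    exact fc_hot hj A

theorem evb_cIn {x : Word} {e m0 : ℕ} (hx : x.length < m0) (he : e ≤ m0) (hn : m0 + 1 < n) :
    evb β (cIn P0 x e m0 n) = true ↔ InRule x e m0 (dA P0 n β 0) (dL P0 n β 0) := by
  have hn1 : 1 ≤ n := by omega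
  have hhot : ∀ j < x.length, (evb β (cCst n (pA P0 n 0) (hot (j + 1))) = true ↔
      num β (pA P0 n 0) n = 2 ^ (j + 1)) := fun j hj => fc_hot (by omega) _
  have hd : ∀ j < x.length, (evb β (cCst n (pF P0 n 0 1) (bif decide (j = 0) then [] else hot j))
      = true ↔ num β (pF P0 n 0 1) n = (if j = 0 then 0 else 2 ^ j)) :=
    fun j hj => fc_dhot (by omega) _
  have hroot : evb β (cCst n (pA P0 n 0) (hot (m0 + 1))) = true ↔
      num β (pA P0 n 0) n = 2 ^ (m0 + 1) := fc_hot (by omega) _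
  have hxl : evb β (cCst n (pF P0 n 0 0) (bif decide (x.length = 0) then [] else hot x.length))
      = true ↔ num β (pF P0 n 0 0) n = (if x.length = 0 then 0 else 2 ^ x.length) :=
    fc_dhot (by omega) _
  have hm0 : m0 < n := by omega
  unfold cIn
  simp only [fc_cons, fc_nil, fc_map, List.mem_range, evb_cImp, fc_zero, fc_one hn1, fc_neg,
    evb_V, fc_inter, fc_or, evb_cReg he hm0, hroot, hxl, and_true, fc_bit hn1]
  constructor
  · rintro ⟨h1, h2, h3, h4, h5⟩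
    refine ⟨h1, h2, ?_, fun h h' => h4 ⟨h, h'⟩, h5⟩
    intro j hj ha
    obtain ⟨h6, h7, h8⟩ := h3 j hj ((hhot j hj).2 ha)
    exact ⟨h6, h7, (hd j hj).1 h8⟩
  · rintro ⟨h1, h2, h3, h4, h5⟩
    refine ⟨h1, h2, ?_, fun h => h4 h.1 h.2, h5⟩
    intro j hj ha
    obtain ⟨h6, h7, h8⟩ := h3 j hj ((hhot j hj).1 ha)
    exact ⟨h6, h7, (hd j hj).2 h8⟩

theorem evb_cPhi {x : Word} {e m0 : ℕ} (hx : x.length < m0) (he : e ≤ m0) (hn : m0 + 1 < n) :
    evb β (cPhi P0 x e m0 n) = true ↔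
      PairOk P0 x e m0 n (dA P0 n β 0) (dL P0 n β 0) (dA P0 n β 1) (dL P0 n β 1) := by
  unfold cPhi
  simp only [fc_cons, fc_nil, fc_map, evb_cIn hx he hn, evb_cImp, fc_inter, evb_V, evb_cLt,
    evb_cCp, evb_cFin hn, evb_cRule, and_true]
  constructor
  · rintro ⟨h1, h2, h3, h4, h5⟩
    exact ⟨h1, h2, h3, h4, h5⟩
  · rintro ⟨h1, h2, h3, h4, h5⟩
    exact ⟨h1, h2, h3, h4, h5⟩

section isBit

variable {M : ℕ}

private theorem ib_V {v : ℕ} (h : v < M) : IsBit M (V v) := by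
  refine ⟨rfl, ?_, ?_⟩
  · show (2 * v + 1) % 2 = 1
    omega
  · show (2 * v + 1) / 2 < M
    omega

private theorem ib_and {a b : Con} (ha : IsBit M a) (hb : IsBit M b) : IsBit M (.inter a b) :=
  ⟨ha, hb⟩

private theorem ib_neg {a : Con} (ha : IsBit M a) : IsBit M (.neg a) := ha

private theorem ib_or {a b : Con} (ha : IsBit M a) (hb : IsBit M b) : IsBit M (cOr a b) :=
  ⟨ha, hb⟩

private theorem ib_imp {a b : Con} (ha : IsBit M a) (hb : IsBit M b) : IsBit M (cImp a b) :=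
  ⟨ha, hb⟩

private theorem ib_iff {a b : Con} (ha : IsBit M a) (hb : IsBit M b) : IsBit M (cIff a b) :=
  ⟨⟨ha, hb⟩, ⟨hb, ha⟩⟩

private theorem ib_nil : IsBit M (cAll []) := trivial

private theorem ib_cons {a : Con} {l : List Con} (ha : IsBit M a) (hl : IsBit M (cAll l)) :
    IsBit M (cAll (a :: l)) := ⟨ha, hl⟩

private theorem ib_map {α : Type} (l : List α) (f : α → Con) (h : ∀ a ∈ l, IsBit M (f a)) :
    IsBit M (cAll (l.map f)) := by
  induction l with
  | nil => exact ib_nil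
  | cons a l ih =>
    exact ib_cons (h a List.mem_cons_self) (ih fun b hb => h b (List.mem_cons_of_mem _ hb))

private theorem ib_eq {n A B : ℕ} (hA : A + n ≤ M) (hB : B + n ≤ M) : IsBit M (cEq n A B) := by
  refine ib_map _ _ fun t ht => ?_
  rw [List.mem_range] at ht
  exact ib_iff (ib_V (by omega)) (ib_V (by omega))

private theorem ib_lt {n A B : ℕ} (hA : A + n ≤ M) (hB : B + n ≤ M) : IsBit M (cLt n A B) := by
  have key : ∀ (l : List ℕ) (r : Con), IsBit M r → (∀ t ∈ l, t < n) →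
      IsBit M (l.foldl (fun r t => cOr (.inter (.neg (V (A + t))) (V (B + t)))
        (.inter (cIff (V (A + t)) (V (B + t))) r)) r) := by
    intro l
    induction l with
    | nil => intro r hr _; exact hr
    | cons t l ih =>
      intro r hr hl
      have ht := hl t List.mem_cons_self
      refine ih _ ?_ fun t' ht' => hl t' (List.mem_cons_of_mem _ ht')
      have h1 : IsBit M (V (A + t)) := ib_V (by omega)
      have h2 : IsBit M (V (B + t)) := ib_V (by omega)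
      exact ib_or (ib_and (ib_neg h1) h2) (ib_and (ib_iff h1 h2) hr)
  exact key _ _ trivial fun t ht => List.mem_range.1 ht

private theorem ib_cst {n A : ℕ} (hA : A + n ≤ M) (c : Word) : IsBit M (cCst n A c) := by
  refine ib_map _ _ fun t ht => ?_
  rw [List.mem_range] at ht
  have h1 : IsBit M (V (A + t)) := ib_V (by omega)
  cases c.getD t false
  · exact ib_neg h1
  · exact h1

private theorem ib_reg {n A : ℕ} (hA : A + n ≤ M) (e m0 : ℕ) : IsBit M (cReg e m0 n A) := by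
  refine ib_map _ _ fun t ht => ?_
  rw [List.mem_range] at ht
  have h1 : IsBit M (V (A + t)) := ib_V (by omega)
  cases decide (t < e)
  · cases decide (t = m0)
    · exact ib_neg h1
    · exact h1
  · trivial

variable (hA0 : pA P0 n 0 + n ≤ M) (hA1 : pA P0 n 1 + n ≤ M)
  (hF0 : ∀ j < 15, pF P0 n 0 j + n ≤ M) (hF1 : ∀ j < 15, pF P0 n 1 j + n ≤ M)
  (hB0 : ∀ b < 3, pB P0 n 0 b < M) (hB1 : ∀ b < 3, pB P0 n 1 b < M)
  (hK0 : ∀ k ∈ kds P0, pB P0 n 0 (kb P0 k) < M) (hK1 : ∀ k ∈ kds P0, pB P0 n 1 (kb P0 k) < M)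

include hA0 hA1 hF0 hF1 hK1 in
private theorem ib_cl {p i o : ℕ} {k : Kd} (hp : p < 15) (hk : k ∈ kds P0) (hi : i < 15)
    (ho : o < 15) : IsBit M (cCl P0 n p k i o) :=
  ib_and (ib_lt (hF0 p hp) hA0) (ib_imp (ib_eq (hF0 p hp) hA1)
    (ib_cons (ib_V (hK1 k hk)) (ib_cons (ib_eq (hF1 2 (by omega)) (hF0 i hi))
      (ib_cons (ib_eq (hF1 3 (by omega)) (hF0 o ho)) ib_nil))))

include hA0 hA1 hF0 hF1 hK1 in
private theorem ib_clR {p w i o : ℕ} {k : Kd} (hp : p < 15) (hk : k ∈ kds P0) (hw : w < 15)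
    (hi : i < 15) (ho : o < 15) : IsBit M (cClR P0 n p k w i o) :=
  ib_and (ib_lt (hF0 p hp) hA0) (ib_imp (ib_eq (hF0 p hp) hA1)
    (ib_cons (ib_V (hK1 k hk)) (ib_cons (ib_eq (hF1 4 (by omega)) (hF0 w hw))
      (ib_cons (ib_eq (hF1 2 (by omega)) (hF0 i hi))
        (ib_cons (ib_eq (hF1 3 (by omega)) (hF0 o ho)) ib_nil)))))

include hA1 hF0 hF1 hB1 in
private theorem ib_cell {z l r : ℕ} (hz : z < 15) (hl : l < 15) (hr : r < 15) :
    IsBit M (cCell P0 n z l r) :=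
  ib_imp (ib_eq (hF0 z hz) hA1) (ib_cons (ib_V (hB1 0 (by omega)))
    (ib_cons (ib_eq (hF1 0 (by omega)) (hF0 l hl))
      (ib_cons (ib_eq (hF1 1 (by omega)) (hF0 r hr)) ib_nil)))

include hA0 hA1 hF0 hF1 hB0 hB1 hK1 in
private theorem ib_rule {k : Kd} (hk : k ∈ kds P0) : IsBit M (cRule P0 n k) := by
  obtain ⟨c1, c2, c3, c4, c5⟩ := kds_closed P0
  have f0 := hF0 0 (by omega)
  have f1 := hF0 1 (by omega)
  have f2 := hF0 2 (by omega)
  have f3 := hF0 3 (by omega)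
  have f5 := hF0 5 (by omega)
  have f6 := hF0 6 (by omega)
  have g0 := hF1 0 (by omega)
  have g1 := hF1 1 (by omega)
  have b1 := ib_V (hB0 1 (by omega))
  have d0 := ib_V (hB1 0 (by omega))
  match k, hk with
  | .ev .id, hk => exact ib_eq f3 f2
  | .ev .nil, hk => exact ib_imp (ib_eq f3 hA1) (ib_neg d0)
  | .ev .left, hk =>
    exact ib_imp (ib_eq f2 hA1) (ib_or (ib_and d0 (ib_eq f3 g0)) (ib_and (ib_neg d0) (ib_eq f3 f2)))
  | .ev .right, hk =>
    exact ib_imp (ib_eq f2 hA1) (ib_or (ib_and d0 (ib_eq f3 g1)) (ib_and (ib_neg d0) (ib_eq f3 f2)))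
  | .ev (.node f g), hk =>
    obtain ⟨m1, m2⟩ := c1 f g hk
    exact ib_cons (ib_cell hA1 hF0 hF1 hB1 (by omega) (by omega) (by omega))
      (ib_cons (ib_cl hA0 hA1 hF0 hF1 hK1 (by omega) m1 (by omega) (by omega))
        (ib_cons (ib_cl hA0 hA1 hF0 hF1 hK1 (by omega) m2 (by omega) (by omega)) ib_nil))
  | .ev (.comp f g), hk =>
    obtain ⟨m1, m2⟩ := c2 f g hk
    exact ib_cons (ib_cl hA0 hA1 hF0 hF1 hK1 (by omega) m2 (by omega) (by omega))
        (ib_cons (ib_cl hA0 hA1 hF0 hF1 hK1 (by omega) m1 (by omega) (by omega)) ib_nil)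
  | .ev (.recur g h), hk =>
    have m1 := c3 g h hk
    exact ib_and (ib_imp (ib_eq f2 hA1) (ib_or
      (ib_cons d0 (ib_cons (ib_eq f5 g0) (ib_cons (ib_eq f6 g1) ib_nil)))
      (ib_cons (ib_neg d0) (ib_cons (ib_eq f5 f2) (ib_cons (ib_eq f6 f2) ib_nil)))))
      (ib_clR hA0 hA1 hF0 hF1 hK1 (by omega) m1 (by omega) (by omega) (by omega))
  | .rc g h, hk =>
    obtain ⟨m1, m2⟩ := c4 g h hk
    exact ib_cons (ib_imp (ib_eq f2 hA1) (ib_and (ib_iff b1 d0)
        (ib_imp b1 (ib_and (ib_eq f5 g0) (ib_eq f6 g1)))))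
      (ib_cons (ib_imp (ib_neg b1)
        (ib_cl hA0 hA1 hF0 hF1 hK1 (by omega) m1 (by omega) (by omega)))
      (ib_cons (ib_imp b1 (ib_cons
        (ib_clR hA0 hA1 hF0 hF1 hK1 (by omega) hk (by omega) (by omega) (by omega))
        (ib_cons (ib_clR hA0 hA1 hF0 hF1 hK1 (by omega) hk (by omega) (by omega) (by omega))
        (ib_cons (ib_cell hA1 hF0 hF1 hB1 (by omega) (by omega) (by omega))
        (ib_cons (ib_cell hA1 hF0 hF1 hB1 (by omega) (by omega) (by omega))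
        (ib_cons (ib_cell hA1 hF0 hF1 hB1 (by omega) (by omega) (by omega))
        (ib_cons (ib_cl hA0 hA1 hF0 hF1 hK1 (by omega) m2 (by omega) (by omega)) ib_nil)))))))
        ib_nil))

include hA0 hF0 hB0 in
private theorem ib_in {x : Word} {e m0 : ℕ} : IsBit M (cIn P0 x e m0 n) := by
  have f0 := hF0 0 (by omega)
  have f1 := hF0 1 (by omega)
  have b0 := ib_V (hB0 0 (by omega))
  refine ib_cons (ib_imp (ib_cst hA0 _) (ib_neg b0)) (ib_cons (ib_imp (ib_cst hA0 _)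
    (ib_cons b0 (ib_cons (ib_cst f0 _) (ib_cons (ib_cst f1 _) ib_nil)))) (ib_cons ?_
    (ib_cons (ib_imp (ib_and (ib_reg hA0 _ _) b0) (ib_and (ib_or (ib_cst f0 _) (ib_cst f0 _))
      (ib_or (ib_cst f1 _) (ib_reg f1 _ _))))
      (ib_cons (ib_imp (ib_cst hA0 _) (ib_cons b0 (ib_cons (ib_cst f0 _)
        (ib_cons (ib_or (ib_cst f1 _) (ib_reg f1 _ _)) ib_nil)))) ib_nil))))
  exact ib_map _ _ fun j _ => ib_imp (ib_cst hA0 _)
    (ib_cons b0 (ib_cons (ib_cst f0 _) (ib_cons (ib_cst f1 _) ib_nil)))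

include hA1 hF0 hF1 hB0 hB1 in
private theorem ib_cp : IsBit M (cCp P0 n) := by
  have f0 := hF0 0 (by omega)
  have f1 := hF0 1 (by omega)
  have f3 := hF0 3 (by omega)
  have f5 := hF0 5 (by omega)
  have f6 := hF0 6 (by omega)
  have g0 := hF1 0 (by omega)
  have g1 := hF1 1 (by omega)
  have g3 := hF1 3 (by omega)
  have b0 := ib_V (hB0 0 (by omega))
  have b2 := ib_V (hB0 2 (by omega))
  have d0 := ib_V (hB1 0 (by omega))
  have d2 := ib_V (hB1 2 (by omega))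
  exact ib_imp b2 (ib_cons (ib_imp (ib_eq f3 hA1) (ib_and (ib_iff d0 b0)
    (ib_imp b0 (ib_and (ib_eq f5 g0) (ib_eq f6 g1)))))
    (ib_cons (ib_imp b0 (ib_imp (ib_eq f0 hA1) (ib_and d2 (ib_eq g3 f5))))
      (ib_cons (ib_imp b0 (ib_imp (ib_eq f1 hA1) (ib_and d2 (ib_eq g3 f6)))) ib_nil)))

include hA0 hA1 hF0 hF1 hB1 hK1 in
private theorem ib_fin {m0 : ℕ} : IsBit M (cFin P0 m0 n) := by
  obtain ⟨c1, c2, c3, c4, c5⟩ := kds_closed P0
  have f5 := hF0 5 (by omega)
  have f6 := hF0 6 (by omega)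
  have g3 := hF1 3 (by omega)
  have d0 := ib_V (hB1 0 (by omega))
  have d2 := ib_V (hB1 2 (by omega))
  exact ib_imp (ib_cst hA0 _) (ib_cons
    (ib_cl hA0 hA1 hF0 hF1 hK1 (by omega) c5 (by omega) (by omega))
    (ib_cons (ib_imp (ib_eq f5 hA1) d0)
      (ib_cons (ib_imp (ib_cst hA1 _) (ib_and d2 (ib_eq g3 f6))) ib_nil)))

end isBit

/-- Only the bits below `2 + 2 * qq P0 n` occur.  Proof: `pF P0 n s j + n ≤ pB P0 n s 0` for `j < 15`,
`kb P0 k < 3 + (kds P0).length` for `k ∈ kds P0` (and for the kinds on which they depend,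
`kds_closed`). -/
theorem isBit_cPhi {x : Word} {e m0 : ℕ} : IsBit (2 + 2 * qq P0 n) (cPhi P0 x e m0 n) := by
  have hq : 16 * n + (3 + (kds P0).length) = qq P0 n := rfl
  have hA0 : pA P0 n 0 + n ≤ 2 + 2 * qq P0 n := by
    unfold pA
    omega
  have hA1 : pA P0 n 1 + n ≤ 2 + 2 * qq P0 n := by
    unfold pA
    omega
  have hjn : ∀ j < 15, j * n ≤ 14 * n := fun j hj => Nat.mul_le_mul_right n (by omega)
  have hF0 : ∀ j < 15, pF P0 n 0 j + n ≤ 2 + 2 * qq P0 n := by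
    intro j hj
    have := hjn j hj
    unfold pF
    omega
  have hF1 : ∀ j < 15, pF P0 n 1 j + n ≤ 2 + 2 * qq P0 n := by
    intro j hj
    have := hjn j hj
    unfold pF
    omega
  have hB0 : ∀ b < 3, pB P0 n 0 b < 2 + 2 * qq P0 n := by
    intro b hb
    unfold pB
    omega
  have hB1 : ∀ b < 3, pB P0 n 1 b < 2 + 2 * qq P0 n := by
    intro b hb
    unfold pB
    omega
  have hkb : ∀ k ∈ kds P0, kb P0 k < 3 + (kds P0).length := by
    intro k hk
    have := List.idxOf_lt_length_of_mem hk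
    unfold kb
    omega
  have hK0 : ∀ k ∈ kds P0, pB P0 n 0 (kb P0 k) < 2 + 2 * qq P0 n := by
    intro k hk
    have := hkb k hk
    unfold pB
    omega
  have hK1 : ∀ k ∈ kds P0, pB P0 n 1 (kb P0 k) < 2 + 2 * qq P0 n := by
    intro k hk
    have := hkb k hk
    unfold pB
    omega
  refine ib_cons (ib_in hA0 hF0 hB0) (ib_cons (ib_imp (ib_V (hB0 0 (by omega)))
    (ib_and (ib_lt (hF0 0 (by omega)) hA0) (ib_lt (hF0 1 (by omega)) hA0)))
    (ib_cons (ib_cp hA1 hF0 hF1 hB0 hB1) (ib_cons (ib_fin hA0 hA1 hF0 hF1 hB1 hK1)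
      (ib_cons ?_ ib_nil))))
  exact ib_map _ _ fun k hk => ib_imp (ib_V (hK0 k hk)) (ib_rule hA0 hA1 hF0 hF1 hB0 hB1 hK1 hk)

end Pool.Agent.Lib.MP_bb9e9d_lc
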