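import Pool.Agent.Lib.MP_bb9e9d_lc.Hard.Form

/-!
# The knowledge base for a succinct pair constraint

`n` address bits, `q ≥ n` data bits (the address and the label), `φ` a concept built from the bits
`V v`, `v < 2 + 2 q`.  Concept names: `0` is the nominal `O`, `1` is `Z`, `2 + t` is the data bit `t`.
The roles `2 v`, `2 v + 1` express the negative and the positive value of the bit `v`; the roles
`2 (2 + 2 q)`, `2 (2 + 2 q) + 1` point to the two witnesses.
-/

namespace Pool.Agent.Lib.MP_bb9e9d_lc

open MP_634427_lc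

/-- the data bits from `0` to `q - 1` agree with the bits from `B` on -/
def cMatch (q B : ℕ) : Con := cAll ((List.range q).map fun t => cIff (.name (2 + t)) (V (B + t)))

/-- the inclusions for the bit `v` -/
def bitCI (v : ℕ) : List (Con × Con) :=
  [(.top, cOr (.ex (false, 2 * v)) (.ex (false, 2 * v + 1))),
    (.ex (true, 2 * v), .name 0), (.ex (true, 2 * v + 1), .name 0),
    (.inter (.ex (true, 2 * v)) (.ex (true, 2 * v + 1)), .bot)]

/-- the other inclusions -/
def mainCI (n q : ℕ) (φ : Con) : List (Con × Con) :=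
  [(.name 1, .name 0), (.inter (.name 0) (.neg (.name 1)), V 0),
    (.inter (.inter (V 0) (.neg (V 1))) (cMatch n 2), .bot),
    (.inter (.inter (V 0) (V 1)) φ, .bot),
    (.inter (.inter (V 0) (V 1)) (.name 0),
      .inter (.ex (false, 2 * (2 + 2 * q))) (.ex (false, 2 * (2 + 2 * q) + 1))),
    (.ex (true, 2 * (2 + 2 * q)), cMatch q 2),
    (.ex (true, 2 * (2 + 2 * q) + 1), cMatch q (2 + q))]

/-- the input of SAT -/
def kbInst (n q : ℕ) (φ : Con) : Inst where
  C0 := .name 1
  cis := (List.range (2 + 2 * q)).flatMap bitCI ++ mainCI n q φ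
  funcs := []
  cass := [(0, 0)]
  rass := []
  mins := [0, 1]
  prio := [(0, 1)]
  fixC := (List.range q).map fun t => 2 + t
  fixR := []

/-- the bits of a pair of data -/
def tup (q : ℕ) (d d' : ℕ → Bool) (v : ℕ) : Bool :=
  if v < 2 then true else if v < 2 + q then d (v - 2) else d' (v - 2 - q)

/-- there is a labelling of all addresses such that all pairs satisfy the constraint -/
def HasLab (n q : ℕ) (φ : Con) : Prop :=
  ∃ D : (Fin n → Bool) → ℕ → Bool, (∀ a (t : Fin n), D a t = a t) ∧
    ∀ a a', evb (tup q (D a) (D a')) φ = true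

variable {Δ : Type}

/-- all elements see the same bits `β` in `I` -/
def Sees (q : ℕ) (I : Interp Δ) (β : ℕ → Bool) : Prop :=
  ∀ v < 2 + 2 * q, ∀ d, ((∃ e, (d, e) ∈ I.role (2 * v + 1)) ↔ β v = true) ∧
    ((∃ e, (d, e) ∈ I.role (2 * v)) ↔ β v = false)

/-- the inclusions for all bits hold -/
def BitsOk (q : ℕ) (I : Interp Δ) : Prop :=
  ∀ p ∈ (List.range (2 + 2 * q)).flatMap bitCI, p.1.ext I ⊆ p.2.ext I

/-- the data of an element -/
noncomputable def dat (I : Interp Δ) (d : Δ) (t : ℕ) : Bool :=
  @decide (d ∈ I.con (2 + t)) (Classical.dec _)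

/-- the attack succeeds for the given fixed parts: an address is missing or a pair of elements
violates the constraint -/
def Attack (n q : ℕ) (φ : Con) (I : Interp Δ) : Prop :=
  (∃ a : Fin n → Bool, ∀ d, ∃ t : Fin n, dat I d t ≠ a t) ∨
    ∃ d d', evb (tup q (dat I d) (dat I d')) φ = false

end Pool.Agent.Lib.MP_bb9e9d_lc
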