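import Pool.Agent.Lib.MP_bb9e9d_lc.Hard.KB
import Pool.Agent.Lib.MP_bb9e9d_lc.Hard.FormA

/-! # Interpretations of the knowledge base: bits -/

namespace Pool.Agent.Lib.MP_bb9e9d_lc

open MP_634427_lc

variable {Δ : Type} {n q : ℕ} {φ : Con} {I J : Interp Δ}

theorem kba_mem_cOr {a b : Con} (d : Δ) :
    d ∈ (cOr a b).ext I ↔ d ∈ a.ext I ∨ d ∈ b.ext I := by
  simp only [cOr, Con.ext, Set.mem_compl_iff, Set.mem_inter_iff]
  tauto

theorem kba_mem_cImp {a b : Con} (d : Δ) :
    d ∈ (cImp a b).ext I ↔ (d ∈ a.ext I → d ∈ b.ext I) := by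
  simp only [cImp, Con.ext, Set.mem_compl_iff, Set.mem_inter_iff]
  tauto

theorem kba_mem_cIff {a b : Con} (d : Δ) :
    d ∈ (cIff a b).ext I ↔ (d ∈ a.ext I ↔ d ∈ b.ext I) := by
  simp only [cIff, Con.ext, Set.mem_inter_iff, kba_mem_cImp]
  tauto

theorem kba_mem_cAll (l : List Con) (d : Δ) :
    d ∈ (cAll l).ext I ↔ ∀ a ∈ l, d ∈ a.ext I := by
  induction l with
  | nil => simp [cAll, Con.ext]
  | cons a l ih =>
    have h1 : cAll (a :: l) = .inter a (cAll l) := rfl
    rw [h1]
    simp only [Con.ext, Set.mem_inter_iff, ih, List.mem_cons, forall_eq_or_imp]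

theorem kba_mem_ex_false {P : ℕ} (d : Δ) :
    d ∈ (Con.ex (false, P)).ext I ↔ ∃ e, (d, e) ∈ I.role P := by
  simp [Con.ext, Interp.Rel]

theorem kba_mem_ex_true {P : ℕ} (d : Δ) :
    d ∈ (Con.ex (true, P)).ext I ↔ ∃ e, (e, d) ∈ I.role P := by
  simp [Con.ext, Interp.Rel]

theorem kba_bitsOk_iff : BitsOk q I ↔ ∀ v < 2 + 2 * q,
    (∀ d, (∃ e, (d, e) ∈ I.role (2 * v)) ∨ (∃ e, (d, e) ∈ I.role (2 * v + 1))) ∧
    (∀ d e, (e, d) ∈ I.role (2 * v) → d ∈ I.con 0) ∧
    (∀ d e, (e, d) ∈ I.role (2 * v + 1) → d ∈ I.con 0) ∧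
    (∀ d e e', (e, d) ∈ I.role (2 * v) → (e', d) ∈ I.role (2 * v + 1) → False) := by
  unfold BitsOk
  constructor
  · intro h v hv
    have h' : ∀ p ∈ bitCI v, p.1.ext I ⊆ p.2.ext I := fun p hp =>
      h p (List.mem_flatMap.2 ⟨v, List.mem_range.2 hv, hp⟩)
    simp only [bitCI, List.mem_cons, List.not_mem_nil, or_false, forall_eq_or_imp,
      forall_eq] at h'
    obtain ⟨h1, h2, h3, h4⟩ := h'
    refine ⟨fun d => ?_, fun d e hde => ?_, fun d e hde => ?_, fun d e e' he he' => ?_⟩
    · have := h1 (show d ∈ Con.top.ext I from trivial)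
      rw [kba_mem_cOr, kba_mem_ex_false, kba_mem_ex_false] at this
      exact this
    · exact h2 ((kba_mem_ex_true d).2 ⟨e, hde⟩)
    · exact h3 ((kba_mem_ex_true d).2 ⟨e, hde⟩)
    · exact h4 ⟨(kba_mem_ex_true d).2 ⟨e, he⟩, (kba_mem_ex_true d).2 ⟨e', he'⟩⟩
  · intro h p hp
    obtain ⟨v, hv, hp⟩ := List.mem_flatMap.1 hp
    rw [List.mem_range] at hv
    obtain ⟨h1, h2, h3, h4⟩ := h v hv
    simp only [bitCI, List.mem_cons, List.not_mem_nil, or_false] at hp
    rcases hp with rfl | rfl | rfl | rfl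
    · intro d _
      rw [kba_mem_cOr, kba_mem_ex_false, kba_mem_ex_false]
      exact h1 d
    · intro d hd
      obtain ⟨e, he⟩ := (kba_mem_ex_true d).1 hd
      exact h2 d e he
    · intro d hd
      obtain ⟨e, he⟩ := (kba_mem_ex_true d).1 hd
      exact h3 d e he
    · intro d hd
      obtain ⟨e, he⟩ := (kba_mem_ex_true d).1 hd.1
      obtain ⟨e', he'⟩ := (kba_mem_ex_true d).1 hd.2
      exact (h4 d e e' he he').elim

/-- Proof: `I.con 0 = {o}`.  By the first inclusion every element is in the domain of one of the two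
roles; the ranges are contained in `{o}` and disjoint; so one of the two roles is empty. -/
theorem exists_sees {o : Δ} (ho : I.con 0 = {o}) (h : BitsOk q I) : ∃ β, Sees q I β := by
  classical
  refine ⟨fun v => decide (∃ d e, (d, e) ∈ I.role (2 * v + 1)), ?_⟩
  intro v hv d
  obtain ⟨h1, h2, h3, h4⟩ := kba_bitsOk_iff.1 h v hv
  rw [ho] at h2 h3
  have key : ∀ d e d' e', (d, e) ∈ I.role (2 * v + 1) → (d', e') ∈ I.role (2 * v) → False := by
    intro d e d' e' hde hde'
    have e1 : e = o := h3 e d hde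
    have e2 : e' = o := h2 e' d' hde'
    subst e1
    subst e2
    exact h4 _ _ _ hde' hde
  constructor
  · simp only [decide_eq_true_eq]
    constructor
    · rintro ⟨e, he⟩
      exact ⟨d, e, he⟩
    · rintro ⟨d', e', he'⟩
      rcases h1 d with ⟨e, he⟩ | ⟨e, he⟩
      · exact (key _ _ _ _ he' he).elim
      · exact ⟨e, he⟩
  · simp only [decide_eq_false_iff_not]
    constructor
    · rintro ⟨e, he⟩ ⟨d', e', he'⟩
      exact key _ _ _ _ he' he
    · intro hn
      rcases h1 d with ⟨e, he⟩ | ⟨e, he⟩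
      · exact ⟨e, he⟩
      · exact (hn ⟨d, e, he⟩).elim

/-- Proof: induction on `C`. -/
theorem ext_isBit {β : ℕ → Bool} (h : Sees q I β) {C : Con} (hC : IsBit (2 + 2 * q) C) (d : Δ) :
    d ∈ C.ext I ↔ evb β C = true := by
  induction C with
  | top => simp [Con.ext, evb]
  | bot => simp [Con.ext, evb]
  | name A => exact hC.elim
  | ex R =>
    obtain ⟨R1, R2⟩ := R
    obtain ⟨hR1, hR2, hR3⟩ := hC
    simp only at hR1 hR2 hR3
    subst hR1
    rw [kba_mem_ex_false]
    have h2 : R2 = 2 * (R2 / 2) + 1 := by omega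
    have h3 := (h (R2 / 2) hR3 d).1
    rw [← h2] at h3
    rw [h3]
    simp [evb, hR2]
  | neg C ih =>
    have := ih hC
    simp only [Con.ext, Set.mem_compl_iff, this, evb]
    cases evb β C <;> simp
  | inter C D ihC ihD =>
    have h1 := ihC hC.1
    have h2 := ihD hC.2
    simp only [Con.ext, Set.mem_inter_iff, h1, h2, evb, Bool.and_eq_true]

theorem kba_ext_V {β : ℕ → Bool} (h : Sees q I β) {v : ℕ} (hv : v < 2 + 2 * q) (d : Δ) :
    d ∈ (V v).ext I ↔ β v = true := by
  unfold V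
  rw [kba_mem_ex_false]
  exact (h v hv d).1

theorem kba_dat_eq (I : Interp Δ) (d : Δ) (t : ℕ) : dat I d t = true ↔ d ∈ I.con (2 + t) := by
  unfold dat
  exact @decide_eq_true_iff _ (Classical.dec _)

/-- Proof: `cAll`, `cIff` semantically. -/
theorem ext_cMatch {β : ℕ → Bool} (h : Sees q I β) {r B : ℕ} (hB : B + r ≤ 2 + 2 * q) (d : Δ) :
    d ∈ (cMatch r B).ext I ↔ ∀ t < r, dat I d t = β (B + t) := by
  unfold cMatch
  rw [kba_mem_cAll]
  simp only [List.mem_map, List.mem_range, forall_exists_index, and_imp]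
  constructor
  · intro h1 t ht
    have h2 := h1 _ t ht rfl
    rw [kba_mem_cIff, kba_ext_V h (by omega)] at h2
    have h3 : d ∈ (Con.name (2 + t)).ext I ↔ dat I d t = true := (kba_dat_eq I d t).symm
    rw [h3] at h2
    exact Bool.eq_iff_iff.2 h2
  · rintro h1 _ t ht rfl
    rw [kba_mem_cIff, kba_ext_V h (by omega)]
    have h3 : d ∈ (Con.name (2 + t)).ext I ↔ dat I d t = true := (kba_dat_eq I d t).symm
    rw [h3, h1 t ht]

/-- An interpretation with prescribed bits, witnesses and control names: the role for the bit `v`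
and its value is `Δ × {o}`, the other role is empty; the witness roles are `{(o, d)}`, `{(o, d')}` or
empty.  Proof: direct verification. -/
theorem exists_bits (I : Interp Δ) (β : ℕ → Bool) (z : Bool) (wit : Option (Δ × Δ)) :
    ∃ J : Interp Δ, J.ind = I.ind ∧ (∀ t, J.con (2 + t) = I.con (2 + t)) ∧
      J.con 0 = {I.ind 0} ∧ J.con 1 = (if z then {I.ind 0} else ∅) ∧ Sees q J β ∧ BitsOk q J ∧
      J.role (2 * (2 + 2 * q)) = (match wit with
        | none => ∅
        | some w => {(I.ind 0, w.1)}) ∧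
      J.role (2 * (2 + 2 * q) + 1) = (match wit with
        | none => ∅
        | some w => {(I.ind 0, w.2)}) := by
  let J : Interp Δ :=
    { con := fun A => if A = 0 then {I.ind 0} else if A = 1 then (if z then {I.ind 0} else ∅)
        else I.con A
      role := fun P => if P / 2 < 2 + 2 * q then
          (if (decide (P % 2 = 1)) = β (P / 2) then {x | x.2 = I.ind 0} else ∅)
        else if P = 2 * (2 + 2 * q) then
          (match wit with
            | none => ∅
            | some w => {(I.ind 0, w.1)})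
        else (match wit with
            | none => ∅
            | some w => {(I.ind 0, w.2)})
      ind := I.ind }
  have hc0 : J.con 0 = {I.ind 0} := by simp [J]
  have hr0 : ∀ v < 2 + 2 * q, ∀ d e, (d, e) ∈ J.role (2 * v) ↔ β v = false ∧ e = I.ind 0 := by
    intro v hv d e
    have h1 : 2 * v / 2 = v := by omega
    have h2 : 2 * v % 2 = 0 := by omega
    simp only [J, h1, if_pos hv, h2]
    cases β v <;> simp
  have hr1 : ∀ v < 2 + 2 * q, ∀ d e, (d, e) ∈ J.role (2 * v + 1) ↔ β v = true ∧ e = I.ind 0 := by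
    intro v hv d e
    have h1 : (2 * v + 1) / 2 = v := by omega
    have h2 : (2 * v + 1) % 2 = 1 := by omega
    simp only [J, h1, if_pos hv, h2]
    cases β v <;> simp
  refine ⟨J, rfl, ?_, hc0, ?_, ?_, ?_, ?_, ?_⟩
  · intro t
    have h0 : ¬ (2 + t = 0) := by omega
    have h1 : ¬ (2 + t = 1) := by omega
    simp only [J, if_neg h0, if_neg h1]
  · simp [J]
  · intro v hv d
    constructor
    · simp only [hr1 v hv]
      constructor
      · rintro ⟨e, he, _⟩
        exact he
      · intro hb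
        exact ⟨_, hb, rfl⟩
    · simp only [hr0 v hv]
      constructor
      · rintro ⟨e, he, _⟩
        exact he
      · intro hb
        exact ⟨_, hb, rfl⟩
  · rw [kba_bitsOk_iff]
    intro v hv
    simp only [hr0 v hv, hr1 v hv, hc0]
    refine ⟨fun d => ?_, fun d e h => h.2, fun d e h => h.2, fun d e e' h h' => ?_⟩
    · cases hb : β v
      · exact Or.inl ⟨_, rfl, rfl⟩
      · exact Or.inr ⟨_, rfl, rfl⟩
    · rw [h.1] at h'
      exact Bool.false_ne_true h'.1
  · have h1 : ¬ (2 * (2 + 2 * q) / 2 < 2 + 2 * q) := by omega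
    simp only [J, if_neg h1, if_true]
  · have h1 : ¬ ((2 * (2 + 2 * q) + 1) / 2 < 2 + 2 * q) := by omega
    have h2 : ¬ (2 * (2 + 2 * q) + 1 = 2 * (2 + 2 * q)) := by omega
    simp only [J, if_neg h1, if_neg h2]

end Pool.Agent.Lib.MP_bb9e9d_lc
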