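import Pool.Agent.Lib.MP_bb9e9d_lc.Hard.KBa

/-! # Interpretations of the knowledge base: attacks -/

namespace Pool.Agent.Lib.MP_bb9e9d_lc

open MP_634427_lc

variable {Δ : Type} {n q : ℕ} {φ : Con} {I J : Interp Δ}

theorem kbb_models_iff {β : ℕ → Bool} (hs : Sees q J β) (hq : n ≤ q)
    (hφ : IsBit (2 + 2 * q) φ) (h0 : J.ind 0 ∈ J.con 0) :
    Models J (kbInst n q φ) ↔ BitsOk q J ∧ J.con 1 ⊆ J.con 0 ∧
      (∀ d ∈ J.con 0, d ∉ J.con 1 → β 0 = true) ∧
      (∀ d, β 0 = true → β 1 = false → ¬ ∀ t < n, dat J d t = β (2 + t)) ∧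
      (β 0 = true → β 1 = true → evb β φ = false) ∧
      (∀ d ∈ J.con 0, β 0 = true → β 1 = true →
        (∃ e, (d, e) ∈ J.role (2 * (2 + 2 * q))) ∧
          ∃ e, (d, e) ∈ J.role (2 * (2 + 2 * q) + 1)) ∧
      (∀ d e, (e, d) ∈ J.role (2 * (2 + 2 * q)) → ∀ t < q, dat J d t = β (2 + t)) ∧
      (∀ d e, (e, d) ∈ J.role (2 * (2 + 2 * q) + 1) → ∀ t < q, dat J d t = β (2 + q + t)) := by
  have hV0 : ∀ d, d ∈ (V 0).ext J ↔ β 0 = true := fun d => kba_ext_V hs (by omega) d
  have hV1 : ∀ d, d ∈ (V 1).ext J ↔ β 1 = true := fun d => kba_ext_V hs (by omega) d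
  have hm1 : ∀ d, d ∈ (cMatch n 2).ext J ↔ ∀ t < n, dat J d t = β (2 + t) :=
    fun d => ext_cMatch hs (by omega) d
  have hm2 : ∀ d, d ∈ (cMatch q 2).ext J ↔ ∀ t < q, dat J d t = β (2 + t) :=
    fun d => ext_cMatch hs (by omega) d
  have hm3 : ∀ d, d ∈ (cMatch q (2 + q)).ext J ↔ ∀ t < q, dat J d t = β (2 + q + t) :=
    fun d => ext_cMatch hs (by omega) d
  have hphi : ∀ d, d ∈ φ.ext J ↔ evb β φ = true := fun d => ext_isBit hs hφ d
  have hneg : ∀ (C : Con) (d : Δ), d ∈ (Con.neg C).ext J ↔ ¬ d ∈ C.ext J := fun C d => Iff.rfl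
  have hint : ∀ (C D : Con) (d : Δ), d ∈ (Con.inter C D).ext J ↔ d ∈ C.ext J ∧ d ∈ D.ext J :=
    fun C D d => Iff.rfl
  have hname : ∀ (A : ℕ) (d : Δ), d ∈ (Con.name A).ext J ↔ d ∈ J.con A := fun A d => Iff.rfl
  have hbot : ∀ (d : Δ), d ∈ Con.bot.ext J ↔ False := fun d => Iff.rfl
  have hex0 : ∀ (P : ℕ) (d : Δ), d ∈ (Con.ex (false, P)).ext J ↔ ∃ e, (d, e) ∈ J.role P :=
    fun P d => kba_mem_ex_false d
  have hex1 : ∀ (P : ℕ) (d : Δ), d ∈ (Con.ex (true, P)).ext J ↔ ∃ e, (e, d) ∈ J.role P :=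
    fun P d => kba_mem_ex_true d
  have hmain : (∀ p ∈ mainCI n q φ, p.1.ext J ⊆ p.2.ext J) ↔ J.con 1 ⊆ J.con 0 ∧
      (∀ d ∈ J.con 0, d ∉ J.con 1 → β 0 = true) ∧
      (∀ d, β 0 = true → β 1 = false → ¬ ∀ t < n, dat J d t = β (2 + t)) ∧
      (β 0 = true → β 1 = true → evb β φ = false) ∧
      (∀ d ∈ J.con 0, β 0 = true → β 1 = true →
        (∃ e, (d, e) ∈ J.role (2 * (2 + 2 * q))) ∧
          ∃ e, (d, e) ∈ J.role (2 * (2 + 2 * q) + 1)) ∧
      (∀ d e, (e, d) ∈ J.role (2 * (2 + 2 * q)) → ∀ t < q, dat J d t = β (2 + t)) ∧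
      (∀ d e, (e, d) ∈ J.role (2 * (2 + 2 * q) + 1) →
        ∀ t < q, dat J d t = β (2 + q + t)) := by
    simp only [mainCI, List.mem_cons, List.not_mem_nil, or_false, forall_eq_or_imp, forall_eq,
      Set.subset_def, hint, hneg, hname, hbot, hex0, hex1, hV0, hV1, hm1, hm2, hm3, hphi]
    constructor
    · rintro ⟨a1, a2, a3, a4, a5, a6, a7⟩
      refine ⟨a1, fun d hd hd' => a2 d ⟨hd, hd'⟩, fun d b0 b1 hd => ?_, fun b0 b1 => ?_,
        fun d hd b0 b1 => a5 d ⟨⟨b0, b1⟩, hd⟩, fun d e hde => a6 d ⟨e, hde⟩,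
        fun d e hde => a7 d ⟨e, hde⟩⟩
      · exact a3 d ⟨⟨b0, by rw [b1]; exact Bool.false_ne_true⟩, hd⟩
      · cases hb : evb β φ
        · rfl
        · exact (a4 (J.ind 0) ⟨⟨b0, b1⟩, hb⟩).elim
    · rintro ⟨a1, a2, a3, a4, a5, a6, a7⟩
      refine ⟨a1, fun d hd => a2 d hd.1 hd.2, fun d hd => ?_, fun d hd => ?_,
        fun d hd => a5 d hd.2 hd.1.1 hd.1.2, fun d hd => ?_, fun d hd => ?_⟩
      · have hb1 : β 1 = false := by
          cases hb : β 1
          · rfl
          · exact (hd.1.2 hb).elim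
        exact a3 d hd.1.1 hb1 hd.2
      · have := a4 hd.1.1 hd.1.2
        rw [hd.2] at this
        exact Bool.false_ne_true this.symm
      · obtain ⟨e, he⟩ := hd
        exact a6 d e he
      · obtain ⟨e, he⟩ := hd
        exact a7 d e he
  rw [← hmain]
  constructor
  · intro h
    exact ⟨fun p hp => h.cis p (List.mem_append.2 (Or.inl hp)),
      fun p hp => h.cis p (List.mem_append.2 (Or.inr hp))⟩
  · rintro ⟨h1, h2⟩
    refine ⟨?_, ?_, ?_, ?_⟩
    · intro p hp
      rcases List.mem_append.1 hp with hp | hp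
      · exact h1 p hp
      · exact h2 p hp
    · intro R hR
      simp [kbInst] at hR
    · intro p hp
      simp only [kbInst, List.mem_cons, List.not_mem_nil, or_false] at hp
      subst hp
      exact h0
    · intro p hp
      simp [kbInst] at hp

theorem kbb_dat_congr (h : ∀ t, J.con (2 + t) = I.con (2 + t)) (d : Δ) (t : ℕ) :
    dat J d t = dat I d t := by
  rw [Bool.eq_iff_iff, kba_dat_eq, kba_dat_eq, h t]

theorem kbb_evb_congr {β γ : ℕ → Bool} {m : ℕ} {C : Con} (hC : IsBit m C)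
    (h : ∀ v < m, β v = γ v) : evb β C = evb γ C := by
  induction C with
  | top => rfl
  | bot => rfl
  | name A => rfl
  | ex R => simp only [evb, h _ hC.2.2]
  | neg C ih => simp only [evb, ih hC]
  | inter C D ihC ihD => simp only [evb, ihC hC.1, ihD hC.2]

/-- The default model.  Proof: `exists_bits` with `β = fun _ => false`, `z = true`, no witnesses. -/
theorem exists_default (hq : n ≤ q) (hφ : IsBit (2 + 2 * q) φ) (I : Interp Δ) :
    ∃ J : Interp Δ, Models J (kbInst n q φ) ∧ J.ind = I.ind ∧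
      (∀ t, J.con (2 + t) = I.con (2 + t)) ∧ J.con 0 = {I.ind 0} ∧ J.con 1 = {I.ind 0} := by
  obtain ⟨J, hi, hc, h0, h1, hs, hb, hw, hw'⟩ :=
    exists_bits (q := q) I (fun _ => false) true none
  simp only [if_true] at h1
  have hj0 : J.ind 0 ∈ J.con 0 := by rw [h0, hi]; exact Set.mem_singleton _
  refine ⟨J, ?_, hi, hc, h0, h1⟩
  rw [kbb_models_iff hs hq hφ hj0]
  refine ⟨hb, by rw [h0, h1], ?_, ?_, ?_, ?_, ?_, ?_⟩
  · intro d hd hd'
    rw [h0] at hd
    rw [h1] at hd'
    exact (hd' hd).elim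
  · intro d hb0
    exact (Bool.false_ne_true hb0).elim
  · intro hb0
    exact (Bool.false_ne_true hb0).elim
  · intro d hd hb0
    exact (Bool.false_ne_true hb0).elim
  · intro d e hde
    rw [hw] at hde
    exact hde.elim
  · intro d e hde
    rw [hw'] at hde
    exact hde.elim

/-- An attack gives a model with `Z` empty.  Proof: `exists_bits` with `z = false`; missing address
`a`: `β 0 = true`, `β 1 = false`, `β (2 + t) = a t`; violation by `d, d'`: `β = tup q (dat I d)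
(dat I d')` and the witnesses `d, d'`. -/
theorem exists_attack (hq : n ≤ q) (hφ : IsBit (2 + 2 * q) φ) (I : Interp Δ)
    (h : Attack n q φ I) :
    ∃ J : Interp Δ, Models J (kbInst n q φ) ∧ J.ind = I.ind ∧
      (∀ t, J.con (2 + t) = I.con (2 + t)) ∧ J.con 0 = {I.ind 0} ∧ J.con 1 = ∅ := by
  rcases h with ⟨a, ha⟩ | ⟨d0, d0', hd0⟩
  · obtain ⟨J, hi, hc, h0, h1, hs, hb, hw, hw'⟩ :=
      exists_bits (q := q) I (fun v => if v = 0 then true else if v = 1 then false else
        if h : v - 2 < n then a ⟨v - 2, h⟩ else false) false none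
    have h1' : J.con 1 = ∅ := by rw [h1]; rfl
    have hj0 : J.ind 0 ∈ J.con 0 := by rw [h0, hi]; exact Set.mem_singleton _
    refine ⟨J, ?_, hi, hc, h0, h1'⟩
    rw [kbb_models_iff hs hq hφ hj0]
    refine ⟨hb, by rw [h1']; exact Set.empty_subset _, ?_, ?_, ?_, ?_, ?_, ?_⟩
    · intro d hd hd'
      rfl
    · intro d _ _ hall
      obtain ⟨t, ht⟩ := ha d
      apply ht
      have h2 := hall t t.2
      rw [kbb_dat_congr hc] at h2
      rw [h2]
      have e1 : ¬ (2 + (t : ℕ) = 0) := by omega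
      have e2 : ¬ (2 + (t : ℕ) = 1) := by omega
      have e3 : 2 + (t : ℕ) - 2 = t := by omega
      simp only [if_neg e1, if_neg e2, e3, t.2, dif_pos]
    · intro _ hb1
      exact (Bool.false_ne_true hb1).elim
    · intro d hd _ hb1
      exact (Bool.false_ne_true hb1).elim
    · intro d e hde
      rw [hw] at hde
      exact hde.elim
    · intro d e hde
      rw [hw'] at hde
      exact hde.elim
  · obtain ⟨J, hi, hc, h0, h1, hs, hb, hw, hw'⟩ :=
      exists_bits (q := q) I (tup q (dat I d0) (dat I d0')) false (some (d0, d0'))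
    have h1' : J.con 1 = ∅ := by rw [h1]; rfl
    have hj0 : J.ind 0 ∈ J.con 0 := by rw [h0, hi]; exact Set.mem_singleton _
    simp only at hw hw'
    have ht1 : tup q (dat I d0) (dat I d0') 1 = true := by simp [tup]
    have ht0 : tup q (dat I d0) (dat I d0') 0 = true := by simp [tup]
    refine ⟨J, ?_, hi, hc, h0, h1'⟩
    rw [kbb_models_iff hs hq hφ hj0]
    refine ⟨hb, by rw [h1']; exact Set.empty_subset _, ?_, ?_, ?_, ?_, ?_, ?_⟩
    · intro d hd hd'
      exact ht0
    · intro d _ hb1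
      rw [ht1] at hb1
      exact (Bool.false_ne_true hb1.symm).elim
    · intro _ _
      exact hd0
    · intro d hd _ _
      rw [h0] at hd
      have hd2 : d = I.ind 0 := hd
      subst hd2
      refine ⟨⟨d0, ?_⟩, ⟨d0', ?_⟩⟩
      · rw [hw]; exact Set.mem_singleton _
      · rw [hw']; exact Set.mem_singleton _
    · intro d e hde t ht
      rw [hw] at hde
      have hde2 : (e, d) = (I.ind 0, d0) := hde
      obtain ⟨_, rfl⟩ := Prod.mk.inj hde2
      rw [kbb_dat_congr hc]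
      have e1 : ¬ (2 + t < 2) := by omega
      have e2 : 2 + t < 2 + q := by omega
      have e3 : 2 + t - 2 = t := by omega
      simp only [tup, if_neg e1, if_pos e2, e3]
    · intro d e hde t ht
      rw [hw'] at hde
      have hde2 : (e, d) = (I.ind 0, d0') := hde
      obtain ⟨_, rfl⟩ := Prod.mk.inj hde2
      rw [kbb_dat_congr hc]
      have e1 : ¬ (2 + q + t < 2) := by omega
      have e2 : ¬ (2 + q + t < 2 + q) := by omega
      have e3 : 2 + q + t - 2 - q = t := by omega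
      simp only [tup, if_neg e1, if_neg e2, e3]

/-- Conversely, a model with `O = {g}` and `Z = ∅` gives an attack.  Proof: `exists_sees`; `g ∈ O \ Z`,
so `β 0 = true`.  If `β 1 = false`, then no element matches the address bits.  If `β 1 = true`, then
`evb β φ = false`, and `g` has successors for the two witness roles, whose data are the bits of `β`;
`evb` of `φ` depends only on the bits below `2 + 2 * q`. -/
theorem attack_of (hq : n ≤ q) (hφ : IsBit (2 + 2 * q) φ) (hJ : Models J (kbInst n q φ))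
    (h0 : J.con 0 = {J.ind 0}) (h1 : J.con 1 = ∅) : Attack n q φ J := by
  have hj0 : J.ind 0 ∈ J.con 0 := by rw [h0]; exact Set.mem_singleton _
  have hbits : BitsOk q J := fun p hp => hJ.cis p (List.mem_append.2 (Or.inl hp))
  obtain ⟨β, hs⟩ := exists_sees h0 hbits
  obtain ⟨_, a1, a2, a3, a4, a5, a6, a7⟩ := (kbb_models_iff hs hq hφ hj0).1 hJ
  have b0 : β 0 = true := a2 _ hj0 (by rw [h1]; exact fun h => h)
  cases b1 : β 1
  · left
    refine ⟨fun t => β (2 + t), fun d => ?_⟩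
    have h3 := a3 d b0 b1
    push Not at h3
    obtain ⟨t, ht, h4⟩ := h3
    exact ⟨⟨t, ht⟩, h4⟩
  · right
    obtain ⟨⟨d, hd⟩, ⟨d', hd'⟩⟩ := a5 _ hj0 b0 b1
    refine ⟨d, d', ?_⟩
    rw [← a4 b0 b1]
    apply kbb_evb_congr hφ
    intro v hv
    unfold tup
    split_ifs with h2 h3
    · rcases (show v = 0 ∨ v = 1 by omega) with rfl | rfl
      · exact b0.symm
      · exact b1.symm
    · have h4 := a6 _ _ hd (v - 2) (by omega)
      rw [h4]
      congr 1
      omega
    · have h4 := a7 _ _ hd' (v - 2 - q) (by omega)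
      rw [h4]
      congr 1
      omega

end Pool.Agent.Lib.MP_bb9e9d_lc
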