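import Pool.Agent.Lib.MP_bb9e9d_lc.Hard.KBb

/-! # The knowledge base and the labellings -/

namespace Pool.Agent.Lib.MP_bb9e9d_lc

open MP_634427_lc

variable {n q : ℕ} {φ : Con}

theorem kb_valid : (kbInst n q φ).Valid := by
  refine ⟨?_, ?_, ?_, ?_⟩
  · intro p hp
    simp only [kbInst, List.mem_singleton] at hp
    subst hp
    simp [kbInst]
  · intro p hp
    simp only [kbInst, List.mem_singleton] at hp
    subst hp
    simp
  · intro p hp r hr h
    simp only [kbInst, List.mem_singleton] at hp hr
    subst hp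
    subst hr
    simp at h
  · intro A hA hF
    simp only [kbInst, List.mem_map, List.mem_cons, List.not_mem_nil, or_false] at hA hF
    obtain ⟨t, -, ht⟩ := hF
    omega

private theorem KBc_evb_congr {β γ : ℕ → Bool} {m : ℕ} (h : ∀ v < m, β v = γ v) :
    ∀ {C : Con}, IsBit m C → evb β C = evb γ C
  | .top, _ => rfl
  | .bot, _ => rfl
  | .name _, _ => rfl
  | .ex R, hC => by
    obtain ⟨-, -, h3⟩ := hC
    simp only [evb]
    rw [h _ h3]
  | .neg C, hC => by
    simp only [evb]
    rw [KBc_evb_congr h (C := C) hC]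
  | .inter C D, hC => by
    simp only [evb]
    rw [KBc_evb_congr h hC.1, KBc_evb_congr h hC.2]

private theorem KBc_tup {d d' e e' : ℕ → Bool} (h : ∀ t < q, d t = e t) (h' : ∀ t < q, d' t = e' t) :
    ∀ v < 2 + 2 * q, tup q d d' v = tup q e e' v := by
  intro v hv
  unfold tup
  split_ifs with h1 h2
  · rfl
  · exact h _ (by omega)
  · exact h' _ (by omega)

private theorem KBc_dat {Δ : Type} {I J : Interp Δ} {t : ℕ} (h : J.con (2 + t) = I.con (2 + t))
    (d : Δ) : dat J d t = dat I d t := by
  unfold dat
  rw [h]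

/-- Proof: the domain is `(Fin n → Bool) × ℕ` with `ind k = (fun _ => false, k)`, the data bits of
`(a, k)` are `D a`.  `exists_default` gives a model `I` with `O = Z = {g}`.  If `J < I` is a model then
`O` is the same (`g ∈ O` by the ABox, and nothing is preferred to `O`), so `Z` is empty in `J`:
`attack_of`, but no attack is possible (the data of `J` are those of `I`). -/
theorem sat_of_lab (u : Bool) (hq : n ≤ q) (hφ : IsBit (2 + 2 * q) φ) (h : HasLab n q φ) :
    ∃ (Δ : Type) (I : Interp Δ), Una u (kbInst n q φ) I ∧ CircModel (kbInst n q φ) I ∧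
      ((kbInst n q φ).C0.ext I).Nonempty := by
  obtain ⟨D, hD1, hD2⟩ := h
  let I0 : Interp ((Fin n → Bool) × ℕ) :=
    { con := fun A => {d | D d.1 (A - 2) = true}
      role := fun _ => ∅
      ind := fun k => (fun _ => false, k) }
  obtain ⟨I, hM, hind, hdat, h0, h1⟩ := exists_default hq hφ I0
  have hdI : ∀ d t, dat I d t = D d.1 t := by
    intro d t
    rw [KBc_dat (hdat t)]
    unfold dat
    have : (d ∈ I0.con (2 + t)) ↔ D d.1 t = true := by
      show D d.1 (2 + t - 2) = true ↔ _
      rw [Nat.add_sub_cancel_left]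
    by_cases hb : D d.1 t = true
    · rw [hb]
      simpa using this.2 hb
    · rw [Bool.not_eq_true] at hb
      rw [hb]
      simp [this, hb]
  refine ⟨_, I, ?_, ⟨hM, ?_⟩, ?_⟩
  · intro a b _ hab
    rw [hind] at hab
    exact congrArg Prod.snd hab
  · intro J hl hJ
    have hi0 : J.ind 0 = I0.ind 0 := by rw [hl.ind, hind]
    have hJ0 : J.con 0 = {J.ind 0} := by
      apply Set.Subset.antisymm
      · by_contra hno
        have hg := hl.grow 0 (by simp [kbInst]) (by rw [h0, ← hi0]; exact hno)
        obtain ⟨r, hr, -⟩ := hg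
        simp [kbInst] at hr
      · rw [Set.singleton_subset_iff]
        exact hJ.cass (0, 0) (by simp [kbInst])
    have hJ1 : J.con 1 = ∅ := by
      obtain ⟨p, hp, hp1, -⟩ := hl.less
      simp only [kbInst, List.mem_cons, List.not_mem_nil, or_false] at hp
      rcases hp with rfl | rfl
      · rw [hJ0, h0, hi0] at hp1
        exact absurd rfl hp1.ne
      · rw [h1] at hp1
        exact Set.ssubset_singleton_iff.1 hp1
    have hdJ : ∀ d, ∀ t < q, dat J d t = D d.1 t := by
      intro d t ht
      rw [KBc_dat (I := I) (hl.fixC (2 + t) (by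
        simp only [kbInst, List.mem_map, List.mem_range]
        exact ⟨t, ht, rfl⟩)), hdI]
    rcases attack_of hq hφ hJ hJ0 hJ1 with ⟨a, ha⟩ | ⟨d, d', hd⟩
    · obtain ⟨t, ht⟩ := ha (a, 0)
      apply ht
      rw [hdJ _ _ (lt_of_lt_of_le t.2 hq)]
      exact hD1 a t
    · rw [KBc_evb_congr (KBc_tup (hdJ d) (hdJ d')) hφ, hD2] at hd
      exact absurd hd (by simp)
  · refine ⟨I0.ind 0, ?_⟩
    show I0.ind 0 ∈ I.con 1
    rw [h1]
    rfl

/-- Proof: let `I` be a circumscribed model with `Z` non-empty.  If `O ≠ {g}` then the default model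
`exists_default` is preferred (`O` shrinks, which allows any change of `Z`).  So `O = {g}` and
`Z = {g}`.  If an attack is possible then `exists_attack` gives a preferred model.  So there is no
attack: choose for each address `a` an element `d a` with these data bits, `D a = dat I (d a)`. -/
theorem lab_of_sat (hq : n ≤ q) (hφ : IsBit (2 + 2 * q) φ)
    (h : ∃ (Δ : Type) (I : Interp Δ), CircModel (kbInst n q φ) I ∧
      ((kbInst n q φ).C0.ext I).Nonempty) : HasLab n q φ := by
  obtain ⟨Δ, I, ⟨hM, hmin⟩, ⟨z, hz⟩⟩ := h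
  have hz : z ∈ I.con 1 := hz
  have hg : I.ind 0 ∈ I.con 0 := hM.cass (0, 0) (by simp [kbInst])
  have hfix : ∀ {J : Interp Δ}, (∀ t, J.con (2 + t) = I.con (2 + t)) →
      ∀ A ∈ (kbInst n q φ).fixC, J.con A = I.con A := by
    intro J hJ A hA
    simp only [kbInst, List.mem_map, List.mem_range] at hA
    obtain ⟨t, -, rfl⟩ := hA
    exact hJ t
  have h0 : I.con 0 = {I.ind 0} := by
    by_contra hne
    obtain ⟨J, hJM, hJi, hJd, hJ0, hJ1⟩ := exists_default hq hφ I
    have hss : J.con 0 ⊂ I.con 0 := by
      rw [hJ0]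
      refine (Set.singleton_subset_iff.2 hg).ssubset_of_ne ?_
      exact fun h => hne h.symm
    refine hmin J ⟨hJi, hfix hJd, ?_, ?_, ?_⟩ hJM
    · intro P hP
      simp [kbInst] at hP
    · intro p hp hno
      simp only [kbInst, List.mem_cons, List.not_mem_nil, or_false] at hp
      rcases hp with rfl | rfl
      · exact absurd hss.subset hno
      · exact ⟨0, by simp [kbInst], hss⟩
    · refine ⟨0, by simp [kbInst], hss, ?_⟩
      intro r hr
      simp [kbInst] at hr
  have h10 : I.con 1 ⊆ I.con 0 := by
    have := hM.cis (.name 1, .name 0) (by simp [kbInst, mainCI])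
    exact this
  have h1 : I.con 1 = {I.ind 0} := by
    have hz0 : z = I.ind 0 := by
      have := h10 hz
      rw [h0] at this
      exact this
    apply Set.Subset.antisymm
    · rw [← h0]; exact h10
    · rw [Set.singleton_subset_iff, ← hz0]
      exact hz
  have hna : ¬ Attack n q φ I := by
    intro hA
    obtain ⟨J, hJM, hJi, hJd, hJ0, hJ1⟩ := exists_attack hq hφ I hA
    refine hmin J ⟨hJi, hfix hJd, ?_, ?_, ?_⟩ hJM
    · intro P hP
      simp [kbInst] at hP
    · intro p hp hno
      simp only [kbInst, List.mem_cons, List.not_mem_nil, or_false] at hp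
      rcases hp with rfl | rfl
      · exact absurd (by rw [hJ0, h0]) hno
      · exact absurd (by rw [hJ1]; exact Set.empty_subset _) hno
    · refine ⟨1, by simp [kbInst], ?_, ?_⟩
      · rw [hJ1, h1]
        exact Set.ssubset_singleton_iff.2 rfl
      · intro r hr
        simp only [kbInst, List.mem_singleton, Prod.mk.injEq, and_true] at hr
        subst hr
        rw [hJ0, h0]
  unfold Attack at hna
  push Not at hna
  obtain ⟨hna1, hna2⟩ := hna
  choose d hd using hna1
  refine ⟨fun a => dat I (d a), fun a t => hd a t, fun a a' => ?_⟩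
  have := hna2 (d a) (d a')
  simpa using this

end Pool.Agent.Lib.MP_bb9e9d_lc
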