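import Pool.Agent.Lib.MP_bb9e9d_lc.Hard.Rules
import Pool.Agent.Lib.MP_bb9e9d_lc.Hard.ProgA

/-! # The rules depend only on the relevant part of the labels -/

namespace Pool.Agent.Lib.MP_bb9e9d_lc

open MP_634427_lc

/-- the labels agree on the fields and on the bits that matter -/
def Agree (P0 : Pg) (L L' : Lb) : Prop :=
  (∀ j < 15, L.fld j = L'.fld j) ∧ ∀ b < 3 + (kds P0).length, L.bit b = L'.bit b

private theorem LabA_bit {P0 : Pg} {L L' : Lb} (h : Agree P0 L L') {k : Kd} (hk : k ∈ kds P0) :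
    L.bit (kb P0 k) = L'.bit (kb P0 k) := by
  refine h.2 _ ?_
  have := List.idxOf_lt_length_of_mem hk
  unfold kb
  omega

private theorem LabA_Cl {P0 : Pg} {a a' : ℕ} {L₁ L₂ L₁' L₂' : Lb} (h : Agree P0 L₁ L₂)
    (h' : Agree P0 L₁' L₂') {p i o : ℕ} {k : Kd} (hk : k ∈ kds P0) (hp : p < 15) (hi : i < 15)
    (ho : o < 15) (H : Cl P0 a L₁ a' L₁' p k i o) : Cl P0 a L₂ a' L₂' p k i o := by
  unfold Cl at H ⊢
  rw [← h.1 p hp, ← h.1 i hi, ← h.1 o ho, ← h'.1 2 (by norm_num), ← h'.1 3 (by norm_num),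
    ← LabA_bit h' hk]
  exact H

private theorem LabA_ClR {P0 : Pg} {a a' : ℕ} {L₁ L₂ L₁' L₂' : Lb} (h : Agree P0 L₁ L₂)
    (h' : Agree P0 L₁' L₂') {p w i o : ℕ} {k : Kd} (hk : k ∈ kds P0) (hp : p < 15) (hw : w < 15)
    (hi : i < 15) (ho : o < 15) (H : ClR P0 a L₁ a' L₁' p k w i o) :
    ClR P0 a L₂ a' L₂' p k w i o := by
  unfold ClR at H ⊢
  rw [← h.1 p hp, ← h.1 w hw, ← h.1 i hi, ← h.1 o ho, ← h'.1 2 (by norm_num),
    ← h'.1 3 (by norm_num), ← h'.1 4 (by norm_num), ← LabA_bit h' hk]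
  exact H

private theorem LabA_Cell {P0 : Pg} {a' : ℕ} {L₁ L₂ L₁' L₂' : Lb} (h : Agree P0 L₁ L₂)
    (h' : Agree P0 L₁' L₂') {z l r : ℕ} (hz : z < 15) (hl : l < 15) (hr : r < 15)
    (H : CellR L₁ a' L₁' z l r) : CellR L₂ a' L₂' z l r := by
  unfold CellR at H ⊢
  rw [← h.1 z hz, ← h.1 l hl, ← h.1 r hr, ← h'.1 0 (by norm_num), ← h'.1 1 (by norm_num),
    ← h'.2 0 (by omega)]
  exact H

private theorem LabA_kind {P0 : Pg} {a a' : ℕ} {L₁ L₂ L₁' L₂' : Lb} (h : Agree P0 L₁ L₂)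
    (h' : Agree P0 L₁' L₂') {k : Kd} (hk : k ∈ kds P0) (H : KRule P0 a L₁ a' L₁' k) :
    KRule P0 a L₂ a' L₂' k := by
  obtain ⟨c1, c2, c3, c4, -⟩ := kds_closed P0
  have f2 := h.1 2 (by norm_num)
  have f3 := h.1 3 (by norm_num)
  have f5 := h.1 5 (by norm_num)
  have f6 := h.1 6 (by norm_num)
  have b1 := h.2 1 (by omega)
  have f0' := h'.1 0 (by norm_num)
  have f1' := h'.1 1 (by norm_num)
  have b0' := h'.2 0 (by omega)
  match k, hk, H with
  | .ev .id, hk, H =>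
    simp only [KRule] at H ⊢
    rw [← f2, ← f3]; exact H
  | .ev .nil, hk, H =>
    simp only [KRule] at H ⊢
    rw [← f3, ← b0']; exact H
  | .ev .left, hk, H =>
    simp only [KRule] at H ⊢
    rw [← f2, ← f3, ← b0', ← f0']; exact H
  | .ev .right, hk, H =>
    simp only [KRule] at H ⊢
    rw [← f2, ← f3, ← b0', ← f1']; exact H
  | .ev (.node f g), hk, H =>
    simp only [KRule] at H ⊢
    obtain ⟨m1, m2⟩ := c1 f g hk
    exact ⟨LabA_Cell h h' (by norm_num) (by norm_num) (by norm_num) H.1,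
      LabA_Cl h h' m1 (by norm_num) (by norm_num) (by norm_num) H.2.1,
      LabA_Cl h h' m2 (by norm_num) (by norm_num) (by norm_num) H.2.2⟩
  | .ev (.comp f g), hk, H =>
    simp only [KRule] at H ⊢
    obtain ⟨m1, m2⟩ := c2 f g hk
    exact ⟨LabA_Cl h h' m2 (by norm_num) (by norm_num) (by norm_num) H.1,
      LabA_Cl h h' m1 (by norm_num) (by norm_num) (by norm_num) H.2⟩
  | .ev (.recur g q), hk, H =>
    simp only [KRule] at H ⊢
    have m1 := c3 g q hk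
    refine ⟨?_, LabA_ClR h h' m1 (by norm_num) (by norm_num) (by norm_num) (by norm_num) H.2⟩
    rw [← f2, ← f5, ← f6, ← b0', ← f0', ← f1']; exact H.1
  | .rc g q, hk, H =>
    simp only [KRule] at H ⊢
    obtain ⟨m1, m2⟩ := c4 g q hk
    obtain ⟨H1, H2, H3⟩ := H
    rw [b1] at H2 H3
    refine ⟨?_, fun hb => LabA_Cl h h' m1 (by norm_num) (by norm_num) (by norm_num) (H2 hb),
      fun hb => ?_⟩
    · rw [← f2, ← f5, ← f6, ← b0', ← f0', ← f1', ← b1]; exact H1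
    · obtain ⟨K1, K2, K3, K4, K5, K6⟩ := H3 hb
      exact ⟨LabA_ClR h h' hk (by norm_num) (by norm_num) (by norm_num) (by norm_num) K1,
        LabA_ClR h h' hk (by norm_num) (by norm_num) (by norm_num) (by norm_num) K2,
        LabA_Cell h h' (by norm_num) (by norm_num) (by norm_num) K3,
        LabA_Cell h h' (by norm_num) (by norm_num) (by norm_num) K4,
        LabA_Cell h h' (by norm_num) (by norm_num) (by norm_num) K5,
        LabA_Cl h h' m2 (by norm_num) (by norm_num) (by norm_num) K6⟩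

/-- Proof: every field in the rules is below `15`; every bit is `0, 1, 2` or `kb P0 k` with
`k ∈ kds P0` (`kds_closed`), and `kb P0 k < 3 + (kds P0).length` for such `k`. -/
theorem pairOk_congr {P0 : Pg} {x : Word} {e m0 n a a' : ℕ} {L₁ L₂ L₁' L₂' : Lb}
    (h : Agree P0 L₁ L₂) (h' : Agree P0 L₁' L₂') (hp : PairOk P0 x e m0 n a L₁ a' L₁') :
    PairOk P0 x e m0 n a L₂ a' L₂' := by
  have f0 := h.1 0 (by norm_num)
  have f1 := h.1 1 (by norm_num)
  have f3 := h.1 3 (by norm_num)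
  have f5 := h.1 5 (by norm_num)
  have f6 := h.1 6 (by norm_num)
  have b0 := h.2 0 (by omega)
  have b2 := h.2 2 (by omega)
  have f0' := h'.1 0 (by norm_num)
  have f1' := h'.1 1 (by norm_num)
  have f3' := h'.1 3 (by norm_num)
  have b0' := h'.2 0 (by omega)
  have b2' := h'.2 2 (by omega)
  obtain ⟨i1, i2, i3, i4, i5⟩ := hp.inp
  refine ⟨⟨?_, ?_, ?_, ?_, ?_⟩, ?_, ?_, ?_, ?_⟩
  · rw [← b0]; exact i1
  · rw [← b0, ← f0, ← f1]; exact i2
  · rw [← b0, ← f0, ← f1]; exact i3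
  · rw [← b0, ← f0, ← f1]; exact i4
  · rw [← b0, ← f0, ← f1]; exact i5
  · have := hp.heap
    unfold HRule at this ⊢
    rw [← b0, ← f0, ← f1]; exact this
  · have := hp.cp
    unfold CpRule at this ⊢
    rw [← b0, ← b2, ← f0, ← f1, ← f3, ← f5, ← f6, ← b0', ← b2', ← f0', ← f1', ← f3']
    exact this
  · intro ha
    obtain ⟨k1, k2, k3⟩ := hp.fin ha
    refine ⟨LabA_Cl h h' (kds_closed P0).2.2.2.2 (by norm_num) (by norm_num) (by norm_num) k1,
      ?_, ?_⟩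
    · rw [← f5, ← b0']; exact k2
    · rw [← f6, ← b2', ← f3']; exact k3
  · intro k hk hb
    rw [← LabA_bit h hk] at hb
    exact LabA_kind h h' hk (hp.kind k hk hb)

end Pool.Agent.Lib.MP_bb9e9d_lc
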