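import Pool.Agent.Lib.MP_bb9e9d_lc.Hard.KB
import Pool.Agent.Lib.MP_bb9e9d_lc.Hard.LabA
import Pool.Agent.Lib.MP_bb9e9d_lc.Hard.FormC

/-! # Labellings by bits and labellings by numbers -/

namespace Pool.Agent.Lib.MP_bb9e9d_lc

open MP_634427_lc

variable {P0 : Pg} {x : Word} {e m0 n : ℕ}

/-- the label with the given data bits -/
private def Lab_lb (n : ℕ) (d : ℕ → Bool) : Lb where
  fld j := num d (n + j * n) n
  bit b := d (16 * n + b)

private theorem Lab_num_congr {β γ : ℕ → Bool} {A B n : ℕ} (h : ∀ t < n, β (A + t) = γ (B + t)) :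
    num β A n = num γ B n := by
  unfold num
  refine Finset.sum_congr rfl fun t ht => ?_
  rw [h t (Finset.mem_range.1 ht)]

private theorem Lab_num_eq {β : ℕ → Bool} {A n k : ℕ} (hk : k < 2 ^ n)
    (h : ∀ t < n, β (A + t) = k.testBit t) : num β A n = k := by
  refine Nat.eq_of_testBit_eq fun t => ?_
  rw [testBit_num]
  by_cases ht : t < n
  · simp [ht, h t ht]
  · have : k.testBit t = false := Nat.testBit_lt_two_pow
      (lt_of_lt_of_le hk (Nat.pow_le_pow_right (by norm_num) (not_lt.1 ht)))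
    simp [ht, this]

private theorem Lab_tup0 {q t : ℕ} (d d' : ℕ → Bool) (ht : t < q) : tup q d d' (2 + t) = d t := by
  unfold tup
  rw [if_neg (by omega), if_pos (by omega)]
  congr 1
  omega

private theorem Lab_tup1 {q : ℕ} (d d' : ℕ → Bool) (t : ℕ) : tup q d d' (2 + q + t) = d' t := by
  unfold tup
  rw [if_neg (by omega), if_neg (by omega)]
  congr 1
  omega

private theorem Lab_dA0 (d d' : ℕ → Bool) :
    dA P0 n (tup (qq P0 n) d d') 0 = num d 0 n := by
  refine Lab_num_congr fun t ht => ?_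
  rw [pA, zero_mul, add_zero, zero_add, Lab_tup0]
  unfold qq
  omega

private theorem Lab_dA1 (d d' : ℕ → Bool) :
    dA P0 n (tup (qq P0 n) d d') 1 = num d' 0 n := by
  refine Lab_num_congr fun t ht => ?_
  rw [pA, one_mul, zero_add, Lab_tup1]

private theorem Lab_agree0 (d d' : ℕ → Bool) :
    Agree P0 (dL P0 n (tup (qq P0 n) d d') 0) (Lab_lb n d) := by
  constructor
  · intro j hj
    refine Lab_num_congr fun t ht => ?_
    have h1 : j * n ≤ 14 * n := Nat.mul_le_mul_right _ (by omega)
    rw [pF, show 2 + 0 * qq P0 n + n + j * n + t = 2 + (n + j * n + t) by omega, Lab_tup0]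
    unfold qq
    omega
  · intro b hb
    show tup (qq P0 n) d d' (pB P0 n 0 b) = d (16 * n + b)
    rw [pB, show 2 + 0 * qq P0 n + 16 * n + b = 2 + (16 * n + b) by omega, Lab_tup0]
    unfold qq
    omega

private theorem Lab_agree1 (d d' : ℕ → Bool) :
    Agree P0 (dL P0 n (tup (qq P0 n) d d') 1) (Lab_lb n d') := by
  constructor
  · intro j hj
    refine Lab_num_congr fun t ht => ?_
    rw [pF, show 2 + 1 * qq P0 n + n + j * n + t = 2 + qq P0 n + (n + j * n + t) by omega, Lab_tup1]
  · intro b hb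
    show tup (qq P0 n) d d' (pB P0 n 1 b) = d' (16 * n + b)
    rw [pB, show 2 + 1 * qq P0 n + 16 * n + b = 2 + qq P0 n + (16 * n + b) by omega, Lab_tup1]

private theorem Lab_agree_symm {L L' : Lb} (h : Agree P0 L L') : Agree P0 L' L :=
  ⟨fun j hj => (h.1 j hj).symm, fun b hb => (h.2 b hb).symm⟩

private theorem Lab_evb (hx : x.length < m0) (he : e ≤ m0) (hn : m0 + 1 < n) (d d' : ℕ → Bool) :
    evb (tup (qq P0 n) d d') (cPhi P0 x e m0 n) = true ↔
      PairOk P0 x e m0 n (num d 0 n) (Lab_lb n d) (num d' 0 n) (Lab_lb n d') := by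
  rw [evb_cPhi hx he hn, Lab_dA0, Lab_dA1]
  exact ⟨fun h => pairOk_congr (Lab_agree0 d d') (Lab_agree1 d d') h,
    fun h => pairOk_congr (Lab_agree_symm (Lab_agree0 d d')) (Lab_agree_symm (Lab_agree1 d d')) h⟩

/-- Proof: `D a t = a t` for `t < n`; for `t = n + j * n + i` (`j < 15`, `i < n`): `Nat.testBit` of the
field `j` of `Λ (num a)` at `i`; for `t = 16 n + b`: the bit `b`.  The number of the address is
`∑ 2 ^ t`.  `evb_cPhi`: the decoded address of the side `0` (of `β = tup _ (D a) (D a')`) is the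
number of `a`, and the decoded label agrees with `Λ (num a)` in the sense of `Agree`; similarly for
the side `1` and `a'`; use `pairOk_congr`. -/
theorem hasLab_of_labOk (hx : x.length < m0) (he : e ≤ m0) (hn : m0 + 1 < n) {Λ : ℕ → Lb}
    (h : LabOk P0 x e m0 n Λ) : HasLab n (qq P0 n) (cPhi P0 x e m0 n) := by
  let adr : (Fin n → Bool) → ℕ := fun a => num (fun t => if h : t < n then a ⟨t, h⟩ else false) 0 n
  let D : (Fin n → Bool) → ℕ → Bool := fun a t =>
    if h : t < n then a ⟨t, h⟩ else if t < 16 * n then ((Λ (adr a)).fld (t / n - 1)).testBit (t % n)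
      else (Λ (adr a)).bit (t - 16 * n)
  have hD1 : ∀ a, num (D a) 0 n = adr a := by
    intro a
    refine Lab_num_congr fun t ht => ?_
    simp only [D]
    rw [zero_add, dif_pos ht, dif_pos ht]
  have hlt : ∀ a, adr a < 2 ^ n := fun a => num_lt _ _
  have hag : ∀ a, Agree P0 (Λ (adr a)) (Lab_lb n (D a)) := by
    intro a
    constructor
    · intro j hj
      symm
      refine Lab_num_eq (h.1 _ (hlt a) j hj) fun t ht => ?_
      have h1 : j * n ≤ 14 * n := Nat.mul_le_mul_right _ (by omega)
      simp only [D]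
      rw [dif_neg (by omega), if_pos (by omega)]
      have h2 : (n + j * n + t) / n = j + 1 := by
        rw [show n + j * n + t = t + (j + 1) * n by ring, Nat.add_mul_div_right _ _ (by omega),
          Nat.div_eq_of_lt ht, zero_add]
      have h3 : (n + j * n + t) % n = t := by
        rw [show n + j * n + t = t + (j + 1) * n by ring, Nat.add_mul_mod_self_right,
          Nat.mod_eq_of_lt ht]
      rw [h2, h3, Nat.add_sub_cancel]
    · intro b hb
      show (Λ (adr a)).bit b = D a (16 * n + b)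
      simp only [D]
      rw [dif_neg (by omega), if_neg (by omega), Nat.add_sub_cancel_left]
  refine ⟨D, fun a t => ?_, fun a a' => ?_⟩
  · simp only [D]
    rw [dif_pos t.2]
  · rw [Lab_evb hx he hn, hD1, hD1]
    exact pairOk_congr (hag a) (hag a') (h.2 _ (hlt a) _ (hlt a'))

/-- Proof: `Λ k = dL P0 n (tup _ (D a) (D a)) 0` for the address `a` with the bits of `k`; the fields are
below `2 ^ n` by `num_lt`.  For two addresses use `evb_cPhi` for `tup _ (D a) (D a')`: the label of its
side `0` agrees (`Agree`) with `Λ` at `a` and the label of its side `1` with `Λ` at `a'`. -/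
theorem labOk_of_hasLab (hx : x.length < m0) (he : e ≤ m0) (hn : m0 + 1 < n)
    (h : HasLab n (qq P0 n) (cPhi P0 x e m0 n)) : ∃ Λ, LabOk P0 x e m0 n Λ := by
  obtain ⟨D, hD1, hD2⟩ := h
  let A : ℕ → Fin n → Bool := fun k t => k.testBit t
  refine ⟨fun k => Lab_lb n (D (A k)), fun k _ j _ => num_lt _ _, fun a ha a' ha' => ?_⟩
  have hnum : ∀ k < 2 ^ n, num (D (A k)) 0 n = k := by
    intro k hk
    refine Lab_num_eq hk fun t ht => ?_
    rw [zero_add]
    exact hD1 (A k) ⟨t, ht⟩
  have h1 := (Lab_evb hx he hn (D (A a)) (D (A a'))).1 (hD2 _ _)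
  rw [hnum a ha, hnum a' ha'] at h1
  exact h1

end Pool.Agent.Lib.MP_bb9e9d_lc
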