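import Pool.Agent.Lib.MP_bb9e9d_lc.Hard.PTd

/-! # SAT is NEXP-hard -/

namespace Pool.Agent.Lib.MP_bb9e9d_lc

open MP_634427_lc

/-- Proof: let `V, c0` be the verifier; `PT V` gives `F` with `PolyTime F` and `F (enc (x, v)) =
enc (V (x, v))`; `exists_pg`, `exists_room`; the reduction is `redW P0 c0 c` (`redW_iff`,
`pt_redW`); `enc b ≠ nil` iff `b = true`. -/
theorem sat_hard (u : Bool) {A : Set Word} (hA : InNEXP A) : Reduces A (SAT u) := by
  obtain ⟨V, c0, ⟨F, hF, hFV⟩, hV⟩ := hA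
  obtain ⟨P0, hP, rfl⟩ := exists_pg hF
  obtain ⟨c, hc⟩ := exists_room hP
  have hb : ∀ b : Bool, (enc b : BT) ≠ .nil ↔ b = true := by
    intro b
    cases b
    · exact ⟨fun h => absurd rfl h, fun h => absurd h (by decide)⟩
    · exact ⟨fun _ => rfl, fun _ h => BT.noConfusion h⟩
  refine ⟨redW P0 c0 c, pt_redW P0 c0 c, fun w => ?_⟩
  rw [hV, redW_iff u hc w]
  constructor
  · rintro ⟨v, hv, h⟩
    exact ⟨v, hv, by rw [hFV, hb]; exact h⟩
  · rintro ⟨v, hv, h⟩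
    rw [hFV, hb] at h
    exact ⟨v, hv, h⟩

end Pool.Agent.Lib.MP_bb9e9d_lc
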