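import Pool.Agent.Lib.MP_bb9e9d_lc.Hard.Form

/-! # Polynomial time: concepts -/

namespace Pool.Agent.Lib.MP_bb9e9d_lc

open MP_634427_lc

variable {γ : Type} [Enc γ]

private theorem pt_of_enc {α β : Type} [Enc α] [Enc β] {f : γ → α} {g : γ → β} (hf : PT f)
    (h : ∀ c, enc (f c) = enc (g c)) : PT g := by
  obtain ⟨F, hF, h'⟩ := hf
  exact ⟨F, hF, fun c => by rw [h', h]⟩

theorem sz_inter (a b : Con) : sz (Con.inter a b) = sz a + sz b + 7 := by
  have h : sz (Con.inter a b) = sz ((5 : ℕ), a, b) := rfl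
  rw [h]
  simp only [sz_pair, sz_nat]
  omega

theorem sz_neg (a : Con) : sz (Con.neg a) = sz a + 5 := by
  have h : sz (Con.neg a) = sz ((4 : ℕ), a) := rfl
  rw [h]
  simp only [sz_pair, sz_nat]
  omega

theorem pt_neg {f : γ → Con} (hf : PT f) : PT fun c => Con.neg (f c) :=
  pt_of_enc (PT.pair (PT.const (4 : ℕ)) hf) fun _ => rfl

theorem pt_inter {f g : γ → Con} (hf : PT f) (hg : PT g) : PT fun c => Con.inter (f c) (g c) :=
  pt_of_enc (PT.pair (PT.const (5 : ℕ)) (PT.pair hf hg)) fun _ => rfl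

theorem pt_ex {f : γ → Rl} (hf : PT f) : PT fun c => Con.ex (f c) :=
  pt_of_enc (PT.pair (PT.const (3 : ℕ)) hf) fun _ => rfl

theorem pt_name {f : γ → ℕ} (hf : PT f) : PT fun c => Con.name (f c) :=
  pt_of_enc (PT.pair (PT.const (2 : ℕ)) hf) fun _ => rfl

theorem pt_V {v : γ → ℕ} (hv : PT v) : PT fun c => V (v c) :=
  pt_ex (PT.pair (PT.const false) (PT.succ (PT.mul (PT.const 2) hv)))

theorem pt_cOr {f g : γ → Con} (hf : PT f) (hg : PT g) : PT fun c => cOr (f c) (g c) :=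
  pt_neg (pt_inter (pt_neg hf) (pt_neg hg))

theorem pt_cImp {f g : γ → Con} (hf : PT f) (hg : PT g) : PT fun c => cImp (f c) (g c) :=
  pt_neg (pt_inter hf (pt_neg hg))

theorem pt_cIff {f g : γ → Con} (hf : PT f) (hg : PT g) : PT fun c => cIff (f c) (g c) :=
  pt_inter (pt_cImp hf hg) (pt_cImp hg hf)

/-- Proof: `PT.foldr_add`. -/
theorem pt_cAll {l : γ → List Con} (hl : PT l) : PT fun c => cAll (l c) := by
  refine PT.foldr_add (f := fun (_ : γ) (a r : Con) => Con.inter a r) hl (PT.const Con.top)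
    (pt_inter (PT.fst' PT.snd) (PT.snd' PT.snd)) ?_
  obtain ⟨k, hk⟩ := hl.size_le
  obtain ⟨k', hk'⟩ := PB.add (F := fun n => (n + 2) ^ k) ⟨k, fun n => le_rfl⟩ (PB.const 7)
  refine ⟨k', fun c a r ha => ?_⟩
  have h1 := sz_mem_le ha
  have h2 := hk c
  have h3 := hk' (sz c)
  beta_reduce at h3
  rw [sz_inter]
  omega

end Pool.Agent.Lib.MP_bb9e9d_lc
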