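import Pool.Agent.Lib.MP_bb9e9d_lc.Hard.PTa

/-! # Polynomial time: numbers as concepts -/

namespace Pool.Agent.Lib.MP_bb9e9d_lc

open MP_634427_lc

variable {γ : Type} [Enc γ]

theorem pt_hot {j : γ → ℕ} (hj : PT j) : PT fun c => hot (j c) :=
  PT.append (PT.replicate hj (PT.const false)) (PT.const [true])

theorem pt_cEq {n A B : γ → ℕ} (hn : PT n) (hA : PT A) (hB : PT B) :
    PT fun c => cEq (n c) (A c) (B c) :=
  pt_cAll (PT.map (f := fun c t => cIff (V (A c + t)) (V (B c + t))) (PT.range hn)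
    (pt_cIff (pt_V (PT.add (hA.comp PT.fst) PT.snd)) (pt_V (PT.add (hB.comp PT.fst) PT.snd))))

/-- Proof: `PT.foldl`; the accumulator occurs once in the step, so the size grows by a polynomial
amount in each step. -/
theorem pt_cLt {n A B : γ → ℕ} (hn : PT n) (hA : PT A) (hB : PT B) :
    PT fun c => cLt (n c) (A c) (B c) := by
  have hstep : PT fun p : γ × ℕ × Con =>
      cOr (.inter (.neg (V (A p.1 + p.2.1))) (V (B p.1 + p.2.1)))
        (.inter (cIff (V (A p.1 + p.2.1)) (V (B p.1 + p.2.1))) p.2.2) :=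
    pt_cOr (pt_inter (pt_neg (pt_V (PT.add (hA.comp PT.fst) (PT.fst' PT.snd))))
      (pt_V (PT.add (hB.comp PT.fst) (PT.fst' PT.snd))))
      (pt_inter (pt_cIff (pt_V (PT.add (hA.comp PT.fst) (PT.fst' PT.snd)))
        (pt_V (PT.add (hB.comp PT.fst) (PT.fst' PT.snd)))) (PT.snd' PT.snd))
  have h := PT.foldr_add (f := fun (c : γ) (t : ℕ) (r : Con) =>
      cOr (.inter (.neg (V (A c + t))) (V (B c + t)))
        (.inter (cIff (V (A c + t)) (V (B c + t))) r))
    (PT.reverse (PT.range hn)) (PT.const Con.bot) hstep (by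
      have h0 : PT fun p : γ × ℕ => cOr (.inter (.neg (V (A p.1 + p.2))) (V (B p.1 + p.2)))
          (.inter (cIff (V (A p.1 + p.2)) (V (B p.1 + p.2))) Con.top) :=
        hstep.comp (PT.pair PT.fst (PT.pair PT.snd (PT.const Con.top)))
      obtain ⟨k, hk⟩ := h0.size_le
      obtain ⟨a, ha⟩ := (PT.reverse (PT.range hn)).size_le
      obtain ⟨e, he⟩ := PB.comp (F := fun n => (n + 2) ^ k)
        (G := fun n => n + (n + 2) ^ a + 1) ⟨k, fun n => le_rfl⟩
        (PB.add (PB.add PB.id ⟨a, fun n => le_rfl⟩) (PB.const 1))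
      refine ⟨e, fun c t r ht => ?_⟩
      have h1 := sz_mem_le ht
      have h2 := ha c
      have h3 := he (sz c)
      beta_reduce at h3
      have h4 := hk (c, t)
      have h5 : (sz (c, t) + 2) ^ k ≤ ((sz c + (sz c + 2) ^ a + 1) + 2) ^ k :=
        Nat.pow_le_pow_left (by simp only [sz_pair]; omega) k
      simp only [cOr, sz_neg, sz_inter] at h4 ⊢
      omega)
  refine h.of_eq fun c => ?_
  rw [List.foldr_reverse]
  rfl

theorem pt_cCst {n A : γ → ℕ} {w : γ → Word} (hn : PT n) (hA : PT A) (hw : PT w) :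
    PT fun c => cCst (n c) (A c) (w c) :=
  pt_cAll (PT.map (f := fun c t => bif (w c).getD t false then V (A c + t)
      else .neg (V (A c + t))) (PT.range hn)
    (PT.cond (PT.getLD PT.snd (hw.comp PT.fst) (PT.const false))
      (pt_V (PT.add (hA.comp PT.fst) PT.snd)) (pt_neg (pt_V (PT.add (hA.comp PT.fst) PT.snd)))))

theorem pt_cReg {e m0 n A : γ → ℕ} (he : PT e) (hm : PT m0) (hn : PT n) (hA : PT A) :
    PT fun c => cReg (e c) (m0 c) (n c) (A c) :=
  pt_cAll (PT.map (f := fun c t => bif decide (t < e c) then .top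
      else bif decide (t = m0 c) then V (A c + t) else .neg (V (A c + t))) (PT.range hn)
    (PT.cond (PT.lt PT.snd (he.comp PT.fst)) (PT.const Con.top)
      (PT.cond (PT.eqNat PT.snd (hm.comp PT.fst))
        (pt_V (PT.add (hA.comp PT.fst) PT.snd))
        (pt_neg (pt_V (PT.add (hA.comp PT.fst) PT.snd))))))

end Pool.Agent.Lib.MP_bb9e9d_lc
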