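import Pool.Agent.Lib.MP_bb9e9d_lc.Hard.PTb

/-! # Polynomial time: the rules as concepts -/

namespace Pool.Agent.Lib.MP_bb9e9d_lc

open MP_634427_lc

variable {γ : Type} [Enc γ] {P0 : Pg} {n : γ → ℕ}

theorem pt_qq (hn : PT n) : PT fun c => qq P0 (n c) := by
  unfold qq
  exact PT.add (PT.mul (PT.const 16) hn) (PT.const _)

theorem pt_pA (hn : PT n) (s : ℕ) : PT fun c => pA P0 (n c) s := by
  unfold pA
  exact PT.add (PT.const 2) (PT.mul (PT.const s) (pt_qq hn))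

theorem pt_pF (hn : PT n) (s j : ℕ) : PT fun c => pF P0 (n c) s j := by
  unfold pF
  exact PT.add (PT.add (PT.add (PT.const 2) (PT.mul (PT.const s) (pt_qq hn))) hn)
    (PT.mul (PT.const j) hn)

theorem pt_pB (hn : PT n) (s b : ℕ) : PT fun c => pB P0 (n c) s b := by
  unfold pB
  exact PT.add (PT.add (PT.add (PT.const 2) (PT.mul (PT.const s) (pt_qq hn)))
    (PT.mul (PT.const 16) hn)) (PT.const b)

private theorem eFF (hn : PT n) (s j s' j' : ℕ) :
    PT fun c => cEq (n c) (pF P0 (n c) s j) (pF P0 (n c) s' j') :=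
  pt_cEq hn (pt_pF hn s j) (pt_pF hn s' j')

private theorem eFA (hn : PT n) (s j s' : ℕ) :
    PT fun c => cEq (n c) (pF P0 (n c) s j) (pA P0 (n c) s') :=
  pt_cEq hn (pt_pF hn s j) (pt_pA hn s')

private theorem vB (hn : PT n) (s b : ℕ) : PT fun c => V (pB P0 (n c) s b) :=
  pt_V (pt_pB hn s b)

private theorem l2 {a b : γ → Con} (ha : PT a) (hb : PT b) : PT fun c => cAll [a c, b c] :=
  pt_cAll (PT.cons ha (PT.cons hb (PT.const [])))

private theorem l3 {a b d : γ → Con} (ha : PT a) (hb : PT b) (hd : PT d) :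
    PT fun c => cAll [a c, b c, d c] :=
  pt_cAll (PT.cons ha (PT.cons hb (PT.cons hd (PT.const []))))

private theorem l4 {a b d e : γ → Con} (ha : PT a) (hb : PT b) (hd : PT d) (he : PT e) :
    PT fun c => cAll [a c, b c, d c, e c] :=
  pt_cAll (PT.cons ha (PT.cons hb (PT.cons hd (PT.cons he (PT.const [])))))

private theorem l5 {a b d e f : γ → Con} (ha : PT a) (hb : PT b) (hd : PT d) (he : PT e)
    (hf : PT f) : PT fun c => cAll [a c, b c, d c, e c, f c] :=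
  pt_cAll (PT.cons ha (PT.cons hb (PT.cons hd (PT.cons he (PT.cons hf (PT.const []))))))

private theorem l6 {a b d e f g : γ → Con} (ha : PT a) (hb : PT b) (hd : PT d) (he : PT e)
    (hf : PT f) (hg : PT g) : PT fun c => cAll [a c, b c, d c, e c, f c, g c] :=
  pt_cAll (PT.cons ha (PT.cons hb (PT.cons hd (PT.cons he (PT.cons hf
    (PT.cons hg (PT.const [])))))))

theorem pt_cCl (hn : PT n) (p : ℕ) (k : Kd) (i o : ℕ) : PT fun c => cCl P0 (n c) p k i o := by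
  unfold cCl
  exact pt_inter (pt_cLt hn (pt_pF hn 0 p) (pt_pA hn 0)) (pt_cImp (eFA hn 0 p 1)
    (l3 (vB hn 1 _) (eFF hn 1 2 0 i) (eFF hn 1 3 0 o)))

theorem pt_cClR (hn : PT n) (p : ℕ) (k : Kd) (w i o : ℕ) :
    PT fun c => cClR P0 (n c) p k w i o := by
  unfold cClR
  exact pt_inter (pt_cLt hn (pt_pF hn 0 p) (pt_pA hn 0)) (pt_cImp (eFA hn 0 p 1)
    (l4 (vB hn 1 _) (eFF hn 1 4 0 w) (eFF hn 1 2 0 i) (eFF hn 1 3 0 o)))

theorem pt_cCell (hn : PT n) (z l r : ℕ) : PT fun c => cCell P0 (n c) z l r := by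
  unfold cCell
  exact pt_cImp (eFA hn 0 z 1) (l3 (vB hn 1 0) (eFF hn 1 0 0 l) (eFF hn 1 1 0 r))

/-- Proof: cases for `k`. -/
theorem pt_cRule (hn : PT n) (k : Kd) : PT fun c => cRule P0 (n c) k := by
  cases k with
  | ev q =>
    cases q with
    | id =>
      simp only [cRule]
      exact eFF hn 0 3 0 2
    | nil =>
      simp only [cRule]
      exact pt_cImp (eFA hn 0 3 1) (pt_neg (vB hn 1 0))
    | left =>
      simp only [cRule]
      exact pt_cImp (eFA hn 0 2 1) (pt_cOr (pt_inter (vB hn 1 0) (eFF hn 0 3 1 0))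
        (pt_inter (pt_neg (vB hn 1 0)) (eFF hn 0 3 0 2)))
    | right =>
      simp only [cRule]
      exact pt_cImp (eFA hn 0 2 1) (pt_cOr (pt_inter (vB hn 1 0) (eFF hn 0 3 1 1))
        (pt_inter (pt_neg (vB hn 1 0)) (eFF hn 0 3 0 2)))
    | node f g =>
      simp only [cRule]
      exact l3 (pt_cCell hn 3 5 6) (pt_cCl hn 12 _ 2 5) (pt_cCl hn 13 _ 2 6)
    | comp f g =>
      simp only [cRule]
      exact l2 (pt_cCl hn 12 _ 2 5) (pt_cCl hn 13 _ 5 3)
    | recur g h =>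
      simp only [cRule]
      exact pt_inter (pt_cImp (eFA hn 0 2 1) (pt_cOr
        (l3 (vB hn 1 0) (eFF hn 0 5 1 0) (eFF hn 0 6 1 1))
        (l3 (pt_neg (vB hn 1 0)) (eFF hn 0 5 0 2) (eFF hn 0 6 0 2)))) (pt_cClR hn 12 _ 5 6 3)
  | rc g h =>
    simp only [cRule]
    exact l3 (pt_cImp (eFA hn 0 2 1) (pt_inter (pt_cIff (vB hn 0 1) (vB hn 1 0))
        (pt_cImp (vB hn 0 1) (pt_inter (eFF hn 0 5 1 0) (eFF hn 0 6 1 1)))))
      (pt_cImp (pt_neg (vB hn 0 1)) (pt_cCl hn 12 _ 4 3))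
      (pt_cImp (vB hn 0 1) (l6 (pt_cClR hn 12 _ 4 5 7) (pt_cClR hn 13 _ 4 6 8)
        (pt_cCell hn 9 7 8) (pt_cCell hn 10 2 9) (pt_cCell hn 11 4 10) (pt_cCl hn 14 _ 11 3)))

theorem pt_cCp (hn : PT n) : PT fun c => cCp P0 (n c) := by
  unfold cCp
  exact pt_cImp (vB hn 0 2) (l3
    (pt_cImp (eFA hn 0 3 1) (pt_inter (pt_cIff (vB hn 1 0) (vB hn 0 0))
      (pt_cImp (vB hn 0 0) (pt_inter (eFF hn 0 5 1 0) (eFF hn 0 6 1 1)))))
    (pt_cImp (vB hn 0 0) (pt_cImp (eFA hn 0 0 1) (pt_inter (vB hn 1 2) (eFF hn 1 3 0 5))))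
    (pt_cImp (vB hn 0 0) (pt_cImp (eFA hn 0 1 1) (pt_inter (vB hn 1 2) (eFF hn 1 3 0 6)))))

theorem pt_cFin {m0 : γ → ℕ} (hm : PT m0) (hn : PT n) : PT fun c => cFin P0 (m0 c) (n c) := by
  unfold cFin
  exact pt_cImp (pt_cCst hn (pt_pA hn 0) (PT.replicate hn (PT.const true)))
    (l3 (pt_cCl hn 12 _ 6 5) (pt_cImp (eFA hn 0 5 1) (vB hn 1 0))
      (pt_cImp (pt_cCst hn (pt_pA hn 1) (pt_hot (PT.succ hm)))
        (pt_inter (vB hn 1 2) (eFF hn 1 3 0 6))))

theorem pt_cIn {x : γ → Word} {e m0 : γ → ℕ} (hx : PT x) (he : PT e) (hm : PT m0) (hn : PT n) :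
    PT fun c => cIn P0 (x c) (e c) (m0 c) (n c) := by
  unfold cIn
  have hl : PT fun c => (x c).length := PT.length hx
  refine l5 ?_ ?_ ?_ ?_ ?_
  · exact pt_cImp (pt_cCst hn (pt_pA hn 0) (PT.const [])) (pt_neg (vB hn 0 0))
  · exact pt_cImp (pt_cCst hn (pt_pA hn 0) (PT.const [true]))
      (l3 (vB hn 0 0) (pt_cCst hn (pt_pF hn 0 0) (PT.const []))
        (pt_cCst hn (pt_pF hn 0 1) (PT.const [])))
  · refine pt_cAll (PT.map (f := fun c (j : ℕ) => cImp (cCst (n c) (pA P0 (n c) 0) (hot (j + 1)))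
      (cAll [V (pB P0 (n c) 0 0),
        cCst (n c) (pF P0 (n c) 0 0) (bif (x c).reverse.getD j false then [true] else []),
        cCst (n c) (pF P0 (n c) 0 1) (bif decide (j = 0) then [] else hot j)])) (PT.range hl) ?_)
    have hn' : PT fun p : γ × ℕ => n p.1 := hn.comp PT.fst
    have hx' : PT fun p : γ × ℕ => (x p.1).reverse := PT.reverse (hx.comp PT.fst)
    have hj : PT fun p : γ × ℕ => p.2 := PT.snd
    exact pt_cImp (pt_cCst hn' (pt_pA hn' 0) (pt_hot (PT.succ hj)))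
      (l3 (vB hn' 0 0)
        (pt_cCst hn' (pt_pF hn' 0 0) (PT.cond (PT.getLD hj hx' (PT.const false))
          (PT.const [true]) (PT.const [])))
        (pt_cCst hn' (pt_pF hn' 0 1) (PT.cond (PT.isZero hj) (PT.const []) (pt_hot hj))))
  · exact pt_cImp (pt_inter (pt_cReg he hm hn (pt_pA hn 0)) (vB hn 0 0))
      (pt_inter (pt_cOr (pt_cCst hn (pt_pF hn 0 0) (PT.const []))
        (pt_cCst hn (pt_pF hn 0 0) (PT.const [true])))
        (pt_cOr (pt_cCst hn (pt_pF hn 0 1) (PT.const [])) (pt_cReg he hm hn (pt_pF hn 0 1))))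
  · exact pt_cImp (pt_cCst hn (pt_pA hn 0) (pt_hot (PT.succ hm)))
      (l3 (vB hn 0 0)
        (pt_cCst hn (pt_pF hn 0 0) (PT.cond (PT.isZero hl) (PT.const []) (pt_hot hl)))
        (pt_cOr (pt_cCst hn (pt_pF hn 0 1) (PT.const [])) (pt_cReg he hm hn (pt_pF hn 0 1))))

/-- Proof: the list `kds P0` is constant: induction over lists of kinds. -/
theorem pt_cPhi {x : γ → Word} {e m0 : γ → ℕ} (hx : PT x) (he : PT e) (hm : PT m0) (hn : PT n) :
    PT fun c => cPhi P0 (x c) (e c) (m0 c) (n c) := by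
  unfold cPhi
  have key : ∀ l : List Kd, PT fun c => l.map fun k =>
      cImp (V (pB P0 (n c) 0 (kb P0 k))) (cRule P0 (n c) k) := by
    intro l
    induction l with
    | nil => exact PT.const []
    | cons k l ih => exact PT.cons (pt_cImp (vB hn 0 _) (pt_cRule hn k)) ih
  exact l5 (pt_cIn hx he hm hn)
    (pt_cImp (vB hn 0 0) (pt_inter (pt_cLt hn (pt_pF hn 0 0) (pt_pA hn 0))
      (pt_cLt hn (pt_pF hn 0 1) (pt_pA hn 0))))
    (pt_cCp hn) (pt_cFin hm hn) (pt_cAll (key _))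

end Pool.Agent.Lib.MP_bb9e9d_lc
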