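import Pool.Agent.Lib.MP_bb9e9d_lc.Hard.Rules
import Pool.Agent.Lib.MP_bb9e9d_lc.Hard.ProgA

/-! # Soundness of the rules: the records -/

namespace Pool.Agent.Lib.MP_bb9e9d_lc

open MP_634427_lc

variable {P0 : Pg} {x : Word} {e m0 n : ℕ} {Λ : ℕ → Lb}

/-- a node with given children -/
theorem tr_cell (h : LabOk P0 x e m0 n Λ) {a z l r : ℕ} (ha : a < 2 ^ n) (hz : z < 15)
    (hc : ∀ a' < 2 ^ n, CellR (Λ a) a' (Λ a') z l r) {s t : BT} (hs : Tr Λ ((Λ a).fld l) s)
    (ht : Tr Λ ((Λ a).fld r) t) : Tr Λ ((Λ a).fld z) (.node s t) := by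
  obtain ⟨h0, h1, h2⟩ := hc _ (h.1 a ha z hz) rfl
  refine Tr.node h0 ?_ ?_
  · rw [h1]
    exact hs
  · rw [h2]
    exact ht

private lemma SoundB_nil {a : ℕ} {T : BT} (h0 : (Λ a).bit 0 = false) (hT : Tr Λ a T) : T = .nil := by
  cases hT with
  | nil _ => rfl
  | node h1 _ _ => rw [h0] at h1; cases h1

private lemma SoundB_node {a : ℕ} {T : BT} (h0 : (Λ a).bit 0 = true) (hT : Tr Λ a T) :
    ∃ s t, T = .node s t ∧ Tr Λ ((Λ a).fld 0) s ∧ Tr Λ ((Λ a).fld 1) t := by
  cases hT with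
  | nil h1 => rw [h0] at h1; cases h1
  | node _ h2 h3 => exact ⟨_, _, rfl, h2, h3⟩

/-- The records are correct.  Proof: strong induction on `a`, then cases for `k` and the rule `KRule`
(used for the pairs of `a` and the addresses in its fields, all of which are `< 2 ^ n`).
For `ev (recur g h)`: if the input is `nil`, then `z₁ = z₂ = i` and both are trees `nil`; otherwise the
children.  For `rc g h`: cases for the tree `y` of the input. -/
theorem record_sound (h : LabOk P0 x e m0 n Λ) :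
    ∀ a < 2 ^ n,
      (∀ q, Kd.ev q ∈ kds P0 → (Λ a).bit (kb P0 (.ev q)) = true → ∀ T, Tr Λ ((Λ a).fld 2) T →
        Tr Λ ((Λ a).fld 3) (q.eval T)) ∧
      (∀ g f, Kd.rc g f ∈ kds P0 → (Λ a).bit (kb P0 (.rc g f)) = true → ∀ s T,
        Tr Λ ((Λ a).fld 4) s → Tr Λ ((Λ a).fld 2) T →
        Tr Λ ((Λ a).fld 3) (BT.recur g.eval f.eval s T)) := by
  intro a
  induction a using Nat.strong_induction_on with
  | _ a ih =>
    intro ha
    have hfld : ∀ j < 15, (Λ a).fld j < 2 ^ n := h.1 a ha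
    obtain ⟨kn, kc, kr, kh, -⟩ := kds_closed P0
    -- use of a record
    have useCl : ∀ p q i o, p < 15 → Kd.ev q ∈ kds P0 →
        (∀ a' < 2 ^ n, Cl P0 a (Λ a) a' (Λ a') p (.ev q) i o) → ∀ T, Tr Λ ((Λ a).fld i) T →
        Tr Λ ((Λ a).fld o) (q.eval T) := by
      intro p q i o hp hq hCl T hT
      obtain ⟨hlt, hrec⟩ := hCl _ (hfld p hp)
      obtain ⟨hb, h2, h3⟩ := hrec rfl
      have := (ih _ hlt (hfld p hp)).1 q hq hb T (by rw [h2]; exact hT)
      rwa [h3] at this
    have useClR : ∀ p g f w i o, p < 15 → Kd.rc g f ∈ kds P0 →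
        (∀ a' < 2 ^ n, ClR P0 a (Λ a) a' (Λ a') p (.rc g f) w i o) → ∀ s T,
        Tr Λ ((Λ a).fld w) s → Tr Λ ((Λ a).fld i) T →
        Tr Λ ((Λ a).fld o) (BT.recur g.eval f.eval s T) := by
      intro p g f w i o hp hq hCl s T hs hT
      obtain ⟨hlt, hrec⟩ := hCl _ (hfld p hp)
      obtain ⟨hb, h4, h2, h3⟩ := hrec rfl
      have := (ih _ hlt (hfld p hp)).2 g f hq hb s T (by rw [h4]; exact hs) (by rw [h2]; exact hT)
      rwa [h3] at this
    constructor
    · intro q hq hb T hT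
      have hK : ∀ a' < 2 ^ n, KRule P0 a (Λ a) a' (Λ a') (.ev q) := fun a' ha' =>
        (h.2 a ha a' ha').kind _ hq hb
      cases q with
      | id =>
        have h1 : (Λ a).fld 3 = (Λ a).fld 2 := hK a ha
        rw [h1]
        exact hT
      | nil =>
        exact Tr.nil (hK _ (hfld 3 (by norm_num)) rfl)
      | left =>
        rcases hK _ (hfld 2 (by norm_num)) rfl with ⟨h1, h2⟩ | ⟨h1, h2⟩
        · obtain ⟨s, t, rfl, hs, ht⟩ := SoundB_node h1 hT
          rw [h2]
          exact hs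
        · obtain rfl := SoundB_nil h1 hT
          rw [h2]
          exact hT
      | right =>
        rcases hK _ (hfld 2 (by norm_num)) rfl with ⟨h1, h2⟩ | ⟨h1, h2⟩
        · obtain ⟨s, t, rfl, hs, ht⟩ := SoundB_node h1 hT
          rw [h2]
          exact ht
        · obtain rfl := SoundB_nil h1 hT
          rw [h2]
          exact hT
      | node f g =>
        obtain ⟨kf, kg⟩ := kn f g hq
        refine tr_cell h ha (by norm_num) (fun a' ha' => (hK a' ha').1) ?_ ?_
        · exact useCl 12 f 2 5 (by norm_num) kf (fun a' ha' => (hK a' ha').2.1) T hT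
        · exact useCl 13 g 2 6 (by norm_num) kg (fun a' ha' => (hK a' ha').2.2) T hT
      | comp f g =>
        obtain ⟨kf, kg⟩ := kc f g hq
        have h5 := useCl 12 g 2 5 (by norm_num) kg (fun a' ha' => (hK a' ha').1) T hT
        exact useCl 13 f 5 3 (by norm_num) kf (fun a' ha' => (hK a' ha').2) _ h5
      | recur g f =>
        have kgf := kr g f hq
        have h56 : Tr Λ ((Λ a).fld 5) T.left ∧ Tr Λ ((Λ a).fld 6) T.right := by
          rcases (hK _ (hfld 2 (by norm_num))).1 rfl with ⟨h1, h2, h3⟩ | ⟨h1, h2, h3⟩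
          · obtain ⟨s, t, rfl, hs, ht⟩ := SoundB_node h1 hT
            rw [h2, h3]
            exact ⟨hs, ht⟩
          · obtain rfl := SoundB_nil h1 hT
            rw [h2, h3]
            exact ⟨hT, hT⟩
        exact useClR 12 g f 5 6 3 (by norm_num) kgf (fun a' ha' => (hK a' ha').2) _ _ h56.1 h56.2
    · intro g f hq hb s T hs hT
      have hK : ∀ a' < 2 ^ n, KRule P0 a (Λ a) a' (Λ a') (.rc g f) := fun a' ha' =>
        (h.2 a ha a' ha').kind _ hq hb
      obtain ⟨kg, kf⟩ := kh g f hq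
      obtain ⟨hb1, hb2⟩ := (hK _ (hfld 2 (by norm_num))).1 rfl
      rcases hb0 : (Λ a).bit 1 with _ | _
      · rw [hb0] at hb1
        obtain rfl := SoundB_nil hb1.symm hT
        exact useCl 12 g 4 3 (by norm_num) kg (fun a' ha' => (hK a' ha').2.1 hb0) s hs
      · rw [hb0] at hb1
        obtain ⟨h5, h6⟩ := hb2 hb0
        obtain ⟨u, v, rfl, hu, hv⟩ := SoundB_node hb1.symm hT
        rw [← h5] at hu
        rw [← h6] at hv
        have h7 := useClR 12 g f 4 5 7 (by norm_num) hq (fun a' ha' => ((hK a' ha').2.2 hb0).1) _ _ hs hu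
        have h8 := useClR 13 g f 4 6 8 (by norm_num) hq (fun a' ha' => ((hK a' ha').2.2 hb0).2.1) _ _ hs hv
        have h9 := tr_cell h ha (z := 9) (by norm_num)
          (fun a' ha' => ((hK a' ha').2.2 hb0).2.2.1) h7 h8
        have h10 := tr_cell h ha (z := 10) (by norm_num)
          (fun a' ha' => ((hK a' ha').2.2 hb0).2.2.2.1) hT h9
        have h11 := tr_cell h ha (z := 11) (by norm_num)
          (fun a' ha' => ((hK a' ha').2.2 hb0).2.2.2.2.1) hs h10
        exact useCl 14 f 11 3 (by norm_num) kf (fun a' ha' => ((hK a' ha').2.2 hb0).2.2.2.2.2) _ h11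

end Pool.Agent.Lib.MP_bb9e9d_lc
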