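import Pool.Agent.Lib.MP_bb9e9d_lc.Hard.SoundA
import Pool.Agent.Lib.MP_bb9e9d_lc.Hard.SoundB
import Pool.Agent.Lib.MP_bb9e9d_lc.Hard.ProgA

/-! # Soundness of the rules -/

namespace Pool.Agent.Lib.MP_bb9e9d_lc

open MP_634427_lc

variable {P0 : Pg} {x : Word} {e m0 n : ℕ} {Λ : ℕ → Lb}

/-- Proof: `exists_tr`, `tr_root` for the root, `tr_copy` (copy bit of the root by `FinRule`), the
record at `fld 12` of the last address has the kind `ev P0`, the input `fld 6` and the output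
`fld 5` of the last address, `record_sound`; the cell of the output is a node. -/
theorem sound (h : LabOk P0 x e m0 n Λ) (hx : x.length < m0) (hn : m0 + 1 < n) (he : e ≤ m0) :
    ∃ u : Word, u.length ≤ 2 ^ e ∧ P0.eval (enc (x, u)) ≠ .nil := by
  have hpos : 0 < 2 ^ n := Nat.two_pow_pos n
  have ha : 2 ^ n - 1 < 2 ^ n := by omega
  have hroot : 2 ^ (m0 + 1) < 2 ^ n := Nat.pow_lt_pow_right (by norm_num) hn
  obtain ⟨t, ht⟩ := exists_tr h hroot
  obtain ⟨u, hu, rfl⟩ := tr_root h hx hn he ht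
  refine ⟨u, hu, ?_⟩
  have hfin : ∀ a' < 2 ^ n, FinRule P0 m0 n (2 ^ n - 1) (Λ (2 ^ n - 1)) a' (Λ a') := fun a' ha' =>
    (h.2 _ ha a' ha').fin
  obtain ⟨-, -, hc⟩ := hfin _ hroot rfl
  obtain ⟨hc1, hc2⟩ := hc rfl
  have ht' := tr_copy h hroot hc1 ht
  rw [hc2] at ht'
  have h12 : (Λ (2 ^ n - 1)).fld 12 < 2 ^ n := h.1 _ ha 12 (by norm_num)
  obtain ⟨⟨-, hrec⟩, -, -⟩ := hfin _ h12 rfl
  obtain ⟨hb, h2, h3⟩ := hrec rfl
  have hmem : Kd.ev P0 ∈ kds P0 := by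
    obtain ⟨-, -, -, -, hm⟩ := kds_closed P0
    exact hm
  have hres := (record_sound h _ h12).1 P0 hmem hb _ (by rw [h2]; exact ht')
  rw [h3] at hres
  have h5 : (Λ (2 ^ n - 1)).fld 5 < 2 ^ n := h.1 _ ha 5 (by norm_num)
  obtain ⟨-, h5', -⟩ := hfin _ h5 rfl
  have hb5 := h5' rfl
  intro hnil
  rw [hnil] at hres
  cases hres with
  | nil hb' => rw [hb5] at hb'; cases hb'

end Pool.Agent.Lib.MP_bb9e9d_lc
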