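import Pool.Agent.Lib.MP_bb9e9d_lc.Hard.KBc
import Pool.Agent.Lib.MP_bb9e9d_lc.Hard.Enc
import Pool.Agent.Lib.MP_bb9e9d_lc.Hard.Lab
import Pool.Agent.Lib.MP_bb9e9d_lc.Hard.Sound
import Pool.Agent.Lib.MP_bb9e9d_lc.Hard.Comp

/-! # The reduction -/

namespace Pool.Agent.Lib.MP_bb9e9d_lc

open MP_634427_lc

/-- the exponent of the witness length -/
def rE (c0 : ℕ) (x : Word) : ℕ := x.length ^ c0 + c0

/-- the number of the region bit -/
def rM (c0 : ℕ) (x : Word) : ℕ := rE c0 x + x.length + 1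

/-- the number of address bits -/
def rN (c0 c : ℕ) (x : Word) : ℕ := c * (rM c0 x + 3) + rM c0 x + 10

/-- the input of SAT for the word `x` -/
def redI (P0 : Pg) (c0 c : ℕ) (x : Word) : Inst :=
  kbInst (rN c0 c x) (qq P0 (rN c0 c x)) (cPhi P0 x (rE c0 x) (rM c0 x) (rN c0 c x))

/-- the reduction -/
def redW (P0 : Pg) (c0 c : ℕ) (x : Word) : Word := code (enc (redI P0 c0 c x))

/-- Proof: `→`: `exists_room`'s constant `c`; `complete`, `hasLab_of_labOk`, `sat_of_lab`, `kb_valid`.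
`←`: `code_injective`, `enc_inst_injective`; `lab_of_sat`, `labOk_of_hasLab`, `sound`. -/
theorem redW_iff (u : Bool) {P0 : Pg} {c0 c : ℕ}
    (hc : ∀ (x v : Word) (e m0 : ℕ), x.length < m0 → e ≤ m0 → v.length ≤ 2 ^ e →
      Room P0 x v e m0 (c * (m0 + 3) + m0 + 10)) (x : Word) :
    redW P0 c0 c x ∈ SAT u ↔
      ∃ v : Word, v.length ≤ 2 ^ (x.length ^ c0 + c0) ∧ P0.eval (enc (x, v)) ≠ .nil := by
  have hxl : x.length < rM c0 x := by unfold rM; omega
  have hel : rE c0 x ≤ rM c0 x := by unfold rM; omega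
  have hnl : rM c0 x + 1 < rN c0 c x := by unfold rN; omega
  have hq : rN c0 c x ≤ qq P0 (rN c0 c x) := by unfold qq; omega
  have hφ : IsBit (2 + 2 * qq P0 (rN c0 c x))
      (cPhi P0 x (rE c0 x) (rM c0 x) (rN c0 c x)) := isBit_cPhi
  constructor
  · rintro ⟨K, hK, -, Δ, I, -, hI, hne⟩
    have hKe : redI P0 c0 c x = K := enc_inst_injective (code_injective hK)
    subst hKe
    have hlab := lab_of_sat hq hφ ⟨Δ, I, hI, hne⟩
    obtain ⟨Λ, hΛ⟩ := labOk_of_hasLab hxl hel hnl hlab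
    exact sound hΛ hxl hnl hel
  · rintro ⟨v, hv, hev⟩
    have hroom : Room P0 x v (rE c0 x) (rM c0 x) (rN c0 c x) := hc x v _ _ hxl hel hv
    have hlab := hasLab_of_labOk hxl hel hnl (complete hroom hev)
    obtain ⟨Δ, I, hU, hI, hne⟩ := sat_of_lab u hq hφ hlab
    exact ⟨redI P0 c0 c x, rfl, kb_valid, Δ, I, hU, hI, hne⟩

end Pool.Agent.Lib.MP_bb9e9d_lc
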