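import Pool.Agent.Lib.MP_bb9e9d_lc.Hard.PTc
import Pool.Agent.Lib.MP_bb9e9d_lc.Hard.Red

/-! # Polynomial time: the reduction -/

namespace Pool.Agent.Lib.MP_bb9e9d_lc

open MP_634427_lc

variable {γ : Type} [Enc γ]

/-- Proof: the encoding of `K` is that of `K.tup`. -/
theorem pt_inst {f : γ → Inst} (hf : PT fun c => (f c).tup) : PT f := by
  obtain ⟨F, hF, h⟩ := hf
  exact ⟨F, hF, h⟩

theorem pt_cMatch {q B : γ → ℕ} (hq : PT q) (hB : PT B) : PT fun c => cMatch (q c) (B c) :=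
  pt_cAll (PT.map (f := fun c t => cIff (Con.name (2 + t)) (V (B c + t))) (PT.range hq)
    (pt_cIff (pt_name (PT.add (PT.const 2) PT.snd)) (pt_V (PT.add (hB.comp PT.fst) PT.snd))))

private theorem PTd_ex {v : γ → ℕ} (b : Bool) (hv : PT v) : PT fun c => Con.ex (b, v c) :=
  pt_ex (PT.pair (PT.const b) hv)

theorem pt_bitCI {v : γ → ℕ} (hv : PT v) : PT fun c => bitCI (v c) := by
  have h2 : PT fun c => 2 * v c := PT.mul (PT.const 2) hv
  have h3 : PT fun c => 2 * v c + 1 := PT.succ h2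
  exact PT.cons (PT.pair (PT.const Con.top) (pt_cOr (PTd_ex false h2) (PTd_ex false h3)))
    (PT.cons (PT.pair (PTd_ex true h2) (PT.const (Con.name 0)))
      (PT.cons (PT.pair (PTd_ex true h3) (PT.const (Con.name 0)))
        (PT.cons (PT.pair (pt_inter (PTd_ex true h2) (PTd_ex true h3)) (PT.const Con.bot))
          (PT.const []))))

theorem pt_mainCI {n q : γ → ℕ} {φ : γ → Con} (hn : PT n) (hq : PT q) (hφ : PT φ) :
    PT fun c => mainCI (n c) (q c) (φ c) := by
  have h2 : PT fun c => 2 * (2 + 2 * q c) :=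
    PT.mul (PT.const 2) (PT.add (PT.const 2) (PT.mul (PT.const 2) hq))
  have h3 : PT fun c => 2 * (2 + 2 * q c) + 1 := PT.succ h2
  have hV : PT fun _ : γ => Con.inter (V 0) (V 1) := PT.const _
  exact PT.cons (PT.const (Con.name 1, Con.name 0))
    (PT.cons (PT.const (Con.inter (.name 0) (.neg (.name 1)), V 0))
    (PT.cons (PT.pair (pt_inter (PT.const (Con.inter (V 0) (.neg (V 1))))
      (pt_cMatch hn (PT.const 2))) (PT.const Con.bot))
    (PT.cons (PT.pair (pt_inter hV hφ) (PT.const Con.bot))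
    (PT.cons (PT.pair (PT.const (Con.inter (.inter (V 0) (V 1)) (.name 0)))
      (pt_inter (PTd_ex false h2) (PTd_ex false h3)))
    (PT.cons (PT.pair (PTd_ex true h2) (pt_cMatch hq (PT.const 2)))
    (PT.cons (PT.pair (PTd_ex true h3) (pt_cMatch hq (PT.add (PT.const 2) hq)))
      (PT.const [])))))))

theorem pt_kbInst {n q : γ → ℕ} {φ : γ → Con} (hn : PT n) (hq : PT q) (hφ : PT φ) :
    PT fun c => kbInst (n c) (q c) (φ c) := by
  refine pt_inst (PT.pair (PT.const (Con.name 1)) (PT.pair (PT.append ?_ (pt_mainCI hn hq hφ))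
    (PT.pair (PT.const []) (PT.pair (PT.const [(0, 0)]) (PT.pair (PT.const [])
    (PT.pair (PT.const [0, 1]) (PT.pair (PT.const [(0, 1)]) (PT.pair ?_ (PT.const [])))))))))
  · exact PT.flatMap (f := fun _ v => bitCI v)
      (PT.range (PT.add (PT.const 2) (PT.mul (PT.const 2) hq))) (pt_bitCI PT.snd)
  · exact PT.map (f := fun _ t => 2 + t) (PT.range hq) (PT.add (PT.const 2) PT.snd)

theorem pt_redW (P0 : Pg) (c0 c : ℕ) : PT (redW P0 c0 c) := by
  have hE : PT (rE c0) := PT.add (PT.pow (PT.length PT.id) c0) (PT.const c0)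
  have hM : PT (rM c0) := PT.succ (PT.add hE (PT.length PT.id))
  have hN : PT (rN c0 c) := PT.add (PT.add (PT.mul (PT.const c) (PT.add hM (PT.const 3))) hM)
    (PT.const 10)
  have hK : PT (redI P0 c0 c) := pt_kbInst hN (pt_qq hN) (pt_cPhi PT.id hE hM hN)
  have he : PT fun x : Word => (enc (redI P0 c0 c x) : BT) := by
    obtain ⟨F, hF, h⟩ := hK
    exact ⟨F, hF, h⟩
  exact PT.code he

end Pool.Agent.Lib.MP_bb9e9d_lc
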