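import Pool.Agent.Lib.MP_bb9e9d_lc.Defs

/-!
# Programs for the functions of the algebra, and the facts of a computation

`Pg` are terms of the function algebra `PolyTime`.  A fact is a pair (kind, input tree): `ev q` with
the input `T` says that the value of `q` at `T` is `q.eval T`; `rc g h` with the input `node x y`
says that the value of the recursion at `x, y` is `BT.recur g.eval h.eval x y`.
-/

namespace Pool.Agent.Lib.MP_bb9e9d_lc

open MP_634427_lc

/-- terms of the function algebra -/
inductive Pg : Type
  | id : Pg
  | nil : Pg
  | left : Pg
  | right : Pg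
  | node : Pg → Pg → Pg
  | comp : Pg → Pg → Pg
  | recur : Pg → Pg → Pg
  deriving DecidableEq

/-- the function of a term -/
def Pg.eval : Pg → BT → BT
  | .id => fun t => t
  | .nil => fun _ => .nil
  | .left => BT.left
  | .right => BT.right
  | .node f g => fun t => .node (f.eval t) (g.eval t)
  | .comp f g => fun t => f.eval (g.eval t)
  | .recur g h => fun t => BT.recur g.eval h.eval t.left t.right

/-- all recursions have polynomially bounded values -/
def Pg.Bdd : Pg → Prop
  | .node f g => f.Bdd ∧ g.Bdd
  | .comp f g => f.Bdd ∧ g.Bdd
  | .recur g h => g.Bdd ∧ h.Bdd ∧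
      ∃ c, ∀ x y, (BT.recur g.eval h.eval x y).size ≤ (x.size + y.size + 2) ^ c
  | _ => True

/-- kinds of facts -/
inductive Kd : Type
  | ev : Pg → Kd
  | rc : Pg → Pg → Kd
  deriving DecidableEq

/-- the kinds that occur in the computation of a term -/
def kds : Pg → List Kd
  | .id => [.ev .id]
  | .nil => [.ev .nil]
  | .left => [.ev .left]
  | .right => [.ev .right]
  | .node f g => .ev (.node f g) :: (kds f ++ kds g)
  | .comp f g => .ev (.comp f g) :: (kds f ++ kds g)
  | .recur g h => .ev (.recur g h) :: .rc g h :: (kds g ++ kds h)

/-- facts: a kind and an input tree -/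
abbrev Fact : Type := Kd × BT

/-- the value of a fact -/
def Fact.val : Fact → BT
  | (.ev q, T) => q.eval T
  | (.rc g h, T) => BT.recur g.eval h.eval T.left T.right

/-- the argument of the step function in a recursion -/
def bigT (g h : Pg) (x a b : BT) : BT :=
  .node x (.node (.node a b) (.node (BT.recur g.eval h.eval x a) (BT.recur g.eval h.eval x b)))

/-- the facts on which a fact depends directly -/
def deps : Fact → List Fact
  | (.ev (.node f g), T) => [(.ev f, T), (.ev g, T)]
  | (.ev (.comp f g), T) => [(.ev g, T), (.ev f, g.eval T)]
  | (.ev (.recur g h), T) => [(.rc g h, .node T.left T.right)]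
  | (.rc g _, .node x .nil) => [(.ev g, x)]
  | (.rc g h, .node x (.node a b)) =>
      [(.rc g h, .node x a), (.rc g h, .node x b), (.ev h, bigT g h x a b)]
  | _ => []

/-- the facts of a recursion, given the facts of the two functions -/
def flr (g h : Pg) (G H : BT → List Fact) (x : BT) : BT → List Fact
  | .nil => G x ++ [(.rc g h, .node x .nil)]
  | .node a b => flr g h G H x a ++ flr g h G H x b ++ H (bigT g h x a b) ++
      [(.rc g h, .node x (.node a b))]

/-- the list of all facts of a computation, every fact after those on which it depends -/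
def fl : Pg → BT → List Fact
  | .node f g => fun T => fl f T ++ fl g T ++ [(.ev (.node f g), T)]
  | .comp f g => fun T => fl g T ++ fl f (g.eval T) ++ [(.ev (.comp f g), T)]
  | .recur g h => fun T => flr g h (fl g) (fl h) T.left T.right ++ [(.ev (.recur g h), T)]
  | .id => fun T => [(.ev .id, T)]
  | .nil => fun T => [(.ev .nil, T)]
  | .left => fun T => [(.ev .left, T)]
  | .right => fun T => [(.ev .right, T)]

/-- every member of the list comes after those on which it depends -/
def Closed (L : List Fact) : Prop :=
  ∀ l₁ F l₂, L = l₁ ++ F :: l₂ → ∀ G ∈ deps F, G ∈ l₁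

/-- all subtrees, the children before their parent -/
def subt : BT → List BT
  | .nil => [.nil]
  | .node a b => subt a ++ subt b ++ [.node a b]

/-- children come before their parent -/
def TClosed (L : List BT) : Prop :=
  ∀ l₁ a b l₂, L = l₁ ++ BT.node a b :: l₂ → a ∈ l₁ ∧ b ∈ l₁

/-- the trees that are needed for a list of facts -/
def trees (L : List Fact) : List BT := L.flatMap fun F => subt F.2 ++ subt F.val

end Pool.Agent.Lib.MP_bb9e9d_lc
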