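import Pool.Agent.Lib.MP_bb9e9d_lc.Hard.Prog

/-!
# Local rules for labellings of the addresses

A label contains pointer fields (numbers) and bits.  Fields: `0, 1`: children of the heap cell;
`2`: input, `3`: output, `4`: second input of the record; `5, …, 11`: auxiliary heap pointers;
`12, 13, 14`: pointers to records.  Bits: `0`: the heap cell is a node; `1`: the input of the record
is a node; `2`: copy bit; `3 + k`: the record has the `k`-th kind.
-/

namespace Pool.Agent.Lib.MP_bb9e9d_lc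

open MP_634427_lc

/-- labels -/
structure Lb : Type where
  /-- pointer fields -/
  fld : ℕ → ℕ
  /-- bits -/
  bit : ℕ → Bool

/-- the number of the bit for a kind -/
def kb (P0 : Pg) (k : Kd) : ℕ := 3 + (kds P0).idxOf k

/-- the record pointer `p` of `L` points to a smaller address, where there is a record of kind `k`
with the input in the field `i` and the output in the field `o` of `L` -/
def Cl (P0 : Pg) (a : ℕ) (L : Lb) (a' : ℕ) (L' : Lb) (p : ℕ) (k : Kd) (i o : ℕ) : Prop :=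
  L.fld p < a ∧ (L.fld p = a' →
    L'.bit (kb P0 k) = true ∧ L'.fld 2 = L.fld i ∧ L'.fld 3 = L.fld o)

/-- the same with a second input in the field `w` -/
def ClR (P0 : Pg) (a : ℕ) (L : Lb) (a' : ℕ) (L' : Lb) (p : ℕ) (k : Kd) (w i o : ℕ) : Prop :=
  L.fld p < a ∧ (L.fld p = a' →
    L'.bit (kb P0 k) = true ∧ L'.fld 4 = L.fld w ∧ L'.fld 2 = L.fld i ∧ L'.fld 3 = L.fld o)

/-- the heap cell at the field `z` of `L` is a node with the children in the fields `l`, `r` -/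
def CellR (L : Lb) (a' : ℕ) (L' : Lb) (z l r : ℕ) : Prop :=
  L.fld z = a' → L'.bit 0 = true ∧ L'.fld 0 = L.fld l ∧ L'.fld 1 = L.fld r

/-- the rule for a record of the kind `k` with the label `L` at the address `a`, and any other
address `a'` with the label `L'` -/
def KRule (P0 : Pg) (a : ℕ) (L : Lb) (a' : ℕ) (L' : Lb) : Kd → Prop
  | .ev .id => L.fld 3 = L.fld 2
  | .ev .nil => L.fld 3 = a' → L'.bit 0 = false
  | .ev .left => L.fld 2 = a' →
      (L'.bit 0 = true ∧ L.fld 3 = L'.fld 0) ∨ (L'.bit 0 = false ∧ L.fld 3 = L.fld 2)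
  | .ev .right => L.fld 2 = a' →
      (L'.bit 0 = true ∧ L.fld 3 = L'.fld 1) ∨ (L'.bit 0 = false ∧ L.fld 3 = L.fld 2)
  | .ev (.node f g) => CellR L a' L' 3 5 6 ∧ Cl P0 a L a' L' 12 (.ev f) 2 5 ∧
      Cl P0 a L a' L' 13 (.ev g) 2 6
  | .ev (.comp f g) => Cl P0 a L a' L' 12 (.ev g) 2 5 ∧ Cl P0 a L a' L' 13 (.ev f) 5 3
  | .ev (.recur g h) =>
      (L.fld 2 = a' → (L'.bit 0 = true ∧ L.fld 5 = L'.fld 0 ∧ L.fld 6 = L'.fld 1) ∨
        (L'.bit 0 = false ∧ L.fld 5 = L.fld 2 ∧ L.fld 6 = L.fld 2)) ∧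
      ClR P0 a L a' L' 12 (.rc g h) 5 6 3
  | .rc g h =>
      (L.fld 2 = a' → L.bit 1 = L'.bit 0 ∧
        (L.bit 1 = true → L.fld 5 = L'.fld 0 ∧ L.fld 6 = L'.fld 1)) ∧
      (L.bit 1 = false → Cl P0 a L a' L' 12 (.ev g) 4 3) ∧
      (L.bit 1 = true → ClR P0 a L a' L' 12 (.rc g h) 4 5 7 ∧
        ClR P0 a L a' L' 13 (.rc g h) 4 6 8 ∧ CellR L a' L' 9 7 8 ∧ CellR L a' L' 10 2 9 ∧
        CellR L a' L' 11 4 10 ∧ Cl P0 a L a' L' 14 (.ev h) 11 3)

/-- the address `a` belongs to the region of the witness -/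
def InReg (e m0 a : ℕ) : Prop := 2 ^ m0 ≤ a ∧ a < 2 ^ m0 + 2 ^ e

/-- The rules for the input: the cells `0` and `1` are the codes of `false` and `true`; the cell
`2 ^ j` is the list of the last `j` bits of `x`; the cells of the region form lists; the cell
`2 ^ (m0 + 1)` is the input of the verifier. -/
structure InRule (x : Word) (e m0 a : ℕ) (L : Lb) : Prop where
  zero : a = 0 → L.bit 0 = false
  one : a = 1 → L.bit 0 = true ∧ L.fld 0 = 0 ∧ L.fld 1 = 0
  xs : ∀ j < x.length, a = 2 ^ (j + 1) → L.bit 0 = true ∧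
    L.fld 0 = (if x.reverse.getD j false then 1 else 0) ∧ L.fld 1 = (if j = 0 then 0 else 2 ^ j)
  reg : InReg e m0 a → L.bit 0 = true →
    (L.fld 0 = 0 ∨ L.fld 0 = 1) ∧ (L.fld 1 = 0 ∨ InReg e m0 (L.fld 1))
  root : a = 2 ^ (m0 + 1) → L.bit 0 = true ∧
    L.fld 0 = (if x.length = 0 then 0 else 2 ^ x.length) ∧ (L.fld 1 = 0 ∨ InReg e m0 (L.fld 1))

/-- children have smaller addresses -/
def HRule (a : ℕ) (L : Lb) : Prop := L.bit 0 = true → L.fld 0 < a ∧ L.fld 1 < a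

/-- the tree of the cell `a` is copied to the output of the record at `a` -/
def CpRule (L : Lb) (a' : ℕ) (L' : Lb) : Prop :=
  L.bit 2 = true →
    (L.fld 3 = a' → L'.bit 0 = L.bit 0 ∧
      (L.bit 0 = true → L.fld 5 = L'.fld 0 ∧ L.fld 6 = L'.fld 1)) ∧
    (L.bit 0 = true → L.fld 0 = a' → L'.bit 2 = true ∧ L'.fld 3 = L.fld 5) ∧
    (L.bit 0 = true → L.fld 1 = a' → L'.bit 2 = true ∧ L'.fld 3 = L.fld 6)

/-- the rule for the last address `2 ^ n - 1` -/
def FinRule (P0 : Pg) (m0 n a : ℕ) (L : Lb) (a' : ℕ) (L' : Lb) : Prop :=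
  a = 2 ^ n - 1 →
    Cl P0 a L a' L' 12 (.ev P0) 6 5 ∧ (L.fld 5 = a' → L'.bit 0 = true) ∧
    (a' = 2 ^ (m0 + 1) → L'.bit 2 = true ∧ L'.fld 3 = L.fld 6)

/-- all rules for the pair of the labelled addresses `(a, L)`, `(a', L')` -/
structure PairOk (P0 : Pg) (x : Word) (e m0 n a : ℕ) (L : Lb) (a' : ℕ) (L' : Lb) : Prop where
  inp : InRule x e m0 a L
  heap : HRule a L
  cp : CpRule L a' L'
  fin : FinRule P0 m0 n a L a' L'
  kind : ∀ k ∈ kds P0, L.bit (kb P0 k) = true → KRule P0 a L a' L' k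

/-- the labelling satisfies all rules -/
def LabOk (P0 : Pg) (x : Word) (e m0 n : ℕ) (Λ : ℕ → Lb) : Prop :=
  (∀ a < 2 ^ n, ∀ j < 15, (Λ a).fld j < 2 ^ n) ∧
    ∀ a < 2 ^ n, ∀ a' < 2 ^ n, PairOk P0 x e m0 n a (Λ a) a' (Λ a')

/-- the tree of a heap cell -/
inductive Tr (Λ : ℕ → Lb) : ℕ → BT → Prop
  | nil {a : ℕ} : (Λ a).bit 0 = false → Tr Λ a .nil
  | node {a : ℕ} {s t : BT} : (Λ a).bit 0 = true → Tr Λ ((Λ a).fld 0) s → Tr Λ ((Λ a).fld 1) t →
      Tr Λ a (.node s t)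

end Pool.Agent.Lib.MP_bb9e9d_lc
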