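import Pool.Agent.Lib.MP_bb9e9d_lc.Hard.Rules

/-! # Soundness of the rules: the input -/

namespace Pool.Agent.Lib.MP_bb9e9d_lc

open MP_634427_lc

variable {P0 : Pg} {x : Word} {e m0 n : ℕ} {Λ : ℕ → Lb}

private lemma sa_nil {Λ : ℕ → Lb} {a : ℕ} {t : BT} (hb : (Λ a).bit 0 = false) (ht : Tr Λ a t) :
    t = enc ([] : Word) := by
  cases ht with
  | nil _ => rfl
  | node hb' _ _ =>
    rw [hb] at hb'
    exact absurd hb' (by decide)

private lemma sa_node {Λ : ℕ → Lb} {a : ℕ} {t : BT} (hb : (Λ a).bit 0 = true) (ht : Tr Λ a t) :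
    ∃ s u, t = .node s u ∧ Tr Λ ((Λ a).fld 0) s ∧ Tr Λ ((Λ a).fld 1) u := by
  cases ht with
  | nil hb' =>
    rw [hb] at hb'
    exact absurd hb' (by decide)
  | node _ hs hu => exact ⟨_, _, rfl, hs, hu⟩

private lemma sa_zero (h : LabOk P0 x e m0 n Λ) {t : BT} (ht : Tr Λ 0 t) :
    t = enc ([] : Word) := by
  have h0 : 0 < 2 ^ n := Nat.two_pow_pos n
  exact sa_nil ((h.2 0 h0 0 h0).inp.zero rfl) ht

private lemma sa_one (h : LabOk P0 x e m0 n Λ) (hn : 0 < n) {t : BT} (ht : Tr Λ 1 t) :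
    t = enc true := by
  have h1 : 1 < 2 ^ n := Nat.one_lt_two_pow (by omega)
  obtain ⟨h2, h3, h4⟩ := (h.2 1 h1 1 h1).inp.one rfl
  obtain ⟨s, u, rfl, hs, hu⟩ := sa_node h2 ht
  rw [h3] at hs
  rw [h4] at hu
  rw [sa_zero h hs, sa_zero h hu]
  rfl

/-- Proof: strong induction on `a`, `HRule`. -/
theorem exists_tr (h : LabOk P0 x e m0 n Λ) {a : ℕ} (ha : a < 2 ^ n) : ∃ t, Tr Λ a t := by
  induction a using Nat.strong_induction_on with
  | _ a ih =>
    cases hb : (Λ a).bit 0 with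
    | false => exact ⟨.nil, .nil hb⟩
    | true =>
      obtain ⟨h0, h1⟩ := (h.2 a ha a ha).heap hb
      obtain ⟨s, hs⟩ := ih _ h0 (h0.trans ha)
      obtain ⟨t, ht⟩ := ih _ h1 (h1.trans ha)
      exact ⟨.node s t, .node hb hs ht⟩

/-- Proof: induction on `j` with `InRule.xs`; for `j = 0` the cell is `0`. -/
theorem tr_x (h : LabOk P0 x e m0 n Λ) (hx : x.length < n) {j : ℕ} (hj : j ≤ x.length) {t : BT}
    (ht : Tr Λ (if j = 0 then 0 else 2 ^ j) t) : t = enc (x.drop (x.length - j)) := by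
  induction j generalizing t with
  | zero =>
    rw [if_pos rfl] at ht
    rw [sa_zero h ht, Nat.sub_zero, List.drop_length]
  | succ j ih =>
    rw [if_neg (Nat.succ_ne_zero j)] at ht
    have hlt : 2 ^ (j + 1) < 2 ^ n := Nat.pow_lt_pow_right (by norm_num) (by omega)
    obtain ⟨h1, h2, h3⟩ := (h.2 _ hlt _ hlt).inp.xs j (by omega) rfl
    obtain ⟨s, u, rfl, hs, hu⟩ := sa_node h1 ht
    rw [h2] at hs
    rw [h3] at hu
    have hu' := ih (by omega) hu
    have hs' : s = enc (x.reverse.getD j false) := by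
      cases hb : x.reverse.getD j false with
      | false =>
        rw [hb] at hs
        rw [if_neg (by decide)] at hs
        rw [sa_zero h hs]
        rfl
      | true =>
        rw [hb] at hs
        rw [if_pos rfl] at hs
        exact sa_one h (by omega) hs
    have hidx : x.length - (j + 1) < x.length := by omega
    have hget : x.reverse.getD j false = x[x.length - (j + 1)] := by
      have hj' : j < x.reverse.length := by rw [List.length_reverse]; omega
      rw [List.getD_eq_getElem _ _ hj', List.getElem_reverse]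
      congr 1
      omega
    rw [List.drop_eq_getElem_cons hidx, enc_cons, hs', hget, hu']
    congr 3
    omega

/-- Proof: strong induction on `k` (address `2 ^ m0 + k`), `InRule.reg`. -/
theorem tr_reg (h : LabOk P0 x e m0 n Λ) (hn : m0 + 1 < n) (he : e ≤ m0) {k : ℕ} (hk : k < 2 ^ e)
    {t : BT} (ht : Tr Λ (2 ^ m0 + k) t) : ∃ u : Word, u.length ≤ k + 1 ∧ t = enc u := by
  have hlt : ∀ k < 2 ^ e, 2 ^ m0 + k < 2 ^ n := by
    intro k hk
    have h1 : 2 ^ e ≤ 2 ^ m0 := Nat.pow_le_pow_right (by norm_num) he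
    have h2 : 2 ^ (m0 + 1) < 2 ^ n := Nat.pow_lt_pow_right (by norm_num) hn
    rw [pow_succ] at h2
    omega
  induction k using Nat.strong_induction_on generalizing t with
  | _ k ih =>
    cases hb : (Λ (2 ^ m0 + k)).bit 0 with
    | false => exact ⟨[], Nat.zero_le _, sa_nil hb ht⟩
    | true =>
      obtain ⟨s, u, rfl, hs, hu⟩ := sa_node hb ht
      have hin : InReg e m0 (2 ^ m0 + k) := ⟨by omega, by omega⟩
      obtain ⟨h1, h2⟩ := (h.2 _ (hlt k hk) _ (hlt k hk)).inp.reg hin hb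
      obtain ⟨-, h3⟩ := (h.2 _ (hlt k hk) _ (hlt k hk)).heap hb
      obtain ⟨b, hb'⟩ : ∃ b : Bool, s = enc b := by
        rcases h1 with h1 | h1
        · rw [h1] at hs
          exact ⟨false, sa_zero h hs⟩
        · rw [h1] at hs
          exact ⟨true, sa_one h (by omega) hs⟩
      obtain ⟨v, hv, hv'⟩ : ∃ v : Word, v.length ≤ k ∧ u = enc v := by
        rcases h2 with h2 | h2
        · rw [h2] at hu
          exact ⟨[], Nat.zero_le _, sa_zero h hu⟩
        · obtain ⟨h4, h5⟩ := h2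
          obtain ⟨k', hk'⟩ := Nat.exists_eq_add_of_le h4
          rw [hk'] at hu h5 h3
          obtain ⟨v, hv, hv'⟩ := ih k' (by omega) (by omega) hu
          exact ⟨v, by omega, hv'⟩
      refine ⟨b :: v, by rw [List.length_cons]; omega, ?_⟩
      rw [enc_cons, hb', hv']

/-- Proof: `InRule.root`, `tr_x`, `tr_reg`. -/
theorem tr_root (h : LabOk P0 x e m0 n Λ) (hx : x.length < m0) (hn : m0 + 1 < n) (he : e ≤ m0)
    {t : BT} (ht : Tr Λ (2 ^ (m0 + 1)) t) : ∃ u : Word, u.length ≤ 2 ^ e ∧ t = enc (x, u) := by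
  have hlt : 2 ^ (m0 + 1) < 2 ^ n := Nat.pow_lt_pow_right (by norm_num) hn
  obtain ⟨h1, h2, h3⟩ := (h.2 _ hlt _ hlt).inp.root rfl
  obtain ⟨s, v, rfl, hs, hv⟩ := sa_node h1 ht
  rw [h2] at hs
  have hs' := tr_x h (by omega) le_rfl hs
  rw [Nat.sub_self, List.drop_zero] at hs'
  rcases h3 with h3 | h3
  · rw [h3] at hv
    refine ⟨[], Nat.zero_le _, ?_⟩
    rw [enc_pair, hs', sa_zero h hv]
  · obtain ⟨h4, h5⟩ := h3
    obtain ⟨k, hk⟩ := Nat.exists_eq_add_of_le h4
    rw [hk] at hv h5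
    obtain ⟨u, hu, hu'⟩ := tr_reg h hn he (by omega) hv
    refine ⟨u, by omega, ?_⟩
    rw [enc_pair, hs', hu']

/-- Proof: induction on `Tr`, using `CpRule` for the pairs of `a` and the addresses of its output and
of its children. -/
theorem tr_copy (h : LabOk P0 x e m0 n Λ) {a : ℕ} (ha : a < 2 ^ n) (hc : (Λ a).bit 2 = true)
    {t : BT} (ht : Tr Λ a t) : Tr Λ ((Λ a).fld 3) t := by
  induction ht with
  | @nil a hb =>
    have h3 : (Λ a).fld 3 < 2 ^ n := h.1 a ha 3 (by norm_num)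
    obtain ⟨h4, -, -⟩ := (h.2 a ha _ h3).cp hc
    exact .nil ((h4 rfl).1.trans hb)
  | @node a s t hb hs ht ihs iht =>
    have h3 : (Λ a).fld 3 < 2 ^ n := h.1 a ha 3 (by norm_num)
    have h0 : (Λ a).fld 0 < 2 ^ n := h.1 a ha 0 (by norm_num)
    have h1 : (Λ a).fld 1 < 2 ^ n := h.1 a ha 1 (by norm_num)
    obtain ⟨h4, -, -⟩ := (h.2 a ha _ h3).cp hc
    obtain ⟨-, h5, -⟩ := (h.2 a ha _ h0).cp hc
    obtain ⟨-, -, h6⟩ := (h.2 a ha _ h1).cp hc
    obtain ⟨h7, h8⟩ := h4 rfl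
    obtain ⟨h9, h10⟩ := h8 hb
    obtain ⟨h11, h12⟩ := h5 hb rfl
    obtain ⟨h13, h14⟩ := h6 hb rfl
    refine .node (h7.trans hb) ?_ ?_
    · rw [← h9, ← h12]
      exact ihs h0 h11
    · rw [← h10, ← h14]
      exact iht h1 h13

end Pool.Agent.Lib.MP_bb9e9d_lc
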